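import Pool.Agent.ALT.Tu.Defs
import Pool.Agent.ALZ.Defs

/-! # ALT, block Tu: rooted counts, matrix tree theorem, kernels, duality, the formula for `w~`.
Statements with complete proofs in the docstrings. All formulas checked by computer on 150 random
plane maps. A module proves `theorem thm_X : St_X` (or from the named earlier statements). -/

set_option autoImplicit false

namespace Pool.ALT

open LaurentPolynomial

/-! ## rooted counts -/

/-- [RT] the partition `rt W`.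
PROOF. `rt {a} = ⊥` (`x = y ∨ (x = a ∧ y = a)`). For `w ∈ W`: `rt W ⊔ pr x w = rt (insert x W)`: use
`sup_pr_iff` and compare the relations. Number of classes: induction on `W` (`Finset.induction_on`,
or `Finset.Nonempty.cons_induction`): `rt {a} = ⊥`, `nc ⊥ = |V|` (`nc_bot`); for `x ∉ W` the pair `x`, `w` is
not joined in `rt W`, so `nc_sup_pr`. -/
def St_RT : Prop := ∀ {V : Type} [Fintype V] [DecidableEq V],
  (∀ a : V, rt ({a} : Finset V) = ⊥) ∧ (∀ a b : V, rt ({a, b} : Finset V) = pr a b) ∧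
  (∀ (W : Finset V) (x w : V), w ∈ W → rt W ⊔ pr x w = rt (insert x W) ∧
    rt W ⊔ pr w x = rt (insert x W)) ∧
  (∀ W : Finset V, W.Nonempty → nc (rt W) + W.card = Fintype.card V + 1)

/-- [RN] recursion for an edge `e` which joins a root `w` with a vertex `x` which is no root.
PROOF (from RT). `R = insert e (R.erase e)`: the `A` without `e` give `NF (R.erase e) W`; for `A = insert e A'`,
`sp (rt W) A = sp (rt W ⊔ pe e) A' = sp (rt (insert x W)) A'` (`sp_insert'`, RT) and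
`A.card + W.card = A'.card + (insert x W).card`. (`Finset.card_bij` or `Finset.powerset_insert` and
`Finset.filter_union`, `card_image_of_injOn`.) The same for `NF1`. -/
def St_RN : Prop := ∀ {V E : Type} [Fintype V] [DecidableEq V] [DecidableEq E] (g : Gr V E)
  (R : Finset E) (W : Finset V) (e : E) (w x : V), e ∈ R → w ∈ W → x ∉ W →
  ((g.u e = w ∧ g.v e = x) ∨ (g.u e = x ∧ g.v e = w)) →
  g.NF R W = g.NF (R.erase e) W + g.NF (R.erase e) (insert x W)

/-- [RB] base cases of the recursion.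
PROOF (from RT). `W = univ`: `A.card + |V| = |V|` forces `A = ∅`, `sp (rt univ) ∅ = rt univ` has one class
(RT). If no edge of `R` leaves `W`, `W ≠ univ`, `W ≠ ∅`: all `sp (rt W) A ≤ τ`, `τ` = the partition with the
two classes `W`, `Wᶜ` (`sp_le`; define `τ x y := (x ∈ W ↔ y ∈ W)`), and `1 < nc τ ≤ nc (sp ..)` by `nc_anti`
(if `nc (sp ..) = 1` then all `x`, `y` are joined in it, hence in `τ`). -/
def St_RB : Prop := ∀ {V E : Type} [Fintype V] [DecidableEq V] [Nonempty V] (g : Gr V E)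
  (R : Finset E), g.NF R Finset.univ = 1 ∧
  ∀ W : Finset V, W.Nonempty → W ≠ Finset.univ → (∀ e ∈ R, (g.u e ∈ W ↔ g.v e ∈ W)) →
    g.NF R W = 0

/-- [DR] the recursion for the determinant.
PROOF. `e = (w, x)`: for `y, z ∉ W`, `Lp R y z = Lp (R.erase e) y z + (1 if y = z = x else 0)` (the factor
`d (single y 1) e` is `± 1` if `y = x` and `0` if `y ∉ {x, w}`; `w ∈ W`). So `LW R W = M.updateRow x (M x + e_x)`,
`M = LW (R.erase e) W`, `e_x = Pi.single x 1`, and `Matrix.det_updateRow_add` gives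
`det (LW R W) = det M + det (M.updateRow x e_x)`. Finally `det (M.updateRow x e_x) = det (LW (R.erase e)
(insert x W))`: the two matrices have the same row `x` (`= e_x`) and differ only by the entries `M y x`
(`y ≠ x`) of column `x`: row `y` of the first is row `y` of the second plus `M y x` (or 0) times row `x`:
`Matrix.det_eq_of_forall_row_eq_smul_add_const`. -/
def St_DR : Prop := ∀ {V E : Type} [Fintype V] [DecidableEq V] [DecidableEq E] (g : Gr V E)
  (R : Finset E) (W : Finset V) (e : E) (w x : V), e ∈ R → w ∈ W → x ∉ W →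
  ((g.u e = w ∧ g.v e = x) ∨ (g.u e = x ∧ g.v e = w)) →
  (g.LW R W).det = (g.LW (R.erase e) W).det + (g.LW (R.erase e) (insert x W)).det

/-- [DB] base cases for the determinant.
PROOF. `LW R univ = 1`. If no edge of `R` leaves `W` and `W ≠ univ`: the indicator `f` of `Wᶜ` is `≠ 0` and
`(LW R W).mulVec f = 0`: rows `x ∈ W` give `f x = 0`; rows `x ∉ W` give `∑ e ∈ R, d (single x 1) e * ∑_y d (single y 1) e f y
= ∑ e ∈ R, d (single x 1) e * g.d f e` and `g.d f e = 0`. (`Matrix.exists_mulVec_eq_zero_iff`.) -/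
def St_DB : Prop := ∀ {V E : Type} [Fintype V] [DecidableEq V] (g : Gr V E)
  (R : Finset E), (g.LW R Finset.univ).det = 1 ∧
  ∀ W : Finset V, W ≠ Finset.univ → (∀ e ∈ R, (g.u e ∈ W ↔ g.v e ∈ W)) → (g.LW R W).det = 0

/-- [MT] the matrix tree theorem for rooted forests.
PROOF (from RN, RB, DR, DB). Induction on `R.card` for all nonempty `W`: if some edge of `R` joins `W` and
`Wᶜ` use RN and DR; otherwise RB and DB. -/
def St_MT : Prop := ∀ {V E : Type} [Fintype V] [DecidableEq V] [DecidableEq E] (g : Gr V E)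
  (R : Finset E) (W : Finset V), W.Nonempty → (g.LW R W).det = g.NF R W

/-- [N1] forests with one tree without root.
PROOF (from RT). Fix `w0 ∈ W`, `n = |V|`. For `A` in the set of `NF1` let `S A = {v : v ∉ W and v, w0 not
joined in sp (rt W) A}` (a class of the partition, the other class is the one of `w0`).
(i) For `v ∉ W`: `A` is in the set of `NF R (insert v W)` iff `A` is in the set of `NF1 R W` and `v ∈ S A`:
`sp (rt (insert v W)) A = sp (rt W) A ⊔ pr v w0` (RT, `sp_sup`), its number of classes is `nc (sp (rt W) A)` or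
one less (`nc_sup_pr`); and `nc (sp (rt W) A) ≥ nc (rt W) - |A| = 2` (`nc_le_add_card`). So
`∑_v NF R (insert v W) = ∑_{A ∈ NF1} |S A|`.
(ii) For `e ∈ R` with distinct ends `u, v ∉ W` and `B ⊆ R`: `B` is in the set of `NF R {u, v, W}` iff `e ∉ B`,
`A = insert e B` is in the set of `NF1 R W` and `u ∈ S A`. (=> : `nc (sp (rt W) B) ≥ nc (rt W) - |B| = 3` and it is
`≤ 1 + 2` by `nc_sup_pr` twice, so `u`, `v`, `w0` are in three different classes of `sp (rt W) B` [in
particular `e ∉ B`], joining `u`, `v` gives 2 classes, and `w0` is not joined with them. <= : `A` is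
independent: `|A| + nc (sp (rt W) A) = nc (rt W)`, so `nc (sp (rt W) B) = 3` by `nc_le_add_card`, `u`, `v` are
not joined in `B`, and neither is joined with `w0`; join all.) So the second sum is
`∑_{A ∈ NF1} #{e ∈ A : u e ∈ S A}` (for such `e` both ends are in `S A`, not in `W`, and distinct).
(iii) `|S A| = #{e ∈ A : u e ∈ S A} + 1`: let `B` = the other edges of `A`. In `sp (rt W) B` the vertices of
`S A` are isolated, and all others are joined with `w0` (the partition with the class `V \ S A` and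
singletons contains `B`; conversely `sp (rt W) A ≤ sp (rt W) B ⊔ (partition with the class S A)`), so
`nc (sp (rt W) B) = 1 + |S A|`; by independence `|A| - |B| = nc (sp (rt W) B) - nc (sp (rt W) A) = |S A| - 1`.
ALTERNATIVE PROOF (recursion, may be easier): both sides satisfy the recursion [RN] for an edge from `w ∈ W`
to `x ∉ W` (for `v = x` use `NF R (insert x W) = NF (R.erase e) (insert x W)`, an edge between two roots is never
used), so one only has to treat the case that no edge of `R` leaves `W`. -/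
def St_N1 : Prop := ∀ {V E : Type} [Fintype V] [DecidableEq V] [DecidableEq E] (g : Gr V E)
  (R : Finset E) (W : Finset V), W.Nonempty →
  (g.NF1 R W : ℤ) = ∑ v ∈ Finset.univ \ W, (g.NF R (insert v W) : ℤ) -
    ∑ e ∈ R with g.u e ∉ W ∧ g.v e ∉ W ∧ g.u e ≠ g.v e,
      (g.NF R (insert (g.u e) (insert (g.v e) W)) : ℤ)

/-- [PQ] trees of the whole graph.
PROOF (from RT). `rt {a} = ⊥`, `rt {a, b} = pr a b = g.ab`, `sp g.ab A = sp ⊥ A ⊔ g.ab` (`sp_sup`), `nc ⊥ = |V|`. If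
`nc (sp ⊥ A ⊔ ab) = 1` and `|A| + 2 = |V|` then `a`, `b` are not joined in `A` (otherwise `nc (sp ⊥ A) = 1`,
`|V| ≤ 1 + |A|`), so `nc (sp ⊥ A) = 2`. Conversely the same. -/
def St_PQ : Prop := ∀ {V E : Type} [Fintype V] [DecidableEq V] (g : Gr V E)
  (R : Finset E), g.K ⊥ R = 1 → g.a ≠ g.b →
  g.p ⊥ R = g.NF R {g.a} ∧ g.q ⊥ R = g.NF R {g.a, g.b}

/-- [PP] a connected graph has a spanning tree.
PROOF (from RT). For every `σ`, `R` there is `A ⊆ R` with `sp σ A = sp σ R` and `|A| + nc (sp σ A) = nc σ`: induction on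
`R` (`Finset.induction_on`): to `insert e R` take `A` or `insert e A` according to whether the ends of `e`
are joined in `sp σ A` (`sp_insert_of`, `nc_sp_insert`). For `σ = rt W` this `A` is counted by `NF R W`. -/
def St_PP : Prop := ∀ {V E : Type} [Fintype V] [DecidableEq V] [DecidableEq E] (g : Gr V E)
  (R : Finset E) (W : Finset V), W.Nonempty → nc (g.sp (rt W) R) = 1 → 0 < g.NF R W

/-! ## kernels -/

/-- [KE] the kernel exists.
PROOF (from MT). `M = LW R W` has determinant `≠ 0`. Put `G x y = if x ∈ W ∨ y ∈ W then 0 else M⁻¹ x y`. For `x ∉ W`,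
`f = 0` on `W`: `g.d (G x) e = ∑_z G x z * g.d (single z 1) e` (`g.d` is linear in the function), so
`∑ e ∈ R, d (G x) e * d f e = ∑_z ∑_y G x z * Lp R z y * f y`; only `z, y ∉ W` matter, there `Lp R z y = M z y`, so it
is `∑_z M⁻¹ x z * (M.mulVec f) z` over `z ∉ W`; for `z ∈ W` one has `(M.mulVec f) z = f z = 0`, so the sum may be taken over
all `z` and equals `f x` by `M⁻¹ * M = 1`. -/
def St_KE : Prop := ∀ {V E : Type} [Fintype V] [DecidableEq V] [DecidableEq E] (g : Gr V E)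
  (R : Finset E) (W : Finset V), W.Nonempty → 0 < g.NF R W → ∃ G, g.Ker R W G

/-- [KS] elementary properties of the kernel.
PROOF. Symmetry: for `x, y ∉ W`, `rep` at `x` with `f = G y` and at `y` with `f = G x` (`G y x = ∑ d (G x) d (G y) = G x y`);
otherwise both are 0. Diagonal: `G x x = ∑ (d (G x))² ≥ 0`; if `x ∉ W` and `G x x = 0` then all `d (G x) e = 0`, so
`f x = 0` for all `f` vanishing on `W`, contradiction with `f = Pi.single x 1`. Uniqueness: `G x y = ∑ d (G' y) d (G x)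
= G' y x = G' x y`. -/
def St_KS : Prop := ∀ {V E : Type} [DecidableEq V] (g : Gr V E) (R : Finset E) (W : Finset V)
  (G : V → V → ℝ), g.Ker R W G → (∀ x y, G x y = G y x) ∧ (∀ x, x ∉ W → 0 < G x x) ∧
  ∀ G', g.Ker R W G' → G = G'

/-- [KI] relation with the inverse matrix.
PROOF (from MT). If `M.mulVec f = 0`, `M = LW R W`, then `f = 0` on `W` (rows of `W`), and for `x ∉ W`,
`f x = ∑ e ∈ R, d (G x) e * d f e = ∑_{z ∉ W} G x z (M.mulVec f) z = 0`. So `M.det ≠ 0`
(`Matrix.exists_mulVec_eq_zero_iff`), `0 < NF R W` by MT. For `x ∉ W` and `f = ` column `y` of `M⁻¹`, `y ∉ W` (it vanishes on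
`W`: row `w ∈ W` of `M * M⁻¹ = 1`), the same computation gives `M⁻¹ x y = f x = ∑_z G x z (M.mulVec f) z = G x y`. -/
def St_KI : Prop := ∀ {V E : Type} [Fintype V] [DecidableEq V] [DecidableEq E] (g : Gr V E)
  (R : Finset E) (W : Finset V) (G : V → V → ℝ), W.Nonempty → g.Ker R W G → 0 < g.NF R W ∧
  (g.LW R W).det ≠ 0 ∧ ∀ x y, x ∉ W → y ∉ W → (g.LW R W)⁻¹ x y = G x y

/-- [K1] one more root.
PROOF (from MT, KI). `M = LW R W`. `det (LW R (insert v W)) = det (M.updateRow v (Pi.single v 1))` (same argument as in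
[DR]: `Matrix.det_eq_of_forall_row_eq_smul_add_const`) `= M.adjugate v v` (`Matrix.adjugate_apply`)
`= M.det * M⁻¹ v v` (`Matrix.inv_def`, `Ring.inverse_eq_inv'`). -/
def St_K1 : Prop := ∀ {V E : Type} [Fintype V] [DecidableEq V] [DecidableEq E] (g : Gr V E)
  (R : Finset E) (W : Finset V) (G : V → V → ℝ) (v : V), W.Nonempty → g.Ker R W G → v ∉ W →
  (g.NF R (insert v W) : ℝ) = g.NF R W * G v v

/-- [K2] deletion of an edge.
PROOF (from MT, KI). Let `c x = if x ∈ W then 0 else g.d (Pi.single x 1) e`. `LW (R.erase e) W = M - c cᵀ`, `M = LW R W`, so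
`det = M.det * (1 - cᵀ M⁻¹ c)` (matrix determinant lemma: `Matrix.det_add_replicateCol_mul_replicateRow` or
`Matrix.det_one_add_mul_comm`), and `cᵀ M⁻¹ c = g.rs G e` (only indices outside of `W` matter, `G` vanishes on
`W`, expand the two values `± 1` of `c`; `KS` symmetry is not needed if one writes `G u v + G v u`; use
`M⁻¹ᵀ = M⁻¹` or the hypothesis symmetry from KS). -/
def St_K2 : Prop := ∀ {V E : Type} [Fintype V] [DecidableEq V] [DecidableEq E] (g : Gr V E)
  (R : Finset E) (W : Finset V) (G : V → V → ℝ) (e : E), W.Nonempty → g.Ker R W G → e ∈ R →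
  (g.NF (R.erase e) W : ℝ) = g.NF R W * (1 - g.rs G e)

/-- [KR] restriction of the kernel to one more root.
PROOF (from KS). `H x y = G x y - G x v * G v y / G v v`. `H v y = 0`, `H x v = 0`; it vanishes for `x ∈ W` or `y ∈ W`. For `x ∉ insert v W`
and `f = 0` on `insert v W`: `∑ d (H x) d f = f x - G x v / G v v * f v = f x` (linearity of `g.d`). -/
def St_KR : Prop := ∀ {V E : Type} [DecidableEq V] (g : Gr V E) (R : Finset E) (W : Finset V)
  (G : V → V → ℝ) (v : V), g.Ker R W G → v ∉ W →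
  g.Ker R (insert v W) (fun x y => G x y - G x v * G v y / G v v)

/-- [KF] forests with one tree without root, in terms of the kernel.
PROOF (from N1, K1, KR, KS). `NF R (insert v W) = NF R W * G v v` (K1). For distinct `u, v ∉ W`:
`NF R (insert u (insert v W)) = NF R (insert v W) * (G u u - G u v * G v u / G v v) = NF R W * (G u u * G v v - G u v ^ 2)` (K1 for
`insert v W` and the kernel KR). Insert in N1; the terms of the full sums with `v ∈ W`, resp. `u ∈ W` or `v ∈ W` or `u = v`,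
are 0. -/
def St_KF : Prop := ∀ {V E : Type} [Fintype V] [DecidableEq V] [DecidableEq E] (g : Gr V E)
  (R : Finset E) (W : Finset V) (G : V → V → ℝ), W.Nonempty → g.Ker R W G →
  (g.NF1 R W : ℝ) = g.NF R W * (∑ v, G v v -
    ∑ e ∈ R, (G (g.u e) (g.u e) * G (g.v e) (g.v e) - G (g.u e) (g.v e) ^ 2))

/-- [FL] the potential: flow identity, range.
PROOF (from KS). `ph = G b`. `ph a = 0`; flow: `rep` at `b` for `f = h - h a` (constants have `d = 0`), `Ker R {a} G`. Range: `0 ≤ ph`: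
put `f = min ph 0`; `(d f e)² ≤ d ph e * d f e` for every edge (cases), `f a = 0`, so `∑ (d f)² ≤ ∑ d ph d f = f b = min (ph b) 0 = 0`
as `ph b = G b b > 0`; so all `d f e = 0`, hence `f x = ∑ d (G x) d f = 0` for all `x ≠ a`. `ph ≤ ph b`: the same with
`f = max (ph - ph b) 0`: `(d f)² ≤ d ph d f`, `f a = 0` (as `- ph b < 0`), `f b = 0`. Harmonic points: if `x ≠ a`, `x ≠ b` then
`∑ d ph d (Pi.single x 1) = 0`. -/
def St_FL : Prop := ∀ {V E : Type} [Fintype V] [DecidableEq V] [DecidableEq E] (g : Gr V E)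
  (R : Finset E) (G : V → V → ℝ), g.a ≠ g.b → g.Ker R {g.a} G →
  G g.b g.a = 0 ∧ 0 < G g.b g.b ∧
  (∀ h : V → ℝ, ∑ e ∈ R, g.d (G g.b) e * g.d h e = h g.b - h g.a) ∧
  ∀ x, 0 ≤ G g.b x ∧ G g.b x ≤ G g.b g.b

/-- [SQ] an edge with the full potential difference joins `a` and `b`.
PROOF (from FL, KS). Let `{x, y}` be the ends, `ph x = 0`, `ph y = r = ph b` (`0 ≤ ph ≤ r`). If `y ≠ b` (`y ≠ a` because `ph y = r > 0`): flow identity
for `h = Pi.single y 1`: `∑ e, d ph e * d (single y 1) e = 0`; each term is `≥ 0` (it is `ph y - ph (other end) ≥ 0`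
for edges at `y`, 0 for loops and the other edges), so all are 0, but the edge `{x, y}` gives `r > 0`. So `y = b`. In the same way
`x = a` (`h = Pi.single x 1`, all terms `≤ 0`). So `g.sp ⊥ {e} a b` (`pe_le_sp`). -/
def St_SQ : Prop := ∀ {V E : Type} [Fintype V] [DecidableEq V] [DecidableEq E] (g : Gr V E)
  (R : Finset E) (G : V → V → ℝ) (e : E), g.a ≠ g.b → g.Ker R {g.a} G → e ∈ R →
  G g.b g.b ≤ |g.d (G g.b) e| → g.sp ⊥ {e} g.a g.b

/-- [BH] the black half of the formula for `w~` (any graph).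
PROOF (from KF, KR, KS, K1, FL). `ph = G b`, `r = ph b = G b b`, `q = p r` (K1), `H x y = G x y - ph x * ph y / r` (KR and uniqueness KS). Write
`e = (u, v)`, sums over `e ∈ R`. By KF: `NF1 {a} = p (∑ G_vv - ∑ (G_uu G_vv - G_uv²))`, `NF1 {a,b} = q (∑ H_vv - ∑ (H_uu H_vv - H_uv²))`. Inserting
`G = H + ph ph / r` (the terms with `ph^4` cancel):
`NF1 {a,b} / q - NF1 {a} / p = -(1/r) Br`, `Br = ∑_v ph_v² - ∑_e (ph_u² H_vv + ph_v² H_uu - 2 ph_u ph_v H_uv)`.
For `x ≠ a, b`: `1 = ∑_e d (H x) e * d (single x 1) e` (rep), so `∑_x ph_x² = r² + ∑_e (ph_v² (H_vv - H_uv) + ph_u² (H_uu - H_uv))`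
(exchange the sums over `x` and `e`; the terms with `x = a` or `b` vanish as `H` vanishes there; `ph a = 0`). So
`Br = r² + ∑_e [(ph_v² - ph_u²)(H_vv - H_uu) - (ph_v - ph_u)² H_uv]`. Flow identity for `h x = ph x * H x x` (0 at `a`, `b`):
`0 = ∑ (ph_v - ph_u) (ph_v H_vv - ph_u H_uu) = ½ ∑ (ph_v² - ph_u²)(H_vv - H_uu) + ½ ∑ (ph_v - ph_u)² (H_uu + H_vv)`. So
`Br = r² - ∑ (ph_v - ph_u)² (H_uu + H_vv + H_uv)` and `p NF1 {a,b} - q NF1 {a} = p q (-Br / r) = - p² Br`, `p² r² = q²`. -/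
def St_BH : Prop := ∀ {V E : Type} [Fintype V] [DecidableEq V] [DecidableEq E] (g : Gr V E)
  (R : Finset E) (G H : V → V → ℝ), g.a ≠ g.b → g.Ker R {g.a} G → g.Ker R {g.a, g.b} H →
  (g.NF R {g.a} : ℝ) * g.NF1 R {g.a, g.b} - (g.NF R {g.a, g.b} : ℝ) * g.NF1 R {g.a} =
    -(g.NF R {g.a, g.b} : ℝ) ^ 2 + (g.NF R {g.a} : ℝ) ^ 2 * ∑ e ∈ R, g.d (G g.b) e ^ 2 *
      (H (g.u e) (g.u e) + H (g.v e) (g.v e) + H (g.u e) (g.v e))

/-- [RL] resistances: `R_e(G) = R_e(G/ab) + (d ph)² / r`, and `G b b = q / p`.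
PROOF (from K1, KR, KS). `H x y = G x y - G x b * G b y / G b b`, `insert b {a}`; expand `rs`; `G x b = G b x`. -/
def St_RL : Prop := ∀ {V E : Type} [Fintype V] [DecidableEq V] [DecidableEq E] (g : Gr V E)
  (R : Finset E) (G H : V → V → ℝ), g.a ≠ g.b → g.Ker R {g.a} G → g.Ker R {g.a, g.b} H →
  (g.NF R {g.a, g.b} : ℝ) = g.NF R {g.a} * G g.b g.b ∧
  ∀ e, g.rs G e = g.rs H e + g.d (G g.b) e ^ 2 / G g.b g.b

/-! ## minors: Rayleigh -/

/-- the quotient graph -/
def Gr.quo {V E : Type} (g : Gr V E) (σ : Setoid V) : Gr (Quotient σ) E :=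
  ⟨fun e => Quotient.mk σ (g.u e), fun e => Quotient.mk σ (g.v e), Quotient.mk σ g.a,
    Quotient.mk σ g.b⟩

/-- [QG] partitions of the quotient graph.
PROOF. Let `τ = g.sp σ A`, `τ' = (g.quo σ).sp ⊥ A`. The relation `τ'' (⟦x⟧, ⟦y⟧) := τ x y` is well defined (`σ ≤ τ`) and
contains the edges of `A`, so `τ' ≤ τ''` (`sp_le`); and `x ~ y := τ' ⟦x⟧ ⟦y⟧` is a `Setoid` (`Setoid.comap`)
containing `σ` and the edges of `A`, so it contains `τ`. So `τ' ⟦x⟧ ⟦y⟧ ↔ τ x y`, and the map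
`Quotient τ → Quotient τ'` induced by `x ↦ ⟦⟦x⟧⟧` is a bijection. The same with `g.ab` joined (second and fourth
part: apply the first to the graph with one more edge, or repeat: `sp σ A ⊔ ab`). -/
def St_QG : Prop := ∀ {V E : Type} [Finite V] (g : Gr V E) (σ : Setoid V) (A : Finset E),
  nc ((g.quo σ).sp ⊥ A) = nc (g.sp σ A) ∧
  nc ((g.quo σ).sp ⊥ A ⊔ (g.quo σ).ab) = nc (g.sp σ A ⊔ g.ab) ∧
  (∀ x y, (g.quo σ).sp ⊥ A (Quotient.mk σ x) (Quotient.mk σ y) ↔ g.sp σ A x y) ∧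
  nc (⊥ : Setoid (Quotient σ)) = nc σ

open Classical in
/-- [PD] trees which contain `f`.
PROOF. The trees of `(σ, R)` (sets of `g.p`, `g.q`) without `f` are the `A ⊆ R.erase f` with the same conditions; those with `f` are
`A = insert f A'`, `A'` a tree of `(σ ⊔ pe f, R.erase f)`: `sp σ A = sp (σ ⊔ pe f) A'` (`sp_insert'`), `nc (σ ⊔ pe f) + 1 = nc σ`
(`f` is not a loop), `K σ R = K (σ ⊔ pe f) (R.erase f)`. -/
def St_PD : Prop := ∀ {V E : Type} [Finite V] [DecidableEq E] (g : Gr V E) (σ : Setoid V)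
  (R : Finset E) (f : E), f ∈ R → ¬ σ (g.u f) (g.v f) →
  g.p σ R = ((R.erase f).powerset.filter fun A => nc (g.sp σ A) = g.K σ R ∧
    A.card + nc (g.sp σ A) = nc σ).card + g.p (σ ⊔ g.pe f) (R.erase f) ∧
  g.q σ R = ((R.erase f).powerset.filter fun A => nc (g.sp σ A) = g.K σ R + 1 ∧
    ¬ g.sp σ A g.a g.b ∧ A.card + nc (g.sp σ A) = nc σ).card + g.q (σ ⊔ g.pe f) (R.erase f)

/-- [RA] Rayleigh inequality for all minors (needed for (S0)).
PROOF (from RT, MT, KE, K2, KS, KR, RL, QG, PD). If `σ a b` then `q σ R = 0` (no `A` separates `a`, `b`) and the right side is 0 (same for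
`σ ⊔ pe f`). Otherwise let `g' = g.quo σ` on `V' = Quotient σ` (a `Fintype` by `Fintype.ofFinite`, `DecidableEq` classical), `a' ≠ b'`. By QG
and `rt {a'} = ⊥`, `rt {a', b'} = g'.ab` (RT): `P := p σ R = NF g' R {a'}`, `Q := q σ R = NF g' R {a', b'}` (as in [PQ]; `K σ R = 1`), and the
numbers of trees without `f` are `P0 = NF g' (R.erase f) {a'}`, `Q0 = NF g' (R.erase f) {a', b'}`. By PD the claim is
`P (Q - Q0) ≤ (P - P0) Q`, i.e. `P0 Q ≤ P Q0`. If `P = 0` then `P0 = 0`. If `P > 0`: KE gives `G` for `{a'}`, KR gives `H` for `{a', b'}`, K2: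
`P0 = P (1 - rs G f)`, `Q0 = Q (1 - rs H f)`, and `rs H f ≤ rs G f` by RL. -/
def St_RA : Prop := ∀ {V E : Type} [Finite V] [DecidableEq E] (g : Gr V E) (σ : Setoid V)
  (R : Finset E) (f : E), g.K σ R = 1 → f ∈ R → ¬ σ (g.u f) (g.v f) →
  g.p σ R * g.q (σ ⊔ g.pe f) (R.erase f) ≤ g.p (σ ⊔ g.pe f) (R.erase f) * g.q σ R

/-! ## duality -/

/-- [DS] symmetry of the duality, Euler's formula.
PROOF. `du` at `A = univ`: `univ \ univ = ∅`, `nc (⊥ ⊔ h.ab) = |W| - 1` (`nc_sup_pr`, `nc_bot`, `cd`), `con`: `|W| - 1 + |V| = 1 + |E| + 1`. `du` for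
`h`, `A`: write `B = univ \ A`, `nc (h.sp ⊥ A ⊔ h.ab) + |V| = nc (g.sp ⊥ B) + |B| + 1` (`du` at `B`; `univ \ (univ \ A) = A`). If `h.sp ⊥ A c d`:
`¬ g.sp ⊥ B a b` (sep), so `nc (g.sp ⊥ B ⊔ ab) = nc (g.sp ⊥ B) - 1` and `nc (h.sp ⊥ A ⊔ cd) = nc (h.sp ⊥ A)`; otherwise
`nc (g.sp ⊥ B ⊔ ab) = nc (g.sp ⊥ B)` and `nc (h.sp ⊥ A ⊔ cd) = nc (h.sp ⊥ A) - 1`. In both cases, with Euler and `|A| + |B| = |E|`,
`nc (g.sp ⊥ B ⊔ ab) + |W| = nc (h.sp ⊥ A) + |A| + 1`. -/
def St_DS : Prop := ∀ {V W E : Type} [Fintype V] [Fintype W] [Fintype E] [DecidableEq E]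
  (g : Gr V E) (h : Gr W E), Du g h → Du h g ∧ Fintype.card V + Fintype.card W =
    Fintype.card E + 3

/-- [DN] the trees of the dual graph are the complements.
PROOF (from RT, DS). The bijection `A ↦ univ \ A`. `NF g univ {a}`: `|A| + 1 = |V|`, `nc (g.sp ⊥ A) = 1`; by `du`,
`nc (h.sp ⊥ Aᶜ ⊔ cd) = nc (g.sp ⊥ A) + |A| + 1 - |V|`, and `|Aᶜ| + 2 = |W|` by Euler. `rt {c, d} = cd`, `sp cd B = sp ⊥ B ⊔ cd`. With
`e ∉ A ↔ e ∈ Aᶜ`: `NF g (univ.erase e) {a}` counts the `A` without `e`, i.e. the `B` with `e`, and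
`NF h (univ.erase e) {c, d}` counts the `B` without `e`: the sum is `p`. The statements for `{a, b}` are the ones for `Du h g` (DS).
Finally `NF1 h univ {c, d}`: `|B| + 3 = |W|`, `nc (h.sp ⊥ B ⊔ cd) = 2` iff for `A = Bᶜ`: `|A| = |V|` and
`nc (g.sp ⊥ A) = 1`. -/
def St_DN : Prop := ∀ {V W E : Type} [Fintype V] [Fintype W] [Fintype E] [DecidableEq V]
  [DecidableEq W] [DecidableEq E] (g : Gr V E) (h : Gr W E), Du g h →
  h.NF Finset.univ {h.a, h.b} = g.NF Finset.univ {g.a} ∧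
  h.NF Finset.univ {h.a} = g.NF Finset.univ {g.a, g.b} ∧
  (∀ e, g.NF (Finset.univ.erase e) {g.a} + h.NF (Finset.univ.erase e) {h.a, h.b} =
    g.NF Finset.univ {g.a}) ∧
  (∀ e, g.NF (Finset.univ.erase e) {g.a, g.b} + h.NF (Finset.univ.erase e) {h.a} =
    g.NF Finset.univ {g.a, g.b})

/-- [DM] first moments of the pair in terms of rooted counts.
PROOF (from RT, DS, and M1 of StP). `K ⊥ univ = 1`. M1: `mo 1 be = #{A : a~b, nc = 2, |A| + 2 = |V|} - #{A : a~b, nc = 1, |A| = |V|}`. First set: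
`NF1 g univ {a} = #{A : nc = 2, |A| + 2 = |V|}` minus those with `a`, `b` separated, which are `q = NF g univ {a, b}` (see PQ). Second set:
`a ~ b` is automatic (one class); by duality it is `NF1 h univ {c, d}` (see DN). `mo 1 al = #{a≁b, nc = 3, |A| + 3 = |V|} -
#{a≁b, nc = 2, |A| + 1 = |V|}`: the first is `NF1 g univ {a, b}` (`nc (sp ⊥ A ⊔ ab) = 2`, `|A| + 3 = |V|` force `nc (sp ⊥ A) = 3`, because
`nc (sp ⊥ A) ≥ |V| - |A| = 3`). Second: `NF1 h univ {c} = #{B : |B| + 2 = |W|, nc (h.sp ⊥ B) = 2}`, by `Du h g` (`du` at `B`)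
`nc (g.sp ⊥ A ⊔ ab) + |W| = nc (h.sp ⊥ B) + |B| + 1`, so these are the `A` with `nc (g.sp ⊥ A ⊔ ab) = 1`, `|A| + 1 = |V|`: the ones with
`a ~ b` are the trees (`p`), the others are the second set. -/
def St_DM : Prop := ∀ {V W E : Type} [Fintype V] [Fintype W] [Fintype E] [DecidableEq V]
  [DecidableEq W] [DecidableEq E] (g : Gr V E) (h : Gr W E), Du g h →
  mo 1 (g.be ⊥ Finset.univ) = g.NF1 Finset.univ {g.a} - g.NF Finset.univ {g.a, g.b} -
    h.NF1 Finset.univ {h.a, h.b} ∧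
  mo 1 (g.al ⊥ Finset.univ) = g.NF1 Finset.univ {g.a, g.b} - h.NF1 Finset.univ {h.a} +
    g.NF Finset.univ {g.a}

/-- [DI] the pair of the dual graph.
PROOF (from DS). Bijection `A ↦ Aᶜ = B` in the state sums; `K = 1` on both sides (`con`, `con'`). For `A` with `a ≁ b`: `c ~ d` in `B`, so
`nc (h.sp ⊥ B) = nc (h.sp ⊥ B ⊔ cd) = nul_g A + 1` and `nul_h B = |B| + nc (h.sp ⊥ B) - |W| = nc (g.sp ⊥ A) - 2` (Euler). So
`h.be = ∑ uu ^ (nul_g A) * vv ^ (nc (g.sp ⊥ A) - 2) = invert (g.al)` because `invert uu = vv`, `invert vv = uu`. `h.al = invert g.be` follows from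
`Du h g` and `invert (invert P) = P`. Jets: `mo r (invert P) = (-1)^r mo r P`; unfold `jetOf`, `ring`. -/
def St_DI : Prop := ∀ {V W E : Type} [Fintype V] [Fintype W] [Fintype E] [DecidableEq E]
  (g : Gr V E) (h : Gr W E), Du g h →
  h.be ⊥ Finset.univ = invert (g.al ⊥ Finset.univ) ∧
  h.al ⊥ Finset.univ = invert (g.be ⊥ Finset.univ) ∧
  ∀ P Q : LaurentPolynomial ℤ, jetOf (invert Q) (invert P) = ⟨(jetOf P Q).q, (jetOf P Q).p,
    (jetOf P Q).w, (jetOf P Q).H, (jetOf P Q).F, (jetOf P Q).G⟩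

/-- [FN] the final theorem of the block: the pair of dual networks and the formula for `w~`.
PROOF (from RT, PQ, PP, KE, KR, KS, FL, SQ, BH, RL, K2, DS, DN, DM, M0, JE). `p = NF g univ {a}`, `q = NF g univ {a,b}`, both `> 0` (PP: `con`, and
`nc (sp (rt {a,b}) univ) ≤ nc (sp ⊥ univ) = 1`), `r = q/p`. Kernels `G` (`{a}`), `H` (`{a,b}`) of `g`, `G'` (`{c}`), `H'` (`{c,d}`) of `h` (KE).
`ph = G b`, `ph b = r` (RL), `ps = G' d`, `ps d = p/q` (RL for `h` and DN). `λ_e := (d ph e)²/r`. K2 and DN: `p (1 - rs G e) + p (1 - rs H' e) = p`,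
`q (1 - rs H e) + q (1 - rs G' e) = q`, so with RL: `λ_e = rs G e - rs H e = rs G' e - rs H' e = (d ps e)² q/p` and
`rs H e + rs H' e + λ_e = 1`. Put `x = r * ps` (`x d = 1`): `(d x e)² = (d ph e)²`. Flow identities by FL (`h` minus constants; total current 1 for
`ph`, `r` for `x`). Orientation: `N.s e = if ph (u e) ≤ ph (v e) then u e else v e`, `N.t e` = the other one, `N.a = g.a`, `N.b = g.b`; the same
for `N'` with `x`; then `N.d f e * N.d f' e = g.d f e * g.d f' e` and `N.d ph e = |g.d ph e| = |h.d x e| = N'.d x e`. `PD`: if `f` vanishes at `a`, `b` and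
`∑ (d f)² = 0` then all `d f e = 0` and `f x = ∑ d (H x) d f = 0` (rep). `N.Gr`: from `Ker univ {a,b} H`. `tri`: `N.gm H e = g.rs H e` (KS symmetry).
`ltR`: otherwise SQ gives `g.sp ⊥ {e} a b` (contradiction to `dist`). `lt1`: `N'.d x e ≥ 1` means `|h.d ps e| ≥ ps d`, so SQ for `h` gives
`h.sp ⊥ {e} c d`, i.e. by `sep` (of `Du g h` at `A = univ \ {e}`) `¬ g.sp ⊥ (univ \ {e}) a b` (contradiction to `cut`).
FORMULA: `w~ = (Om+1)/2 = p q/2 + p mo 1 al - q mo 1 be - (p² + q² - 1)/2` (JE, M0, PQ) `= [p NF1_ab - q NF1_a] + [q NF1_cd - p NF1_c] +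
(p² + q² + p q + 1)/2` (DM) and by BH for `g` and for `h` (where `NF {c} = q`, `NF {c,d} = p`) the brackets are
`-q² + p² ∑ (d ph)² (H_uu + H_vv + H_uv)` and `-p² + q² ∑ (d ps)² (H'_uu + H'_vv + H'_uv)`; `p² (d ph)² = p q λ = q² (d ps)²`,
`H_uu + H_vv = rs H e + 2 H_uv`, `tri`, `∑ λ = 1` (flow identity with `h = ph`: `∑ (d ph)² = r`). So
`w~ = (p q + 1 - p² - q²)/2 + p q (1 - ∑ λ² + 3 ∑ λ (H_uv + H'_uv)) = p q zh + 1/2`. -/
def St_FN : Prop := ∀ {V W E : Type} [Fintype V] [Fintype W] [Fintype E] [DecidableEq V]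
  [DecidableEq W] [DecidableEq E] (g : Gr V E) (h : Gr W E), Du g h →
  (∀ e, ¬ g.sp ⊥ {e} g.a g.b) → (∀ e, g.sp ⊥ (Finset.univ \ {e}) g.a g.b) →
  g.NF Finset.univ {g.a} ≤ g.NF Finset.univ {g.a, g.b} →
  ∃ (N : ALZ.Nt V E) (N' : ALZ.Nt W E) (ph : V → ℝ) (x : W → ℝ) (G : V → V → ℝ) (G' : W → W → ℝ),
    N.a = g.a ∧ N.b = g.b ∧ N'.a = h.a ∧ N'.b = h.b ∧
    (∀ e, (N.s e = g.u e ∧ N.t e = g.v e) ∨ (N.s e = g.v e ∧ N.t e = g.u e)) ∧
    (∀ e, (N'.s e = h.u e ∧ N'.t e = h.v e) ∨ (N'.s e = h.v e ∧ N'.t e = h.u e)) ∧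
    ALZ.Good V W E N N' ph x ((g.NF Finset.univ {g.a, g.b} : ℝ) / g.NF Finset.univ {g.a}) G G' ∧
    ((((jetOf (g.be ⊥ Finset.univ) (g.al ⊥ Finset.univ)).Om + 1) / 2 : ℚ) : ℝ) =
      (g.NF Finset.univ {g.a} : ℝ) * g.NF Finset.univ {g.a, g.b} *
      ALZ.zh N N' ph ((g.NF Finset.univ {g.a, g.b} : ℝ) / g.NF Finset.univ {g.a}) G G' + 1 / 2

end Pool.ALT
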