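import Pool.Agent.ALT.Tu.Defs

/-! # ALT, block Tu (activity pair): statements P. Complete proofs in the docstrings.

Conventions. `g : Gr V E`; `σ : Setoid V` = contracted part; `R` = remaining edges; `sp σ A` = `g.sp σ A`.
Facts in `Part.lean`: `sp_insert`, `sp_insert'`, `sp_insert_of`, `nc_sp_insert`, `nc_sup_pr`,
`sup_pr_iff`, `sup_pr_of`, `nc_le_add_card`, `nc_anti`, `sp_mono`, `sp_sup`. A module proves
`theorem thm_X : St_X` (or from the named earlier statements as hypotheses). -/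

set_option autoImplicit false

namespace Pool.ALT

open LaurentPolynomial

/-- [LP] an edge `f` with joined ends (loop) is a factor `1/s`.
PROOF. Split the sum over `A ⊆ R` into the `A` without `f` and the `insert f A`, `A ⊆ R.erase f`
(`Finset.sum_powerset_insert` for `R = insert f (R.erase f)`; write the filtered sums as sums of `if`).
`sp σ (insert f A) = sp σ A` (`sp_insert_of`, as `σ ≤ sp σ A`), so `K σ R = K σ (R.erase f)` and the
exponent of `uu` and the condition are the same; `nul σ (insert f A) = nul σ A + 1` (card + 1, and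
`nc σ ≤ A.card + nc (sp σ A)` by `nc_le_add_card`). So both parts give `(1 + vv)` times the sum for
`R.erase f`, and `1 + vv = T (-1)`. -/
def St_LP : Prop := ∀ {V E : Type} [Finite V] [DecidableEq E] (g : Gr V E) (σ : Setoid V)
  (R : Finset E) (f : E), f ∈ R → σ (g.u f) (g.v f) →
  g.be σ R = T (-1) * g.be σ (R.erase f) ∧ g.al σ R = T (-1) * g.al σ (R.erase f)

/-- [CL] an edge `f` which is a bridge of `g + e0` (coloop) is a factor `s`.
PROOF. Put `R' = R.erase f`, `σ' = σ ⊔ g.pe f`, `τ = sp σ R' ⊔ g.ab`; `¬ τ (u f) (v f)`. For `A ⊆ R'`: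
`sp σ A ≤ τ`, so `nc (sp σ' A) + 1 = nc (sp σ A)` (`sp_sup`, `nc_sup_pr`), and
`sp σ' A a b ↔ sp σ A a b` (`sup_pr_iff`: if `a`, `b` are joined in `sp σ A ⊔ pr u v` but not in
`sp σ A` then `u`, `v` are joined in `sp σ A ⊔ ab ≤ τ`). Also `K σ R = K σ' R'` (same partition),
`K σ R' = K σ R + 1` and `nc σ = nc σ' + 1`. Sum over `insert f A`: `sp σ (insert f A) = sp σ' A`,
`nul σ (insert f A) = A.card + 1 + nc (sp σ' A) - nc σ = nul σ' A`: gives `be σ' R'`. Sum over the `A`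
without `f`: exponent of `uu` is `nc (sp σ A) - K σ R = (nc (sp σ' A) - K σ' R') + 1` (natural numbers:
`nc (sp σ' A) ≥ K σ' R'` by `nc_anti`), `nul σ A = nul σ' A`: gives `uu * be σ' R'`. Sum:
`(uu + 1) be σ' R' = T 1 * be σ' R'`. For `al` the same: exponent `nc (sp σ A) - K σ R - 1`, where
`nc (sp σ' A) ≥ K σ' R' + 1` because `a`, `b` are not joined in `sp σ' A` (`nc_sup_pr` for `ab`, `nc_anti`). -/
def St_CL : Prop := ∀ {V E : Type} [Finite V] [DecidableEq E] (g : Gr V E) (σ : Setoid V)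
  (R : Finset E) (f : E), f ∈ R → ¬ (g.sp σ (R.erase f) ⊔ g.ab) (g.u f) (g.v f) →
  g.be σ R = T 1 * g.be (σ ⊔ g.pe f) (R.erase f) ∧ g.al σ R = T 1 * g.al (σ ⊔ g.pe f) (R.erase f)

/-- [GE] generic edge: deletion + contraction.
PROOF. As in [CL]; now `K σ R = K σ (R.erase f)`: `sp σ R ⊔ ab = (sp σ (R.erase f) ⊔ ab) ⊔ pe f` and
the ends are already joined (`sup_pr_of`). The `A` without `f` give `be σ (R.erase f)` literally; the
`insert f A` give `be (σ ⊔ pe f) (R.erase f)`: `sp σ (insert f A) = sp (σ ⊔ pe f) A` (`sp_insert'`),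
`nc (σ ⊔ pe f) + 1 = nc σ`, so `nul σ (insert f A) = nul (σ ⊔ pe f) A`, and `K (σ ⊔ pe f) (R.erase f) =
K σ R`. -/
def St_GE : Prop := ∀ {V E : Type} [Finite V] [DecidableEq E] (g : Gr V E) (σ : Setoid V)
  (R : Finset E) (f : E), f ∈ R → ¬ σ (g.u f) (g.v f) →
  (g.sp σ (R.erase f) ⊔ g.ab) (g.u f) (g.v f) →
  g.be σ R = g.be σ (R.erase f) + g.be (σ ⊔ g.pe f) (R.erase f) ∧
  g.al σ R = g.al σ (R.erase f) + g.al (σ ⊔ g.pe f) (R.erase f)

/-- [EM] no edges.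
PROOF. `powerset ∅ = {∅}`, `sp σ ∅ = σ`, `K σ ∅ = nc (σ ⊔ ab)` is `nc σ` if `σ a b` (`sup_pr_of`) and
`nc σ - 1` otherwise (`nc_sup_pr`); `nul = 0`. -/
def St_EM : Prop := ∀ {V E : Type} [Finite V] (g : Gr V E) (σ : Setoid V),
  (σ g.a g.b → g.be σ ∅ = 1 ∧ g.al σ ∅ = 0) ∧ (¬ σ g.a g.b → g.be σ ∅ = 0 ∧ g.al σ ∅ = 1)

/-- [NN] nonnegative coefficients.
PROOF (from LP, CL, GE, EM). Induction on `R.card` (for all `σ`): `R = ∅` is [EM]; otherwise take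
`f ∈ R` and use [LP], [CL] or [GE] (if `f` is not a loop and not a coloop); products with `T n` shift
the coefficients (`LaurentPolynomial.coeff_T_mul` or `mul_comm` and `coeff_mul_T`, or
`AddMonoidAlgebra.single_mul_apply`...), sums add them. -/
def St_NN : Prop := ∀ {V E : Type} [Finite V] [DecidableEq E] (g : Gr V E) (σ : Setoid V)
  (R : Finset E), NN (g.be σ R) ∧ NN (g.al σ R)

/-- [SB] support of `be`: if the marked vertices are not joined by fewer than `d` edges then all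
exponents `j` of `be` satisfy `j + d ≤ rk` and `rk - |R| ≤ j`.
PROOF (from LP, CL, GE, EM). Induction on `R.card` (for all `σ`, `d`). `R = ∅`: `be ≠ 0` only if `σ a b`,
then `d = 0` (apply the hypothesis to `A = ∅`, `sp_empty`) and `rk = 0`, `j = 0`. Take `f ∈ R`,
`R' = R.erase f`, `σ' = σ ⊔ pe f`.
Loop: `be σ R = T (-1) * be σ R'`, `rk σ R' = rk σ R`: `j + 1` is an exponent for `R'` with the same
`d`: `j + 1 + d ≤ rk`, `rk - (|R| - 1) ≤ j + 1`.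
Coloop: `j - 1` is an exponent for `(σ', R')`, `rk σ' R' = rk σ R - 1`, and the hypothesis holds for
`(σ', R')` with the same `d`: if `sp σ' A a b` with `A ⊆ R'` then `sp σ A a b` (see [CL]). So
`(j - 1) + d ≤ rk - 1` and `(rk - 1) - (|R| - 1) ≤ j - 1`.
Generic: `j` is an exponent for `(σ, R')` (same `rk`, same `d`) or for `(σ', R')` (`rk - 1`, and the
hypothesis with `d - 1`, because `sp σ' A = sp σ (insert f A)`); bounds `j + (d - 1) ≤ rk - 1`,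
`(rk - 1) - (|R| - 1) ≤ j`. `rk σ R ≥ 1` there because `f` is not a loop: `nc σ > nc σ' ≥ K`. -/
def St_SB : Prop := ∀ {V E : Type} [Finite V] [DecidableEq E] (g : Gr V E) (σ : Setoid V)
  (R : Finset E) (d : ℕ), (∀ A ⊆ R, A.card < d → ¬ g.sp σ A g.a g.b) → ∀ j : ℤ,
  (g.be σ R).coeff j ≠ 0 → j + d ≤ g.rk σ R ∧ (g.rk σ R : ℤ) - R.card ≤ j

/-- [SA] support of `al`: if fewer than `c` edges never separate the marked vertices then all
exponents `j` of `al` satisfy `j + 1 ≤ rk` and `rk - |R| - 1 + c ≤ j`.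
PROOF (from LP, CL, GE, EM). Induction on `R.card` (for all `σ`, `c`). `R = ∅`: `al ≠ 0` only if
`¬ σ a b`, then `c = 0`, `rk = 1`, `j = 0`. `f ∈ R`, `R' = R.erase f`, `σ' = σ ⊔ pe f`. Loop: `j + 1` is an
exponent for `(σ, R')`, same `rk`, same `c` (`sp σ (R \ A) = sp σ (R' \ A)` for `A ⊆ R'` by
`sp_insert_of`). Coloop: `j - 1` is an exponent for `(σ', R')`, `rk - 1`, same `c`
(`sp σ' (R' \ A) = sp σ (R \ A)`). Generic: `j` is an exponent for `(σ, R')` with `c - 1` (`R' \ A = R \ insert f A`), same `rk`: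
`rk - (|R| - 1) - 1 + (c - 1) ≤ j` (if `c = 0` use `c = 0`), or for `(σ', R')` with `rk - 1` and the same
`c`: `(rk - 1) - (|R| - 1) - 1 + c ≤ j`, `j + 1 ≤ rk - 1`. -/
def St_SA : Prop := ∀ {V E : Type} [Finite V] [DecidableEq E] (g : Gr V E) (σ : Setoid V)
  (R : Finset E) (c : ℕ), (∀ A ⊆ R, A.card < c → g.sp σ (R \ A) g.a g.b) → ∀ j : ℤ,
  (g.al σ R).coeff j ≠ 0 → j + 1 ≤ g.rk σ R ∧ (g.rk σ R : ℤ) - R.card - 1 + c ≤ j

open Classical in
/-- [AV] the averaging inequality (for (S0)): `∑_{f not a loop} be(M/f)_{≥ k} ≤ rk * be(M)_{≥ k}`.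
PROOF (from LP, CL, GE, EM, NN). Put `S k (σ, R) = rk σ R * tl (be σ R) k - ∑_{f ∈ R, f not a loop in σ}
tl (be (σ ⊔ pe f) (R.erase f)) k`. Induction on `R.card` (all `σ`, all `k`) for `0 ≤ S k (σ, R)`. `R = ∅`:
`S = rk * tl`, both `≥ 0` (NN). `h ∈ R`, `R' = R.erase h`, `σ' = σ ⊔ pe h`. `tl` is additive,
`tl (T 1 * P) k = tl P (k - 1)`, `tl (T (-1) * P) k = tl P (k + 1)`, `tl P k - tl P (k + 1) = P.coeff k`.
LOOP `h`: `be σ R = T (-1) * be σ R'` and for `f ≠ h` not a loop `be (σ ⊔ pe f) (R.erase f) =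
T (-1) * be (σ ⊔ pe f) (R'.erase f)`; `rk` is the same: `S k (σ, R) = S (k + 1) (σ, R')`.
COLOOP `h` (of `(σ, R)`): `be σ R = T 1 * be σ' R'`; the term `f = h` is `tl (be σ' R') k`; an `f ≠ h` is a
loop of `σ` iff it is a loop of `σ'` (otherwise the ends of `h` are joined in `σ ⊔ pe f ≤ sp σ R'`), `h` is a
coloop of `(σ ⊔ pe f, R.erase f)`, so `be (σ ⊔ pe f) (R.erase f) = T 1 * be (σ' ⊔ pe f) (R'.erase f)`;
`rk σ R = rk σ' R' + 1`: `S k (σ, R) = S (k - 1) (σ', R') + (tl (be σ' R') (k - 1) - tl (be σ' R') k)`, the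
bracket is the coefficient of degree `k - 1`, `≥ 0`.
GENERIC `h`: `be σ R = be σ R' + be σ' R'`, `rk σ R = rk σ R' = rk σ' R' + 1`; the term `f = h` is
`tl (be σ' R') k`; an `f ≠ h` which is not a loop of `σ`: if it is not a loop of `σ'` (not parallel to `h`) then
`h` is generic in `(σ ⊔ pe f, R.erase f)` [not a loop there: `(σ ⊔ pe f) (u h) (v h)` would give
`σ' (u f) (v f)` by `sup_pr_iff`; `sp (σ ⊔ pe f) (R'.erase f) = sp σ R'` for `f ∈ R'`], so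
`be (σ ⊔ pe f) (R.erase f) = be (σ ⊔ pe f) (R'.erase f) + be (σ' ⊔ pe f) (R'.erase f)`;
if it is parallel (loop of `σ'`), then `h` is a loop of `σ ⊔ pe f` and `be (σ ⊔ pe f) (R.erase f) =
T (-1) * be (σ ⊔ pe f) (R'.erase f)`. Hence `S k (σ, R) = S k (σ, R') + S k (σ', R') +
∑_{f parallel} (tl P_f k - tl P_f (k + 1))`, `P_f = be (σ ⊔ pe f) (R'.erase f)`, and the last sum is a sum
of coefficients, `≥ 0`. -/
def St_AV : Prop := ∀ {V E : Type} [Finite V] [DecidableEq E] (g : Gr V E) (σ : Setoid V)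
  (R : Finset E) (k : ℤ), ∑ f ∈ R with ¬ σ (g.u f) (g.v f), tl (g.be (σ ⊔ g.pe f) (R.erase f)) k ≤
    g.rk σ R * tl (g.be σ R) k

open Classical in
/-- [AT] the total version: `∑_{f not a loop} p(M/f) = rk * p(M)`.
PROOF. Count the pairs `(A, f)`, `f ∈ A`, `A` a spanning tree of the minor without `e0` (`A` in the set of
`g.p σ R`; `A.card = nc σ - K σ R = rk`). `A ↦ A.erase f` is a bijection from the `A ∋ f` onto the trees of
`(σ ⊔ pe f, R.erase f)`: `sp σ A = sp (σ ⊔ pe f) (A.erase f)` (`sp_insert'`), `nc (σ ⊔ pe f) + 1 = nc σ` if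
`f` is not a loop, `K σ R = K (σ ⊔ pe f) (R.erase f)`; a tree `A` contains no loop (otherwise
`nc σ ≤ nc (sp σ (A.erase f)) + |A| - 1 = nc (sp σ A) + |A| - 1`). -/
def St_AT : Prop := ∀ {V E : Type} [Finite V] [DecidableEq E] (g : Gr V E) (σ : Setoid V)
  (R : Finset E), ∑ f ∈ R with ¬ σ (g.u f) (g.v f), g.p (σ ⊔ g.pe f) (R.erase f) =
    g.rk σ R * g.p σ R

/-- [MO] the moments are computed like derivatives.
PROOF. `mo r P = P.coeff.sum (fun j c => j ^ r * c)` is additive (`Finsupp.sum_add_index'`), so one may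
take `P = C a * T m`, `Q = C b * T n` (`LaurentPolynomial.induction_on'` twice), where `P * Q = C (a b) *
T (m + n)` and `mo r (C a * T m) = m ^ r * a`. -/
def St_MO : Prop := (∀ r (P Q : LaurentPolynomial ℤ), mo r (P + Q) = mo r P + mo r Q) ∧
  (∀ r (c : ℤ) (n : ℤ), mo r (C c * T n) = n ^ r * c) ∧
  (∀ P Q : LaurentPolynomial ℤ, mo 0 (P * Q) = mo 0 P * mo 0 Q ∧
    mo 1 (P * Q) = mo 1 P * mo 0 Q + mo 0 P * mo 1 Q ∧
    mo 2 (P * Q) = mo 2 P * mo 0 Q + 2 * (mo 1 P * mo 1 Q) + mo 0 P * mo 2 Q)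

/-- [M0] the total masses are the numbers of trees.
PROOF (from MO). `mo 0` is a ring homomorphism with `mo 0 uu = 0`, `mo 0 vv = 0`, so a term
`uu ^ i * vv ^ j` counts 1 if `i = j = 0` and 0 otherwise. `be`: `A` with `sp σ A a b`, `nc (sp σ A) ≤ K σ R` and
`A.card + nc (sp σ A) ≤ nc σ`; as `nc (sp σ A) ≥ K σ R` (`nc_anti`, `sp σ A ≤ sp σ R ⊔ ab`) and `nc_le_add_card`
these are equalities; conversely `nc (sp σ A) = K σ R` gives `sp σ A = sp σ R ⊔ ab` (`eq_of_le_of_nc`), so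
`a`, `b` are joined. `al`: `A` with `¬ sp σ A a b` has `nc (sp σ A) ≥ K σ R + 1` (`nc_sup_pr` for `ab`). -/
def St_M0 : Prop := ∀ {V E : Type} [Finite V] [DecidableEq E] (g : Gr V E) (σ : Setoid V)
  (R : Finset E), mo 0 (g.be σ R) = g.p σ R ∧ mo 0 (g.al σ R) = g.q σ R

open Classical in
/-- [M1] the first moments.
PROOF (from MO). `mo 1 (uu ^ i * vv ^ j)` is `1` for `(i, j) = (1, 0)`, `-1` for `(0, 1)` and `0` otherwise
(`mo 0 uu = mo 0 vv = 0`, `mo 1 uu = 1`, `mo 1 vv = -1`; induction on `i`, `j` or: `mo 1` of a product of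
two elements with `mo 0 = 0` is `0`). Sum over `A`; the conditions `i = 1, j = 0` etc. are rewritten with
`K σ R ≤ nc (sp σ A)` (and `K σ R + 1 ≤ nc (sp σ A)` if `a`, `b` are separated) and `nc_le_add_card`. -/
def St_M1 : Prop := ∀ {V E : Type} [Finite V] [DecidableEq E] (g : Gr V E) (σ : Setoid V)
  (R : Finset E),
  mo 1 (g.be σ R) =
    ((R.powerset.filter fun A => g.sp σ A g.a g.b ∧ nc (g.sp σ A) = g.K σ R + 1 ∧
      A.card + nc (g.sp σ A) = nc σ).card : ℤ) -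
    ((R.powerset.filter fun A => g.sp σ A g.a g.b ∧ nc (g.sp σ A) = g.K σ R ∧
      A.card + nc (g.sp σ A) = nc σ + 1).card : ℤ) ∧
  mo 1 (g.al σ R) =
    ((R.powerset.filter fun A => ¬ g.sp σ A g.a g.b ∧ nc (g.sp σ A) = g.K σ R + 2 ∧
      A.card + nc (g.sp σ A) = nc σ).card : ℤ) -
    ((R.powerset.filter fun A => ¬ g.sp σ A g.a g.b ∧ nc (g.sp σ A) = g.K σ R + 1 ∧
      A.card + nc (g.sp σ A) = nc σ + 1).card : ℤ)

/-- [PO] Popoviciu: variance of a nonnegative measure with support in an interval of length `L`.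
PROOF. `0 ≤ m0 m2 - m1²` is Cauchy-Schwarz. For the upper bound `∑ c_j (j - lo) (lo + L - j) ≥ 0` gives
`m2 ≤ (2 lo + L) m1 - lo (lo + L) m0`, so `4 (m0 m2 - m1²) ≤ 4 m0 (2 lo + L) m1 - 4 lo (lo + L) m0² - 4 m1²
= m0² L² - (2 m1 - (2 lo + L) m0)² ≤ m0² L²`. (Work with the finite sums over `P.coeff.support`.) -/
def St_PO : Prop := ∀ (P : LaurentPolynomial ℤ) (lo L : ℤ), NN P →
  (∀ j, P.coeff j ≠ 0 → lo ≤ j ∧ j ≤ lo + L) →
  0 ≤ mo 0 P * mo 2 P - mo 1 P ^ 2 ∧ 4 * (mo 0 P * mo 2 P - mo 1 P ^ 2) ≤ mo 0 P ^ 2 * L ^ 2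

/-- [CU] difference of the variances from the tail inequality.
PROOF. `p = mo 0 P`, `q = mo 0 Q`. If `p = 0` then `P = 0` (NN) and all is `0`; same `q = 0`. Put
`δ k = p * tl Q k - q * tl P k ≥ 0`; `δ k = 0` for `k ≤ lo` (both tails are the total masses) and for
`k > lo + L + 1` (both tails are `0`). Abel summation: for a measure `X` with support in `[lo, lo + L + 1]`:
`m1 - lo m0 = ∑_{k = lo + 1}^{lo + L + 1} tl X k` and `m2 - lo² m0 = ∑_{k = lo+1}^{lo+L+1} (2k - 1) tl X k`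
(`j - lo = #{k : lo < k ≤ j}`, `j² - lo² = ∑_{lo < k ≤ j} (2k - 1)`). So `D := p mo 1 Q - q mo 1 P = ∑ δ k` and
`p mo 2 Q - q mo 2 P = ∑ (2k - 1) δ k`. Then
`p² (q mo 2 Q - mo 1 Q²) - q² (p mo 2 P - mo 1 P²) = p q (p mo 2 Q - q mo 2 P) - (p mo 1 Q - q mo 1 P) (p mo 1 Q + q mo 1 P)
= ∑ δ k (p q (2k - 1) - p mo 1 Q - q mo 1 P)`. The support of `P` is in `[lo, lo + L]`, the one of `Q` in
`[lo + 1, lo + L + 1]`, so `p mo 1 Q + q mo 1 P` is in `[p q (2 lo + 1), p q (2 lo + 2 L + 1)]`, and `p q (2k - 1)` too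
for `lo + 1 ≤ k ≤ lo + L + 1`; so each bracket is at most `2 L p q` in absolute value. -/
def St_CU : Prop := ∀ (P Q : LaurentPolynomial ℤ) (lo L : ℤ), 0 ≤ L → NN P → NN Q →
  (∀ j, P.coeff j ≠ 0 → lo ≤ j ∧ j ≤ lo + L) → (∀ j, Q.coeff j ≠ 0 → lo + 1 ≤ j ∧ j ≤ lo + L + 1) →
  (∀ k, mo 0 Q * tl P k ≤ mo 0 P * tl Q k) →
  |mo 0 P ^ 2 * (mo 0 Q * mo 2 Q - mo 1 Q ^ 2) - mo 0 Q ^ 2 * (mo 0 P * mo 2 P - mo 1 P ^ 2)| ≤
    2 * L * (mo 0 P * mo 0 Q) * (mo 0 P * mo 1 Q - mo 0 Q * mo 1 P)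

/-- [JE] the fields of the jet (algebra).
PROOF. Unfold `jetOf`, `Jet.Om`, `Jet.Q`; `field_simp`/`ring` in `ℚ` with casts. -/
def St_JE : Prop := ∀ P Q : LaurentPolynomial ℤ,
  (jetOf P Q).p = mo 0 P ∧ (jetOf P Q).q = mo 0 Q ∧
  (jetOf P Q).w = (mo 0 P : ℚ) * mo 0 Q / 2 + ((mo 0 P : ℚ) * mo 1 Q - (mo 0 Q : ℚ) * mo 1 P) ∧
  (jetOf P Q).G = -((mo 0 P : ℚ) * mo 2 P - (mo 1 P : ℚ) ^ 2) ∧
  (jetOf P Q).H = -((mo 0 Q : ℚ) * mo 2 Q - (mo 1 Q : ℚ) ^ 2) ∧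
  (jetOf P Q).Q (jetOf P Q).q (-(jetOf P Q).p) = (jetOf P Q).w ^ 2 ∧
  ((jetOf P Q).Om + 1) / 2 = (jetOf P Q).w - ((mo 0 P : ℚ) ^ 2 + (mo 0 Q : ℚ) ^ 2 - 1) / 2 ∧
  (IsCoprime (mo 0 P) (mo 0 Q) → ∃ k : ℤ, ((jetOf P Q).Om + 1) / 2 = k)

/-- [JL] fields `vG`, `vH`, `s0`, `int`, `quad` of `Pool.Agent.ALT.LeafLe` for a connected graph with
`n` edges in which `a`, `b` are at distance `≥ 2` and not separated by fewer than 2 edges, given the
tail inequality (S0).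
PROOF (from NN, SB, SA, M0, PO, CU, JE). `σ = ⊥`, `R = univ`, `K = 1`, `rk = |V| - 1`, `n = |E|`. [SB] with
`d = 2`: exponents of `be` in `[rk - n, rk - 2]`; [SA] with `c = 2`: exponents of `al` in `[rk - n + 1, rk - 1]`.
So [PO] with `L = n - 2` and [CU] with `lo = rk - n`, `L = n - 2` (`n ≥ 2` because `A = ∅` and ... `al ≠ 0`;
if `n < 2` then `al = 0`, impossible by `q > 0`). Then [JE] and casts: `2 * p * q * (w - p q / 2) * (n - 2)
= 2 L p q (p mo 1 al - q mo 1 be)`. -/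
def St_JL : Prop := ∀ {V E : Type} [Fintype V] [Fintype E] [DecidableEq E] (g : Gr V E),
  nc (g.sp ⊥ Finset.univ) = 1 → 2 ≤ Fintype.card E →
  (∀ A : Finset E, A.card < 2 → ¬ g.sp ⊥ A g.a g.b) →
  (∀ A : Finset E, A.card < 2 → g.sp ⊥ (Finset.univ \ A) g.a g.b) →
  (∀ k, (g.q ⊥ Finset.univ : ℤ) * tl (g.be ⊥ Finset.univ) k ≤
    (g.p ⊥ Finset.univ : ℤ) * tl (g.al ⊥ Finset.univ) k) →
  Nat.Coprime (g.p ⊥ Finset.univ) (g.q ⊥ Finset.univ) →
  let J := jetOf (g.be ⊥ Finset.univ) (g.al ⊥ Finset.univ)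
  let p := g.p ⊥ Finset.univ
  let q := g.q ⊥ Finset.univ
  let n := Fintype.card E
  J.p = p ∧ J.q = q ∧ J.Q J.q (-J.p) = J.w ^ 2 ∧ (∃ k : ℤ, (J.Om + 1) / 2 = k) ∧
  -J.G * 4 ≤ (p : ℚ) ^ 2 * ((n : ℚ) - 2) ^ 2 ∧ -J.H * 4 ≤ (q : ℚ) ^ 2 * ((n : ℚ) - 2) ^ 2 ∧
  |(q : ℚ) ^ 2 * J.G - (p : ℚ) ^ 2 * J.H| ≤
    2 * (p : ℚ) * (q : ℚ) * (J.w - (p : ℚ) * q / 2) * ((n : ℚ) - 2)

end Pool.ALT
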