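import Pool.Agent.ALT.Tu.StP

/-! # ALT, block Tu: the sum of the numbers of trees of the contractions -/

set_option autoImplicit false

namespace Pool.ALT

variable {V E : Type}

open Classical in
/-- the spanning trees of the minor without `e0` -/
noncomputable def AT_tr (g : Gr V E) (σ : Setoid V) (R : Finset E) : Finset (Finset E) :=
  R.powerset.filter fun A => nc (g.sp σ A) = g.K σ R ∧ A.card + nc (g.sp σ A) = nc σ

theorem AT_mem (g : Gr V E) (σ : Setoid V) (R A : Finset E) :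
    A ∈ AT_tr g σ R ↔ A ⊆ R ∧ nc (g.sp σ A) = g.K σ R ∧ A.card + nc (g.sp σ A) = nc σ := by
  unfold AT_tr
  rw [Finset.mem_filter, Finset.mem_powerset]

theorem AT_p (g : Gr V E) (σ : Setoid V) (R : Finset E) : g.p σ R = (AT_tr g σ R).card := rfl

theorem AT_K [DecidableEq E] (g : Gr V E) (σ : Setoid V) (R : Finset E) {f : E} (hf : f ∈ R) :
    g.K (σ ⊔ g.pe f) (R.erase f) = g.K σ R := by
  unfold Gr.K
  rw [← Gr.sp_insert', Finset.insert_erase hf]

theorem AT_loop [Finite V] [DecidableEq E] (g : Gr V E) (σ : Setoid V) (R A : Finset E) {f : E}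
    (hf : f ∈ A) (hl : σ (g.u f) (g.v f)) : A ∉ AT_tr g σ R := by
  intro hA
  rw [AT_mem] at hA
  obtain ⟨_, _, h3⟩ := hA
  have h4 : g.sp σ A = g.sp σ (A.erase f) := by
    have h5 : g.sp σ (insert f (A.erase f)) = g.sp σ (A.erase f) :=
      Gr.sp_insert_of g ((g.le_sp σ (A.erase f)) hl)
    rwa [Finset.insert_erase hf] at h5
  have h6 := g.nc_le_add_card σ (A.erase f)
  have h7 := Finset.card_erase_add_one hf
  rw [h4] at h3
  omega

theorem AT_bij [Finite V] [DecidableEq E] (g : Gr V E) (σ : Setoid V) (R : Finset E) {f : E}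
    (hf : f ∈ R) (hl : ¬ σ (g.u f) (g.v f)) :
    (AT_tr g (σ ⊔ g.pe f) (R.erase f)).card = ((AT_tr g σ R).filter (fun A => f ∈ A)).card := by
  have hnc : nc (σ ⊔ g.pe f) + 1 = nc σ := nc_sup_pr hl
  have hK := AT_K g σ R hf
  apply Finset.card_nbij' (fun B => insert f B) (fun A => A.erase f)
  · intro B hB
    have hB' := (AT_mem g (σ ⊔ g.pe f) (R.erase f) B).1 (Finset.mem_coe.1 hB)
    obtain ⟨h1, h2, h3⟩ := hB'
    have hfB : f ∉ B := fun h => (Finset.mem_erase.1 (h1 h)).1 rfl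
    apply Finset.mem_coe.2
    rw [Finset.mem_filter, AT_mem, Gr.sp_insert']
    refine ⟨⟨?_, ?_, ?_⟩, Finset.mem_insert_self _ _⟩
    · intro x hx
      rcases Finset.mem_insert.1 hx with rfl | hx
      · exact hf
      · exact (Finset.mem_erase.1 (h1 hx)).2
    · rw [h2, hK]
    · rw [Finset.card_insert_of_notMem hfB]
      omega
  · intro A hA
    have hA' := Finset.mem_filter.1 (Finset.mem_coe.1 hA)
    obtain ⟨hA1, hfA⟩ := hA'
    rw [AT_mem] at hA1
    obtain ⟨h1, h2, h3⟩ := hA1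
    have hsp : g.sp (σ ⊔ g.pe f) (A.erase f) = g.sp σ A := by
      rw [← Gr.sp_insert', Finset.insert_erase hfA]
    have h7 := Finset.card_erase_add_one hfA
    apply Finset.mem_coe.2
    change A.erase f ∈ _
    rw [AT_mem, hsp]
    refine ⟨Finset.erase_subset_erase f h1, ?_, ?_⟩
    · rw [h2, hK]
    · omega
  · intro B hB
    have hB' := (AT_mem g (σ ⊔ g.pe f) (R.erase f) B).1 (Finset.mem_coe.1 hB)
    have hfB : f ∉ B := fun h => (Finset.mem_erase.1 (hB'.1 h)).1 rfl
    exact Finset.erase_insert hfB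
  · intro A hA
    have hA' := Finset.mem_filter.1 (Finset.mem_coe.1 hA)
    exact Finset.insert_erase hA'.2

theorem thm_AT : St_AT := by
  intro V E _ _ g σ R
  classical
  have h1 : ∀ A ∈ AT_tr g σ R, A.card = g.rk σ R := by
    intro A hA
    rw [AT_mem] at hA
    obtain ⟨_, h2, h3⟩ := hA
    unfold Gr.rk
    omega
  have h2 : g.rk σ R * g.p σ R = ∑ A ∈ AT_tr g σ R, A.card := by
    rw [Finset.sum_congr rfl h1, Finset.sum_const, smul_eq_mul, mul_comm, AT_p]
  have h3 : ∀ A ∈ AT_tr g σ R, A.card = ∑ f ∈ R, if f ∈ A then 1 else 0 := by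
    intro A hA
    rw [AT_mem] at hA
    rw [← Finset.sum_filter, Finset.sum_const, smul_eq_mul, mul_one]
    congr 1
    ext x
    rw [Finset.mem_filter]
    exact ⟨fun hx => ⟨hA.1 hx, hx⟩, fun hx => hx.2⟩
  have h4 : ∑ A ∈ AT_tr g σ R, A.card =
      ∑ f ∈ R, ((AT_tr g σ R).filter (fun A => f ∈ A)).card := by
    rw [Finset.sum_congr rfl h3, Finset.sum_comm]
    apply Finset.sum_congr rfl
    intro f _
    rw [← Finset.sum_filter, Finset.sum_const, smul_eq_mul, mul_one]
  rw [h2, h4, Finset.sum_filter]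
  apply Finset.sum_congr rfl
  intro f hf
  by_cases hl : σ (g.u f) (g.v f)
  · rw [if_neg (not_not.2 hl)]
    symm
    rw [Finset.card_eq_zero, Finset.filter_eq_empty_iff]
    intro A hA hfA
    exact AT_loop g σ R A hfA hl hA
  · rw [if_pos hl, AT_p, AT_bij g σ R hf hl]

end Pool.ALT
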