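import Pool.Agent.ALT.Tu.StP

/-! # ALT, block Tu: the averaging inequality [AV] -/

set_option autoImplicit false

namespace Pool.ALT

open LaurentPolynomial

theorem AV_tl_eq (P : LaurentPolynomial ℤ) (k : ℤ) :
    tl P k = P.coeff.sum (fun j c => if k ≤ j then c else 0) := by
  unfold tl
  rw [Finset.sum_filter]
  rfl

theorem AV_tl_add (P Q : LaurentPolynomial ℤ) (k : ℤ) : tl (P + Q) k = tl P k + tl Q k := by
  rw [AV_tl_eq, AV_tl_eq, AV_tl_eq, AddMonoidAlgebra.coeff_add]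
  apply Finsupp.sum_add_index'
  · intro j
    simp
  · intro j b c
    split_ifs
    · rfl
    · simp

theorem AV_tl_CT (c n k : ℤ) :
    tl (C c * T n : LaurentPolynomial ℤ) k = if k ≤ n then c else 0 := by
  rw [AV_tl_eq, ← single_eq_C_mul_T, AddMonoidAlgebra.coeff_single, Finsupp.sum_single_index]
  simp

theorem AV_T_mul_CT (n c m : ℤ) :
    (T n * (C c * T m) : LaurentPolynomial ℤ) = C c * T (m + n) := by
  rw [T_add, mul_left_comm, mul_comm (T n) (T m)]

/-- multiplication by `T n` shifts the tails -/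
theorem AV_tl_T_mul (n : ℤ) (P : LaurentPolynomial ℤ) (k : ℤ) : tl (T n * P) k = tl P (k - n) := by
  induction P using LaurentPolynomial.induction_on' with
  | add p q hp hq => rw [mul_add, AV_tl_add, AV_tl_add, hp, hq]
  | C_mul_T m c =>
    rw [AV_T_mul_CT, AV_tl_CT, AV_tl_CT]
    by_cases h : k ≤ m + n
    · rw [if_pos h, if_pos (by omega)]
    · rw [if_neg h, if_neg (by omega)]

/-- the difference of two consecutive tails is a coefficient -/
theorem AV_tl_sub (P : LaurentPolynomial ℤ) (k : ℤ) : tl P k = tl P (k + 1) + P.coeff k := by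
  induction P using LaurentPolynomial.induction_on' with
  | add p q hp hq =>
    rw [AV_tl_add, AV_tl_add, hp, hq, AddMonoidAlgebra.coeff_add, Finsupp.add_apply]
    ring
  | C_mul_T m c =>
    rw [AV_tl_CT, AV_tl_CT, ← single_eq_C_mul_T, AddMonoidAlgebra.coeff_single,
      Finsupp.single_apply]
    split_ifs <;> omega

theorem AV_tl_le {P : LaurentPolynomial ℤ} (h : NN P) (k : ℤ) : tl P (k + 1) ≤ tl P k := by
  have h1 := AV_tl_sub P k
  have h2 := h k
  omega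

theorem AV_tl_nn {P : LaurentPolynomial ℤ} (h : NN P) (k : ℤ) : 0 ≤ tl P k := by
  unfold tl
  exact Finset.sum_nonneg fun j _ => h j

open Classical in
/-- the sum over the edges which are no loops -/
noncomputable def AV_s {V E : Type} [DecidableEq E] (g : Gr V E) (σ : Setoid V) (R : Finset E)
    (k : ℤ) : ℤ :=
  ∑ f ∈ R, if σ (g.u f) (g.v f) then 0 else tl (g.be (σ ⊔ g.pe f) (R.erase f)) k

open Classical in
theorem AV_s_eq {V E : Type} [DecidableEq E] (g : Gr V E) (σ : Setoid V) (R : Finset E) (k : ℤ) :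
    ∑ f ∈ R with ¬ σ (g.u f) (g.v f), tl (g.be (σ ⊔ g.pe f) (R.erase f)) k = AV_s g σ R k := by
  unfold AV_s
  rw [Finset.sum_filter]
  apply Finset.sum_congr rfl
  intro f _
  by_cases h : σ (g.u f) (g.v f)
  · rw [if_pos h, if_neg (not_not.2 h)]
  · rw [if_neg h, if_pos h]

theorem AV_sup_comm {V E : Type} (g : Gr V E) (σ : Setoid V) (f h : E) :
    σ ⊔ g.pe f ⊔ g.pe h = σ ⊔ g.pe h ⊔ g.pe f := by
  rw [sup_assoc, sup_assoc, sup_comm (g.pe f)]

/-- partition of the minor after contraction of `f` -/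
theorem AV_sp {V E : Type} [DecidableEq E] (g : Gr V E) (σ : Setoid V) {R : Finset E} {f h : E}
    (hf : f ∈ R) (hfh : f ≠ h) :
    g.sp (σ ⊔ g.pe f) ((R.erase f).erase h) = g.sp σ (R.erase h) := by
  rw [Finset.erase_right_comm, ← Gr.sp_insert', Finset.insert_erase]
  exact Finset.mem_erase.2 ⟨hfh, hf⟩

theorem AV_K_contract {V E : Type} [DecidableEq E] (g : Gr V E) (σ : Setoid V) {R : Finset E}
    {h : E} (hh : h ∈ R) : g.K (σ ⊔ g.pe h) (R.erase h) = g.K σ R := by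
  unfold Gr.K
  rw [← Gr.sp_insert', Finset.insert_erase hh]

theorem AV_K_delete {V E : Type} [DecidableEq E] (g : Gr V E) (σ : Setoid V) {R : Finset E}
    {h : E} (hh : h ∈ R) (h1 : (g.sp σ (R.erase h) ⊔ g.ab) (g.u h) (g.v h)) :
    g.K σ (R.erase h) = g.K σ R := by
  unfold Gr.K
  have h2 : g.sp σ R = g.sp σ (R.erase h) ⊔ g.pe h := by
    rw [← Gr.sp_insert, Finset.insert_erase hh]
  rw [h2, sup_right_comm]
  unfold Gr.pe
  rw [sup_pr_of _ h1]

theorem AV_nc {V E : Type} [Finite V] (g : Gr V E) {σ : Setoid V} {h : E}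
    (hn : ¬ σ (g.u h) (g.v h)) : nc (σ ⊔ g.pe h) + 1 = nc σ := nc_sup_pr hn

theorem AV_rk_contract {V E : Type} [Finite V] [DecidableEq E] (g : Gr V E) (σ : Setoid V)
    {R : Finset E} {h : E} (hh : h ∈ R) (hn : ¬ σ (g.u h) (g.v h)) :
    g.rk σ R = g.rk (σ ⊔ g.pe h) (R.erase h) + 1 := by
  unfold Gr.rk
  rw [AV_K_contract g σ hh]
  have h1 := AV_nc g hn
  have h2 : g.K σ R ≤ nc (σ ⊔ g.pe h) := by
    rw [← AV_K_contract g σ hh]
    unfold Gr.K
    exact nc_anti ((Gr.le_sp g _ _).trans le_sup_left)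
  omega

/-- relations in the contraction -/
theorem AV_par {V E : Type} (g : Gr V E) {σ : Setoid V} {f h : E}
    (h1 : (σ ⊔ g.pe h) (g.u f) (g.v f)) :
    σ (g.u f) (g.v f) ∨ (σ ⊔ g.pe f) (g.u h) (g.v h) := by
  unfold Gr.pe at h1 ⊢
  rw [sup_pr_iff] at h1
  rcases h1 with h1 | ⟨h1, h2⟩ | ⟨h1, h2⟩
  · exact Or.inl h1
  · right
    rw [sup_pr_iff]
    exact Or.inr (Or.inl ⟨σ.symm' h1, σ.symm' h2⟩)
  · right
    rw [sup_pr_iff]
    exact Or.inr (Or.inr ⟨h2, h1⟩)

theorem AV_sup_left {V E : Type} (g : Gr V E) {σ : Setoid V} {f : E} {x y : V} (h : σ x y) :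
    (σ ⊔ g.pe f) x y := (le_sup_left : σ ≤ σ ⊔ g.pe f) h

theorem AV_sup_ab {V E : Type} (g : Gr V E) {σ : Setoid V} {x y : V} (h : σ x y) :
    (σ ⊔ g.ab) x y := (le_sup_left : σ ≤ σ ⊔ g.ab) h

section
variable {V E : Type} [Finite V] [DecidableEq E] (g : Gr V E)

theorem AV_loop (hLP : St_LP) (σ : Setoid V) (R : Finset E) (h : E) (hh : h ∈ R)
    (hl : σ (g.u h) (g.v h)) (k : ℤ)
    (ih : AV_s g σ (R.erase h) (k + 1) ≤ g.rk σ (R.erase h) * tl (g.be σ (R.erase h)) (k + 1)) :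
    AV_s g σ R k ≤ g.rk σ R * tl (g.be σ R) k := by
  have h1 : g.rk σ R = g.rk σ (R.erase h) := by
    unfold Gr.rk
    rw [AV_K_delete g σ hh (AV_sup_ab g (Gr.le_sp g σ _ hl))]
  have h2 : tl (g.be σ R) k = tl (g.be σ (R.erase h)) (k + 1) := by
    rw [(hLP g σ R h hh hl).1, AV_tl_T_mul, sub_neg_eq_add]
  have h3 : AV_s g σ R k = AV_s g σ (R.erase h) (k + 1) := by
    unfold AV_s
    rw [← Finset.add_sum_erase _ _ hh, if_pos hl, zero_add]
    apply Finset.sum_congr rfl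
    intro f hf
    rw [Finset.mem_erase] at hf
    by_cases h4 : σ (g.u f) (g.v f)
    · rw [if_pos h4, if_pos h4]
    · rw [if_neg h4, if_neg h4, (hLP g (σ ⊔ g.pe f) (R.erase f) h
        (Finset.mem_erase.2 ⟨Ne.symm hf.1, hh⟩) (AV_sup_left g hl)).1, AV_tl_T_mul, sub_neg_eq_add,
        Finset.erase_right_comm]
  rw [h1, h2, h3]
  exact ih

theorem AV_coloop (hCL : St_CL) (hNN : St_NN) (σ : Setoid V) (R : Finset E) (h : E) (hh : h ∈ R)
    (hc : ¬ (g.sp σ (R.erase h) ⊔ g.ab) (g.u h) (g.v h)) (k : ℤ)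
    (ih : AV_s g (σ ⊔ g.pe h) (R.erase h) (k - 1) ≤
      g.rk (σ ⊔ g.pe h) (R.erase h) * tl (g.be (σ ⊔ g.pe h) (R.erase h)) (k - 1)) :
    AV_s g σ R k ≤ g.rk σ R * tl (g.be σ R) k := by
  have hn : ¬ g.sp σ (R.erase h) (g.u h) (g.v h) := fun h1 => hc (AV_sup_ab g h1)
  have hl : ¬ σ (g.u h) (g.v h) := fun h1 => hn (Gr.le_sp g σ _ h1)
  have h1 := AV_rk_contract g σ hh hl
  have h2 : tl (g.be σ R) k = tl (g.be (σ ⊔ g.pe h) (R.erase h)) (k - 1) := by
    rw [(hCL g σ R h hh hc).1, AV_tl_T_mul]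
  have h3 : AV_s g σ R k =
      tl (g.be (σ ⊔ g.pe h) (R.erase h)) k + AV_s g (σ ⊔ g.pe h) (R.erase h) (k - 1) := by
    unfold AV_s
    rw [← Finset.add_sum_erase _ _ hh, if_neg hl]
    apply congrArg
    apply Finset.sum_congr rfl
    intro f hf
    have hf' := hf
    rw [Finset.mem_erase] at hf
    by_cases h4 : σ (g.u f) (g.v f)
    · rw [if_pos h4, if_pos (AV_sup_left g h4)]
    · have h5 : ¬ (σ ⊔ g.pe h) (g.u f) (g.v f) := by
        intro h5
        rcases AV_par g h5 with h6 | h6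
        · exact h4 h6
        · apply hn
          exact (sup_le (Gr.le_sp g σ _) (Gr.pe_le_sp g σ hf')) h6
      have h6 : ¬ (g.sp (σ ⊔ g.pe f) ((R.erase f).erase h) ⊔ g.ab) (g.u h) (g.v h) := by
        rw [AV_sp g σ hf.2 hf.1]
        exact hc
      rw [if_neg h4, if_neg h5, (hCL g (σ ⊔ g.pe f) (R.erase f) h
        (Finset.mem_erase.2 ⟨Ne.symm hf.1, hh⟩) h6).1, AV_tl_T_mul, Finset.erase_right_comm,
        AV_sup_comm]
  have h4 : tl (g.be (σ ⊔ g.pe h) (R.erase h)) k ≤ tl (g.be (σ ⊔ g.pe h) (R.erase h)) (k - 1) := by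
    have h5 := AV_tl_le (hNN g (σ ⊔ g.pe h) (R.erase h)).1 (k - 1)
    rw [sub_add_cancel] at h5
    exact h5
  rw [h1, h2, h3]
  push_cast
  linarith

theorem AV_gen (hLP : St_LP) (hGE : St_GE) (hNN : St_NN) (σ : Setoid V) (R : Finset E) (h : E)
    (hh : h ∈ R) (hl : ¬ σ (g.u h) (g.v h))
    (hc : (g.sp σ (R.erase h) ⊔ g.ab) (g.u h) (g.v h)) (k : ℤ)
    (ih : AV_s g σ (R.erase h) k ≤ g.rk σ (R.erase h) * tl (g.be σ (R.erase h)) k)
    (ih' : AV_s g (σ ⊔ g.pe h) (R.erase h) k ≤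
      g.rk (σ ⊔ g.pe h) (R.erase h) * tl (g.be (σ ⊔ g.pe h) (R.erase h)) k) :
    AV_s g σ R k ≤ g.rk σ R * tl (g.be σ R) k := by
  have h1 := AV_rk_contract g σ hh hl
  have h1' : g.rk σ R = g.rk σ (R.erase h) := by
    unfold Gr.rk
    rw [AV_K_delete g σ hh hc]
  have h2 : tl (g.be σ R) k =
      tl (g.be σ (R.erase h)) k + tl (g.be (σ ⊔ g.pe h) (R.erase h)) k := by
    rw [(hGE g σ R h hh hl hc).1, AV_tl_add]
  have h3 : AV_s g σ R k ≤ tl (g.be (σ ⊔ g.pe h) (R.erase h)) k +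
      (AV_s g σ (R.erase h) k + AV_s g (σ ⊔ g.pe h) (R.erase h) k) := by
    unfold AV_s
    rw [← Finset.add_sum_erase _ _ hh, if_neg hl, ← Finset.sum_add_distrib]
    apply add_le_add le_rfl
    apply Finset.sum_le_sum
    intro f hf
    have hf' := hf
    rw [Finset.mem_erase] at hf
    by_cases h4 : σ (g.u f) (g.v f)
    · rw [if_pos h4, if_pos h4, if_pos (AV_sup_left g h4), add_zero]
    · have hm : h ∈ R.erase f := Finset.mem_erase.2 ⟨Ne.symm hf.1, hh⟩
      rw [if_neg h4, if_neg h4]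
      by_cases h5 : (σ ⊔ g.pe h) (g.u f) (g.v f)
      · have h6 : (σ ⊔ g.pe f) (g.u h) (g.v h) := by
          rcases AV_par g h5 with h6 | h6
          · exact absurd h6 h4
          · exact h6
        rw [if_pos h5, add_zero, (hLP g (σ ⊔ g.pe f) (R.erase f) h hm h6).1, AV_tl_T_mul,
          sub_neg_eq_add, Finset.erase_right_comm]
        exact AV_tl_le (hNN g _ _).1 k
      · have h6 : ¬ (σ ⊔ g.pe f) (g.u h) (g.v h) := by
          intro h6
          rcases AV_par g h6 with h7 | h7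
          · exact hl h7
          · exact h5 h7
        have h7 : (g.sp (σ ⊔ g.pe f) ((R.erase f).erase h) ⊔ g.ab) (g.u h) (g.v h) := by
          rw [AV_sp g σ hf.2 hf.1]
          exact hc
        rw [if_neg h5, (hGE g (σ ⊔ g.pe f) (R.erase f) h hm h6 h7).1, AV_tl_add,
          Finset.erase_right_comm, AV_sup_comm]
  have h4 : (g.rk σ R : ℤ) = g.rk (σ ⊔ g.pe h) (R.erase h) + 1 := by
    rw [h1]
    push_cast
    rfl
  have h5 : (g.rk σ R : ℤ) = g.rk σ (R.erase h) := by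
    rw [h1']
  rw [h2, mul_add]
  nth_rewrite 1 [h5]
  rw [h4]
  linarith

end

theorem AV_main (hLP : St_LP) (hCL : St_CL) (hGE : St_GE) (hNN : St_NN) {V E : Type} [Finite V]
    [DecidableEq E] (g : Gr V E) : ∀ (n : ℕ) (σ : Setoid V) (R : Finset E) (k : ℤ), R.card = n →
    AV_s g σ R k ≤ g.rk σ R * tl (g.be σ R) k := by
  intro n
  induction n with
  | zero =>
    intro σ R k hR
    rw [Finset.card_eq_zero] at hR
    subst hR
    unfold AV_s
    rw [Finset.sum_empty]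
    exact mul_nonneg (Int.natCast_nonneg _) (AV_tl_nn (hNN g _ _).1 k)
  | succ n ih =>
    intro σ R k hR
    have h1 : R.Nonempty := by
      rw [← Finset.card_pos]
      omega
    obtain ⟨h, hh⟩ := h1
    have h2 : (R.erase h).card = n := by
      rw [Finset.card_erase_of_mem hh]
      omega
    by_cases hl : σ (g.u h) (g.v h)
    · exact AV_loop g hLP σ R h hh hl k (ih _ _ _ h2)
    · by_cases hc : (g.sp σ (R.erase h) ⊔ g.ab) (g.u h) (g.v h)
      · exact AV_gen g hLP hGE hNN σ R h hh hl hc k (ih _ _ _ h2) (ih _ _ _ h2)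
      · exact AV_coloop g hCL hNN σ R h hh hc k (ih _ _ _ h2)

/-- [AV] the averaging inequality -/
theorem thm_AV (hLP : St_LP) (hCL : St_CL) (hGE : St_GE) (_hEM : St_EM) (hNN : St_NN) : St_AV := by
  intro V E _ _ g σ R k
  rw [AV_s_eq]
  exact AV_main hLP hCL hGE hNN g _ σ R k rfl

end Pool.ALT
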