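import Pool.Agent.ALT.Tu.StR

/-! # ALT, block Tu: the black half of the formula for `w~` -/

set_option autoImplicit false

namespace Pool.ALT

theorem BH_single {V E : Type} [Fintype V] [DecidableEq V] (g : Gr V E) (c : V → ℝ)
    (H : V → V → ℝ) (e : E) :
    ∑ x, c x * (g.d (H x) e * g.d (Pi.single x 1) e) =
      c (g.v e) * (H (g.v e) (g.v e) - H (g.v e) (g.u e)) -
        c (g.u e) * (H (g.u e) (g.v e) - H (g.u e) (g.u e)) := by
  have h1 : ∀ x, c x * (g.d (H x) e * g.d (Pi.single x 1) e) =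
      (if x = g.v e then c x * (H x (g.v e) - H x (g.u e)) else 0) -
        (if x = g.u e then c x * (H x (g.v e) - H x (g.u e)) else 0) := by
    intro x
    have hv : (Pi.single x (1 : ℝ) : V → ℝ) (g.v e) = if x = g.v e then 1 else 0 := by
      rw [Pi.single_apply]
      by_cases h : x = g.v e
      · rw [if_pos h.symm, if_pos h]
      · rw [if_neg (fun h' => h h'.symm), if_neg h]
    have hu : (Pi.single x (1 : ℝ) : V → ℝ) (g.u e) = if x = g.u e then 1 else 0 := by
      rw [Pi.single_apply]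
      by_cases h : x = g.u e
      · rw [if_pos h.symm, if_pos h]
      · rw [if_neg (fun h' => h h'.symm), if_neg h]
    unfold Gr.d
    rw [hv, hu]
    split_ifs <;> ring
  rw [Finset.sum_congr rfl (fun x _ => h1 x), Finset.sum_sub_distrib]
  rw [Finset.sum_ite_eq' Finset.univ (g.v e), Finset.sum_ite_eq' Finset.univ (g.u e)]
  rw [if_pos (Finset.mem_univ _), if_pos (Finset.mem_univ _)]

theorem thm_BH (hKF : St_KF) (hKR : St_KR) (hKS : St_KS) (hK1 : St_K1) (hFL : St_FL) : St_BH := by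
  intro V E _ _ _ g R G H hab hG hH
  have hbW : g.b ∉ ({g.a} : Finset V) := by
    rw [Finset.mem_singleton]
    exact fun h => hab h.symm
  obtain ⟨hGs, -, -⟩ := hKS g R {g.a} G hG
  obtain ⟨hHs, -, hHu⟩ := hKS g R {g.a, g.b} H hH
  obtain ⟨hba, hr, hflow, -⟩ := hFL g R G hab hG
  have hins : insert g.b ({g.a} : Finset V) = {g.a, g.b} := Finset.pair_comm _ _
  have hq := hK1 g R {g.a} G g.b (Finset.singleton_nonempty _) hG hbW
  rw [hins] at hq
  have hKr := hKR g R {g.a} G g.b hG hbW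
  rw [hins] at hKr
  have hHG := hHu _ hKr
  have hHe : ∀ x y, H x y = G x y - G g.b x * G g.b y / G g.b g.b := by
    intro x y
    have h := congrFun (congrFun hHG x) y
    rw [h]
    show G x y - G x g.b * G g.b y / G g.b g.b = _
    rw [hGs x g.b]
  have hf1 := hKF g R {g.a} G (Finset.singleton_nonempty _) hG
  have hf2 := hKF g R {g.a, g.b} H (Finset.insert_nonempty _ _) hH
  set p : ℝ := (g.NF R {g.a} : ℝ) with hp
  set r : ℝ := G g.b g.b with hrdef
  have hr0 : r ≠ 0 := ne_of_gt hr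
  have hGe : ∀ x y, G x y = H x y + G g.b x * G g.b y / r := by
    intro x y
    rw [hHe x y]
    ring
  -- the sum of squares of the potential
  have hHb : ∀ y, H g.b y = 0 := fun y =>
    hH.out g.b (Finset.mem_insert_of_mem (Finset.mem_singleton_self _)) y
  have hHa : ∀ y, H g.a y = 0 := fun y => hH.out g.a (Finset.mem_insert_self _ _) y
  have hS : ∑ x, G g.b x ^ 2 = r ^ 2 + ∑ e ∈ R,
      (G g.b (g.v e) ^ 2 * (H (g.v e) (g.v e) - H (g.u e) (g.v e)) +
        G g.b (g.u e) ^ 2 * (H (g.u e) (g.u e) - H (g.u e) (g.v e))) := by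
    have h1 : ∀ x, G g.b x ^ 2 = (if x = g.b then r ^ 2 else 0) +
        ∑ e ∈ R, G g.b x ^ 2 * (g.d (H x) e * g.d (Pi.single x 1) e) := by
      intro x
      rw [← Finset.mul_sum]
      by_cases hxb : x = g.b
      · rw [if_pos hxb, hxb]
        have h0 : ∀ e ∈ R, g.d (H g.b) e * g.d (Pi.single g.b 1) e = 0 := by
          intro e _
          unfold Gr.d
          rw [hHb, hHb]
          ring
        rw [Finset.sum_eq_zero h0]
        ring
      · rw [if_neg hxb]
        by_cases hxa : x = g.a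
        · rw [hxa, hba]
          ring
        · have hx : x ∉ ({g.a, g.b} : Finset V) := by
            rw [Finset.mem_insert, Finset.mem_singleton]
            exact fun h => h.elim hxa hxb
          have h2 := hH.rep x (Pi.single x 1) (by
            intro y hy
            have hne : y ≠ x := fun h => hx (h ▸ hy)
            rw [Pi.single_apply, if_neg hne]) hx
          rw [h2, Pi.single_eq_same]
          ring
    rw [Finset.sum_congr rfl (fun x _ => h1 x), Finset.sum_add_distrib,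
      Finset.sum_ite_eq' Finset.univ g.b, if_pos (Finset.mem_univ _), Finset.sum_comm]
    congr 1
    apply Finset.sum_congr rfl
    intro e _
    rw [BH_single g (fun x => G g.b x ^ 2) H e, hHs (g.v e) (g.u e)]
    ring
  -- flow identity
  have hfl := hflow (fun x => G g.b x * H x x)
  have hfl2 : ∑ e ∈ R, (G g.b (g.v e) - G g.b (g.u e)) *
      (G g.b (g.v e) * H (g.v e) (g.v e) - G g.b (g.u e) * H (g.u e) (g.u e)) = 0 := by
    have h3 : ∑ e ∈ R, g.d (G g.b) e * g.d (fun x => G g.b x * H x x) e = 0 := by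
      rw [hfl]
      show G g.b g.b * H g.b g.b - G g.b g.a * H g.a g.a = 0
      rw [hHb, hHa]
      ring
    exact h3
  -- combine
  have hV : ∑ v, G v v = ∑ v, H v v + (∑ x, G g.b x ^ 2) / r := by
    rw [Finset.sum_div, ← Finset.sum_add_distrib]
    apply Finset.sum_congr rfl
    intro x _
    rw [hGe x x]
    ring
  have hE : ∑ e ∈ R, (G (g.u e) (g.u e) * G (g.v e) (g.v e) - G (g.u e) (g.v e) ^ 2) =
      ∑ e ∈ R, (H (g.u e) (g.u e) * H (g.v e) (g.v e) - H (g.u e) (g.v e) ^ 2) +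
      (∑ e ∈ R, (G g.b (g.u e) ^ 2 * H (g.v e) (g.v e) + G g.b (g.v e) ^ 2 * H (g.u e) (g.u e) -
        2 * G g.b (g.u e) * G g.b (g.v e) * H (g.u e) (g.v e))) / r := by
    rw [Finset.sum_div, ← Finset.sum_add_distrib]
    apply Finset.sum_congr rfl
    intro e _
    rw [hGe (g.u e) (g.u e), hGe (g.v e) (g.v e), hGe (g.u e) (g.v e)]
    field_simp
    ring
  have hBr : ∑ x, G g.b x ^ 2 -
      ∑ e ∈ R, (G g.b (g.u e) ^ 2 * H (g.v e) (g.v e) + G g.b (g.v e) ^ 2 * H (g.u e) (g.u e) -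
        2 * G g.b (g.u e) * G g.b (g.v e) * H (g.u e) (g.v e)) =
      r ^ 2 - ∑ e ∈ R, g.d (G g.b) e ^ 2 *
        (H (g.u e) (g.u e) + H (g.v e) (g.v e) + H (g.u e) (g.v e)) := by
    have h4 : ∑ e ∈ R,
        (G g.b (g.v e) ^ 2 * (H (g.v e) (g.v e) - H (g.u e) (g.v e)) +
          G g.b (g.u e) ^ 2 * (H (g.u e) (g.u e) - H (g.u e) (g.v e))) -
        ∑ e ∈ R, (G g.b (g.u e) ^ 2 * H (g.v e) (g.v e) + G g.b (g.v e) ^ 2 * H (g.u e) (g.u e) -
          2 * G g.b (g.u e) * G g.b (g.v e) * H (g.u e) (g.v e)) +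
        ∑ e ∈ R, g.d (G g.b) e ^ 2 *
          (H (g.u e) (g.u e) + H (g.v e) (g.v e) + H (g.u e) (g.v e)) =
        2 * ∑ e ∈ R, (G g.b (g.v e) - G g.b (g.u e)) *
          (G g.b (g.v e) * H (g.v e) (g.v e) - G g.b (g.u e) * H (g.u e) (g.u e)) := by
      rw [← Finset.sum_sub_distrib, ← Finset.sum_add_distrib, Finset.mul_sum]
      apply Finset.sum_congr rfl
      intro e _
      unfold Gr.d
      ring
    rw [hfl2] at h4
    rw [hS]
    linarith
  have hdiff : (∑ v, H v v - ∑ e ∈ R, (H (g.u e) (g.u e) * H (g.v e) (g.v e) -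
      H (g.u e) (g.v e) ^ 2)) - (∑ v, G v v - ∑ e ∈ R, (G (g.u e) (g.u e) * G (g.v e) (g.v e) -
      G (g.u e) (g.v e) ^ 2)) = -((r ^ 2 - ∑ e ∈ R, g.d (G g.b) e ^ 2 *
        (H (g.u e) (g.u e) + H (g.v e) (g.v e) + H (g.u e) (g.v e))) / r) := by
    rw [← hBr, hV, hE]
    ring
  rw [hf1, hf2, hq]
  have hfin : p * (p * r * (∑ v, H v v - ∑ e ∈ R, (H (g.u e) (g.u e) * H (g.v e) (g.v e) -
      H (g.u e) (g.v e) ^ 2))) - p * r * (p * (∑ v, G v v - ∑ e ∈ R,
      (G (g.u e) (g.u e) * G (g.v e) (g.v e) - G (g.u e) (g.v e) ^ 2))) =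
      p * (p * r) * ((∑ v, H v v - ∑ e ∈ R, (H (g.u e) (g.u e) * H (g.v e) (g.v e) -
      H (g.u e) (g.v e) ^ 2)) - (∑ v, G v v - ∑ e ∈ R, (G (g.u e) (g.u e) * G (g.v e) (g.v e) -
      G (g.u e) (g.v e) ^ 2))) := by
    ring
  rw [hfin, hdiff]
  field_simp
  ring

end Pool.ALT
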