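import Pool.Agent.ALT.Tu.StP

/-! # ALT, block Tu, module CL: a coloop is a factor `s` -/

set_option autoImplicit false

namespace Pool.ALT

open LaurentPolynomial

theorem CL_key {V E : Type} [Finite V] [DecidableEq E] (g : Gr V E) (σ : Setoid V)
    (R : Finset E) (f : E) (hf : f ∈ R)
    (h : ¬ (g.sp σ (R.erase f) ⊔ g.ab) (g.u f) (g.v f)) :
    g.K σ R = g.K (σ ⊔ g.pe f) (R.erase f) ∧
    ∀ A ∈ (R.erase f).powerset, nc (g.sp σ A) = nc (g.sp (σ ⊔ g.pe f) A) + 1 ∧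
      (g.sp (σ ⊔ g.pe f) A g.a g.b ↔ g.sp σ A g.a g.b) ∧
      g.K (σ ⊔ g.pe f) (R.erase f) ≤ nc (g.sp (σ ⊔ g.pe f) A) ∧
      (¬ g.sp (σ ⊔ g.pe f) A g.a g.b →
        g.K (σ ⊔ g.pe f) (R.erase f) + 1 ≤ nc (g.sp (σ ⊔ g.pe f) A)) ∧
      g.nul σ A = g.nul (σ ⊔ g.pe f) A ∧ g.nul σ (insert f A) = g.nul (σ ⊔ g.pe f) A ∧
      g.sp σ (insert f A) = g.sp (σ ⊔ g.pe f) A := by
  have hle : ∀ B ⊆ R.erase f, g.sp σ B ≤ g.sp σ (R.erase f) ⊔ g.ab := fun B hB =>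
    (g.sp_mono le_rfl hB).trans le_sup_left
  have hσ : ¬ σ (g.u f) (g.v f) := fun h1 =>
    h ((g.le_sp σ (R.erase f)).trans le_sup_left h1)
  have hnc : nc (σ ⊔ g.pe f) + 1 = nc σ := nc_sup_pr hσ
  have hK : g.K σ R = g.K (σ ⊔ g.pe f) (R.erase f) := by
    unfold Gr.K
    rw [← g.sp_insert', Finset.insert_erase hf]
  refine ⟨hK, fun A hA => ?_⟩
  rw [Finset.mem_powerset] at hA
  have hA' : ¬ g.sp σ A (g.u f) (g.v f) := fun h1 => h (hle A hA h1)
  have h1 : nc (g.sp (σ ⊔ g.pe f) A) + 1 = nc (g.sp σ A) := by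
    rw [g.sp_sup]
    exact nc_sup_pr hA'
  have h2 : g.sp (σ ⊔ g.pe f) A g.a g.b ↔ g.sp σ A g.a g.b := by
    rw [g.sp_sup]
    have h3 : (g.sp σ (R.erase f) ⊔ g.ab) g.a g.b :=
      (le_sup_right : g.ab ≤ g.sp σ (R.erase f) ⊔ g.ab) (pr_rel g.a g.b)
    constructor
    · intro h4
      have h5 := (sup_pr_iff (g.sp σ A) (g.u f) (g.v f) g.a g.b).1 h4
      rcases h5 with h5 | ⟨h5, h6⟩ | ⟨h5, h6⟩
      · exact h5
      · exfalso
        apply h
        exact Setoid.trans' _ (Setoid.symm' _ (hle A hA h5))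
          (Setoid.trans' _ h3 (Setoid.symm' _ (hle A hA h6)))
      · exfalso
        apply h
        exact Setoid.trans' _ (hle A hA h6)
          (Setoid.trans' _ (Setoid.symm' _ h3) (hle A hA h5))
    · intro h4
      exact (le_sup_left : g.sp σ A ≤ g.sp σ A ⊔ g.pe f) h4
  have h3 : g.sp (σ ⊔ g.pe f) A ⊔ g.ab ≤ g.sp (σ ⊔ g.pe f) (R.erase f) ⊔ g.ab :=
    sup_le_sup_right (g.sp_mono le_rfl hA) _
  have h4 : g.sp σ (insert f A) = g.sp (σ ⊔ g.pe f) A := g.sp_insert' σ f A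
  have hfA : f ∉ A := fun h5 => Finset.notMem_erase f R (hA h5)
  refine ⟨h1.symm, h2, nc_anti (le_sup_left.trans h3), fun h5 => ?_, ?_, ?_, h4⟩
  · have h6 : nc (g.sp (σ ⊔ g.pe f) A ⊔ g.ab) + 1 = nc (g.sp (σ ⊔ g.pe f) A) := nc_sup_pr h5
    have h7 : g.K (σ ⊔ g.pe f) (R.erase f) ≤ nc (g.sp (σ ⊔ g.pe f) A ⊔ g.ab) := nc_anti h3
    omega
  · unfold Gr.nul
    omega
  · unfold Gr.nul
    rw [Finset.card_insert_of_notMem hfA, h4]
    omega

theorem CL_uu : uu + 1 = (T 1 : LaurentPolynomial ℤ) := by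
  unfold uu
  rw [sub_add_cancel]

theorem thm_CL : St_CL := by
  classical
  intro V E _ _ g σ R f hf h
  obtain ⟨hK, key⟩ := CL_key g σ R f hf h
  have hR : R.powerset = (insert f (R.erase f)).powerset := by rw [Finset.insert_erase hf]
  constructor
  · unfold Gr.be
    rw [hK, hR]
    rw [Finset.sum_filter, Finset.sum_powerset_insert (Finset.notMem_erase f R),
      ← Finset.sum_add_distrib, Finset.sum_filter, Finset.mul_sum]
    refine Finset.sum_congr rfl fun A hA => ?_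
    obtain ⟨h1, h2, h3, _, h5, h6, h7⟩ := key A hA
    rw [h7, h5, h6, h1]
    by_cases hab : g.sp (σ ⊔ g.pe f) A g.a g.b
    · rw [if_pos (h2.1 hab), if_pos hab, Nat.sub_add_comm h3, pow_succ, ← CL_uu]
      ring
    · rw [if_neg (fun h8 => hab (h2.2 h8)), if_neg hab]
      ring
  · unfold Gr.al
    rw [hK, hR]
    rw [Finset.sum_filter, Finset.sum_powerset_insert (Finset.notMem_erase f R),
      ← Finset.sum_add_distrib, Finset.sum_filter, Finset.mul_sum]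
    refine Finset.sum_congr rfl fun A hA => ?_
    obtain ⟨h1, h2, h3, h4, h5, h6, h7⟩ := key A hA
    rw [h7, h5, h6, h1]
    by_cases hab : g.sp (σ ⊔ g.pe f) A g.a g.b
    · rw [if_neg (not_not_intro (h2.1 hab)), if_neg (not_not_intro hab)]
      ring
    · have h8 := h4 hab
      have h9 : nc (g.sp (σ ⊔ g.pe f) A) + 1 - g.K (σ ⊔ g.pe f) (R.erase f) - 1 =
          (nc (g.sp (σ ⊔ g.pe f) A) - g.K (σ ⊔ g.pe f) (R.erase f) - 1) + 1 := by omega
      rw [if_pos (fun h10 => hab (h2.2 h10)), if_pos hab, h9, pow_succ, ← CL_uu]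
      ring

end Pool.ALT
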