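import Pool.Agent.ALT.Tu.StP

/-!
# ALT, block Tu: difference of the variances from the tail inequality (CU)
-/

set_option autoImplicit false

namespace Pool.ALT

open LaurentPolynomial

theorem CU_mo (P : LaurentPolynomial ℤ) (lo hi : ℤ) (h : ∀ j, P.coeff j ≠ 0 → lo ≤ j ∧ j ≤ hi)
    (r : ℕ) : mo r P = ∑ j ∈ Finset.Icc lo hi, j ^ r * P.coeff j := by
  unfold mo
  apply Finset.sum_subset
  · intro j hj
    rw [Finsupp.mem_support_iff] at hj
    exact Finset.mem_Icc.2 (h j hj)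
  · intro j _ hj
    rw [Finsupp.notMem_support_iff] at hj
    rw [hj, mul_zero]

theorem CU_tl (P : LaurentPolynomial ℤ) (lo hi : ℤ) (h : ∀ j, P.coeff j ≠ 0 → lo ≤ j ∧ j ≤ hi)
    (k : ℤ) : tl P k = ∑ j ∈ Finset.Icc lo hi, if k ≤ j then P.coeff j else 0 := by
  unfold tl
  rw [Finset.sum_filter]
  apply Finset.sum_subset
  · intro j hj
    rw [Finsupp.mem_support_iff] at hj
    exact Finset.mem_Icc.2 (h j hj)
  · intro j _ hj
    rw [Finsupp.notMem_support_iff] at hj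
    rw [hj, ite_self]

/-- Abel summation -/
theorem CU_abel (P : LaurentPolynomial ℤ) (lo hi : ℤ)
    (h : ∀ j, P.coeff j ≠ 0 → lo ≤ j ∧ j ≤ hi) (w : ℤ → ℤ) (F : ℤ → ℤ)
    (hF : ∀ j, lo ≤ j → (∑ k ∈ Finset.Ioc lo j, w k) = F j) :
    ∑ k ∈ Finset.Ioc lo hi, w k * tl P k = ∑ j ∈ Finset.Icc lo hi, F j * P.coeff j := by
  have h1 : ∀ k ∈ Finset.Ioc lo hi, w k * tl P k =
      ∑ j ∈ Finset.Icc lo hi, if k ≤ j then w k * P.coeff j else 0 := by
    intro k _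
    rw [CU_tl P lo hi h, Finset.mul_sum]
    apply Finset.sum_congr rfl
    intro j _
    rw [mul_ite, mul_zero]
  rw [Finset.sum_congr rfl h1, Finset.sum_comm]
  apply Finset.sum_congr rfl
  intro j hj
  rw [Finset.mem_Icc] at hj
  rw [← hF j hj.1, Finset.sum_mul, ← Finset.sum_filter]
  apply Finset.sum_congr
  · ext k
    simp only [Finset.mem_filter, Finset.mem_Ioc]
    constructor
    · rintro ⟨⟨h2, _⟩, h3⟩
      exact ⟨h2, h3⟩
    · rintro ⟨h2, h3⟩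
      exact ⟨⟨h2, h3.trans hj.2⟩, h3⟩
  · intro k _
    rfl

theorem CU_one (lo j : ℤ) (hj : lo ≤ j) : (∑ _k ∈ Finset.Ioc lo j, (1 : ℤ)) = j - lo := by
  rw [Finset.sum_const, Int.card_Ioc, nsmul_eq_mul, mul_one, Int.toNat_of_nonneg (by omega)]

theorem CU_odd (lo j : ℤ) (hj : lo ≤ j) :
    (∑ k ∈ Finset.Ioc lo j, (2 * k - 1)) = j ^ 2 - lo ^ 2 := by
  induction j, hj using Int.le_induction with
  | base => simp
  | succ n hn ih =>
    have h1 : Finset.Ioc lo (n + 1) = insert (n + 1) (Finset.Ioc lo n) := by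
      ext k
      simp only [Finset.mem_insert, Finset.mem_Ioc]
      omega
    rw [h1, Finset.sum_insert (by simp), ih]
    ring

theorem CU_m1 (P : LaurentPolynomial ℤ) (lo hi : ℤ)
    (h : ∀ j, P.coeff j ≠ 0 → lo ≤ j ∧ j ≤ hi) :
    ∑ k ∈ Finset.Ioc lo hi, tl P k = mo 1 P - lo * mo 0 P := by
  have h1 := CU_abel P lo hi h (fun _ => 1) (fun j => j - lo) (fun j hj => CU_one lo j hj)
  simp only [one_mul] at h1
  rw [h1, CU_mo P lo hi h 1, CU_mo P lo hi h 0, Finset.mul_sum, ← Finset.sum_sub_distrib]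
  apply Finset.sum_congr rfl
  intro j _
  ring

theorem CU_m2 (P : LaurentPolynomial ℤ) (lo hi : ℤ)
    (h : ∀ j, P.coeff j ≠ 0 → lo ≤ j ∧ j ≤ hi) :
    ∑ k ∈ Finset.Ioc lo hi, (2 * k - 1) * tl P k = mo 2 P - lo ^ 2 * mo 0 P := by
  have h1 := CU_abel P lo hi h (fun k => 2 * k - 1) (fun j => j ^ 2 - lo ^ 2)
    (fun j hj => CU_odd lo j hj)
  rw [h1, CU_mo P lo hi h 2, CU_mo P lo hi h 0, Finset.mul_sum, ← Finset.sum_sub_distrib]
  apply Finset.sum_congr rfl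
  intro j _
  ring

theorem CU_bd (P : LaurentPolynomial ℤ) (lo hi : ℤ) (hP : NN P)
    (h : ∀ j, P.coeff j ≠ 0 → lo ≤ j ∧ j ≤ hi) :
    0 ≤ mo 0 P ∧ lo * mo 0 P ≤ mo 1 P ∧ mo 1 P ≤ hi * mo 0 P := by
  rw [CU_mo P lo hi h 1, CU_mo P lo hi h 0]
  refine ⟨Finset.sum_nonneg fun j _ => ?_, ?_, ?_⟩
  · rw [pow_zero, one_mul]
    exact hP j
  · rw [Finset.mul_sum]
    apply Finset.sum_le_sum
    intro j hj
    rw [Finset.mem_Icc] at hj
    rw [pow_zero, one_mul, pow_one]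
    exact mul_le_mul_of_nonneg_right hj.1 (hP j)
  · rw [Finset.mul_sum]
    apply Finset.sum_le_sum
    intro j hj
    rw [Finset.mem_Icc] at hj
    rw [pow_zero, one_mul, pow_one]
    exact mul_le_mul_of_nonneg_right hj.2 (hP j)

theorem thm_CU : St_CU := by
  intro P Q lo L hL hP hQ hPs hQs hT
  have hP1 : ∀ j, P.coeff j ≠ 0 → lo ≤ j ∧ j ≤ lo + L + 1 := fun j hj => by
    have := hPs j hj
    omega
  have hQ1 : ∀ j, Q.coeff j ≠ 0 → lo ≤ j ∧ j ≤ lo + L + 1 := fun j hj => by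
    have := hQs j hj
    omega
  obtain ⟨hp, hp1, hp2⟩ := CU_bd P lo (lo + L) hP hPs
  obtain ⟨hq, hq1, hq2⟩ := CU_bd Q (lo + 1) (lo + L + 1) hQ hQs
  set p := mo 0 P with hpdef
  set q := mo 0 Q with hqdef
  have hpq : 0 ≤ p * q := mul_nonneg hp hq
  set δ : ℤ → ℤ := fun k => p * tl Q k - q * tl P k with hδ
  have hδ0 : ∀ k, 0 ≤ δ k := fun k => by
    have := hT k
    rw [hδ]
    simp only
    linarith
  have s1 : ∑ k ∈ Finset.Ioc lo (lo + L + 1), δ k = p * mo 1 Q - q * mo 1 P := by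
    rw [hδ]
    simp only
    rw [Finset.sum_sub_distrib, ← Finset.mul_sum, ← Finset.mul_sum, CU_m1 P lo _ hP1,
      CU_m1 Q lo _ hQ1, ← hpdef, ← hqdef]
    ring
  have s2 : ∑ k ∈ Finset.Ioc lo (lo + L + 1), (2 * k - 1) * δ k =
      p * mo 2 Q - q * mo 2 P := by
    have h1 : ∀ k ∈ Finset.Ioc lo (lo + L + 1), (2 * k - 1) * δ k =
        p * ((2 * k - 1) * tl Q k) - q * ((2 * k - 1) * tl P k) := by
      intro k _
      rw [hδ]
      ring
    rw [Finset.sum_congr rfl h1, Finset.sum_sub_distrib, ← Finset.mul_sum, ← Finset.mul_sum,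
      CU_m2 P lo _ hP1, CU_m2 Q lo _ hQ1, ← hpdef, ← hqdef]
    ring
  have e1 : p ^ 2 * (q * mo 2 Q - mo 1 Q ^ 2) - q ^ 2 * (p * mo 2 P - mo 1 P ^ 2) =
      ∑ k ∈ Finset.Ioc lo (lo + L + 1),
        δ k * (p * q * (2 * k - 1) - (p * mo 1 Q + q * mo 1 P)) := by
    have h1 : ∀ k ∈ Finset.Ioc lo (lo + L + 1),
        δ k * (p * q * (2 * k - 1) - (p * mo 1 Q + q * mo 1 P)) =
        p * q * ((2 * k - 1) * δ k) - (p * mo 1 Q + q * mo 1 P) * δ k := by
      intro k _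
      ring
    rw [Finset.sum_congr rfl h1, Finset.sum_sub_distrib, ← Finset.mul_sum, ← Finset.mul_sum,
      s1, s2]
    ring
  have hA1 := mul_le_mul_of_nonneg_left hq1 hp
  have hA2 := mul_le_mul_of_nonneg_left hq2 hp
  have hB1 := mul_le_mul_of_nonneg_left hp1 hq
  have hB2 := mul_le_mul_of_nonneg_left hp2 hq
  have hbr : ∀ k ∈ Finset.Ioc lo (lo + L + 1),
      |δ k * (p * q * (2 * k - 1) - (p * mo 1 Q + q * mo 1 P))| ≤ 2 * L * (p * q) * δ k := by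
    intro k hk
    rw [Finset.mem_Ioc] at hk
    rw [abs_mul, abs_of_nonneg (hδ0 k), mul_comm]
    apply mul_le_mul_of_nonneg_right _ (hδ0 k)
    have hk1 : lo + 1 ≤ k := hk.1
    have c1 := mul_le_mul_of_nonneg_left hk1 hpq
    have c2 := mul_le_mul_of_nonneg_left hk.2 hpq
    rw [abs_le]
    constructor
    · nlinarith
    · nlinarith
  rw [e1]
  refine (Finset.abs_sum_le_sum_abs _ _).trans ((Finset.sum_le_sum hbr).trans (le_of_eq ?_))
  rw [← Finset.mul_sum, s1]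

end Pool.ALT
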