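import Mathlib
import Pool.Agent.ALT.Tu.StR

/-! # ALT, block Tu: [DB] base cases for the determinant (helper25) -/

set_option autoImplicit false

namespace Pool.ALT

theorem DB_lin {V E : Type} [Fintype V] [DecidableEq V] (g : Gr V E) (f : V → ℝ) (e : E) :
    ∑ y, g.d (Pi.single y 1) e * f y = g.d f e := by
  unfold Gr.d
  simp only [Pi.single_apply, sub_mul, ite_mul, one_mul, zero_mul, Finset.sum_sub_distrib,
    Finset.sum_ite_eq, Finset.mem_univ, if_true]

/-- [DB] -/
theorem thm_DB : St_DB := by
  intro V E _ _ g R
  constructor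
  · have h1 : g.LW R Finset.univ = 1 := by
      ext x y
      unfold Gr.LW
      rw [if_pos (Or.inl (Finset.mem_univ x)), Matrix.one_apply]
    rw [h1, Matrix.det_one]
  · intro W hW hR
    rw [← Matrix.exists_mulVec_eq_zero_iff]
    refine ⟨fun y => if y ∈ W then 0 else 1, ?_, ?_⟩
    · intro h
      apply hW
      refine Finset.eq_univ_iff_forall.2 fun x => ?_
      by_contra hx
      have h1 := congrFun h x
      simp only [hx, if_false, Pi.zero_apply] at h1
      exact one_ne_zero h1
    · funext x
      rw [Matrix.mulVec, Pi.zero_apply]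
      by_cases hx : x ∈ W
      · refine Finset.sum_eq_zero fun y _ => ?_
        show (if x ∈ W ∨ y ∈ W then (if x = y then (1 : ℝ) else 0) else g.Lp R x y) *
          (if y ∈ W then (0 : ℝ) else 1) = 0
        rw [if_pos (Or.inl hx)]
        by_cases hxy : x = y
        · subst hxy
          simp [hx]
        · simp [hxy]
      · have h1 : ∀ y, g.LW R W x y * (if y ∈ W then (0 : ℝ) else 1) =
            ∑ e ∈ R, g.d (Pi.single x 1) e * (g.d (Pi.single y 1) e * (if y ∈ W then (0 : ℝ) else 1)) := by
          intro y
          by_cases hy : y ∈ W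
          · simp [hy]
          · unfold Gr.LW Gr.Lp
            rw [if_neg (not_or.2 ⟨hx, hy⟩), Finset.sum_mul]
            exact Finset.sum_congr rfl fun e _ => mul_assoc _ _ _
        show ∑ y, g.LW R W x y * (if y ∈ W then (0 : ℝ) else 1) = 0
        rw [Finset.sum_congr rfl fun y _ => h1 y, Finset.sum_comm]
        refine Finset.sum_eq_zero fun e he => ?_
        rw [← Finset.mul_sum, DB_lin g (fun y => if y ∈ W then (0 : ℝ) else 1) e]
        have h2 : g.d (fun y => if y ∈ W then (0 : ℝ) else 1) e = 0 := by
          unfold Gr.d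
          have := hR e he
          by_cases h : g.u e ∈ W
          · simp [h, this.1 h]
          · have h' : g.v e ∉ W := fun h' => h (this.2 h')
            simp [h, h']
        rw [h2, mul_zero]

end Pool.ALT
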