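import Pool.Agent.ALT.Tu.StR

/-!
# ALT Tu, module DI (helper72): the pair of the dual graph
-/

set_option autoImplicit false

namespace Pool.ALT

open LaurentPolynomial

theorem DI_mo (r : ℕ) (P : LaurentPolynomial ℤ) : mo r (invert P) = (-1) ^ r * mo r P := by
  unfold mo
  rw [Finset.mul_sum]
  refine Finset.sum_nbij' (fun j => -j) (fun j => -j) ?_ ?_ ?_ ?_ ?_
  · intro j hj
    rw [Finsupp.mem_support_iff, invert_apply] at hj
    rw [Finsupp.mem_support_iff]
    exact hj
  · intro j hj
    rw [Finsupp.mem_support_iff] at hj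
    rw [Finsupp.mem_support_iff, invert_apply, neg_neg]
    exact hj
  · intro j _
    exact neg_neg j
  · intro j _
    exact neg_neg j
  · intro j _
    rw [invert_apply, ← mul_assoc, ← mul_pow]
    congr 2
    ring

theorem DI_uu : invert uu = vv := by
  unfold uu vv
  rw [map_sub, map_one, invert_T]

theorem DI_vv : invert vv = uu := by
  unfold uu vv
  rw [map_sub, map_one, invert_T, neg_neg]

theorem DI_K {V E : Type} [Fintype V] [Fintype E] (g : Gr V E)
    (hc : nc (g.sp ⊥ Finset.univ) = 1) : g.K ⊥ Finset.univ = 1 := by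
  unfold Gr.K
  have h1 : nc (g.sp ⊥ Finset.univ ⊔ g.ab) ≤ nc (g.sp ⊥ Finset.univ) := nc_anti le_sup_left
  have : Nonempty V := ⟨g.a⟩
  have h2 := nc_pos (g.sp ⊥ Finset.univ ⊔ g.ab)
  omega

theorem DI_main {V W E : Type} [Fintype V] [Fintype W] [Fintype E] [DecidableEq E]
    (g : Gr V E) (h : Gr W E) (hd : Du g h)
    (he : Fintype.card V + Fintype.card W = Fintype.card E + 3) :
    h.be ⊥ Finset.univ = invert (g.al ⊥ Finset.univ) := by
  classical
  unfold Gr.be Gr.al
  rw [map_sum, DI_K g hd.con, DI_K h hd.con']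
  refine Finset.sum_nbij' (fun A => Finset.univ \ A) (fun A => Finset.univ \ A) ?_ ?_ ?_ ?_ ?_
  · intro B hB
    rw [Finset.mem_filter] at hB ⊢
    refine ⟨Finset.mem_powerset.2 (Finset.subset_univ _), ?_⟩
    rw [hd.sep, not_not, Finset.sdiff_sdiff_eq_self (Finset.subset_univ B)]
    exact hB.2
  · intro A hA
    rw [Finset.mem_filter] at hA ⊢
    refine ⟨Finset.mem_powerset.2 (Finset.subset_univ _), ?_⟩
    have h1 := hA.2
    rw [hd.sep, not_not] at h1
    exact h1
  · intro B _
    exact Finset.sdiff_sdiff_eq_self (Finset.subset_univ B)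
  · intro B _
    exact Finset.sdiff_sdiff_eq_self (Finset.subset_univ B)
  · intro B hB
    rw [Finset.mem_filter] at hB
    have h1 := hd.du (Finset.univ \ B)
    rw [Finset.sdiff_sdiff_eq_self (Finset.subset_univ B)] at h1
    have h2 : h.sp ⊥ B ⊔ h.ab = h.sp ⊥ B := sup_pr_of _ hB.2
    rw [h2] at h1
    have h3 : (Finset.univ \ B).card + B.card = Fintype.card E := by
      rw [Finset.card_sdiff_add_card_eq_card (Finset.subset_univ B), Finset.card_univ]
    rw [map_mul, map_pow, map_pow, DI_uu, DI_vv, mul_comm]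
    have : Nonempty W := ⟨h.a⟩
    have h4 := nc_pos (h.sp ⊥ B)
    have h5 : nc (⊥ : Setoid V) = Fintype.card V := by rw [nc_bot, Nat.card_eq_fintype_card]
    have h6 : nc (⊥ : Setoid W) = Fintype.card W := by rw [nc_bot, Nat.card_eq_fintype_card]
    unfold Gr.nul
    rw [h5, h6]
    congr 2
    · omega
    · omega

theorem thm_DI (hDS : St_DS) : St_DI := by
  intro V W E _ _ _ _ g h hd
  obtain ⟨hd', he⟩ := hDS g h hd
  refine ⟨DI_main g h hd he, ?_, ?_⟩
  · have h1 := DI_main h g hd' (by omega)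
    rw [h1]
    exact (involutive_invert _).symm
  · intro P Q
    unfold jetOf
    simp only [DI_mo]
    refine Pool.Agent.ARB.Jet.ext ?_ ?_ ?_ ?_ ?_ ?_ <;> push_cast <;> ring

end Pool.ALT
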