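import Pool.Agent.ALT.Tu.StR
import Pool.Agent.ALT.Tu.StP

/-! # ALT, block Tu: first moments of the pair in terms of rooted counts (helper27) -/

set_option autoImplicit false

namespace Pool.ALT

open LaurentPolynomial

variable {V E : Type}

/-- `nc (τ ⊔ ab) = 1` and not too many classes already joined -/
theorem DM_joined [Finite V] [Nonempty V] (τ : Setoid V) (a b : V) (h : nc τ = 1) : τ a b := by
  by_contra hn
  have h1 := nc_sup_pr hn
  have h2 := nc_pos (τ ⊔ pr a b)
  omega

theorem DM_iff [Finite V] (τ : Setoid V) (a b : V) (k : ℕ) (h : k + 1 ≤ nc τ) :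
    nc (τ ⊔ pr a b) = k ↔ (¬ τ a b ∧ nc τ = k + 1) := by
  by_cases hab : τ a b
  · rw [sup_pr_of τ hab]
    constructor
    · intro h1
      omega
    · rintro ⟨h1, -⟩
      exact absurd hab h1
  · have h1 := nc_sup_pr hab
    constructor
    · intro h2
      exact ⟨hab, by omega⟩
    · rintro ⟨-, h2⟩
      omega

theorem DM_split [DecidableEq E] [Fintype E] (p q : Finset E → Prop) [DecidablePred p]
    [DecidablePred q] :
    ((Finset.univ : Finset E).powerset.filter p).card =
      ((Finset.univ : Finset E).powerset.filter fun A => p A ∧ q A).card +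
      ((Finset.univ : Finset E).powerset.filter fun A => p A ∧ ¬ q A).card := by
  have h := Finset.card_filter_add_card_filter_not
    (s := (Finset.univ : Finset E).powerset.filter p) (p := q)
  rw [Finset.filter_filter, Finset.filter_filter] at h
  exact h.symm

theorem DM_card [DecidableEq E] [Fintype E] (p q : Finset E → Prop) [DecidablePred p]
    [DecidablePred q] (h : ∀ A, p A ↔ q A) :
    ((Finset.univ : Finset E).powerset.filter p).card =
      ((Finset.univ : Finset E).powerset.filter q).card :=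
  congrArg Finset.card (Finset.filter_congr fun A _ => h A)

theorem DM_compl [DecidableEq E] [Fintype E] (p q : Finset E → Prop) [DecidablePred p]
    [DecidablePred q] (h : ∀ A, p A ↔ q (Finset.univ \ A)) :
    ((Finset.univ : Finset E).powerset.filter p).card =
      ((Finset.univ : Finset E).powerset.filter q).card := by
  refine Finset.card_bij' (fun A _ => Finset.univ \ A) (fun A _ => Finset.univ \ A) ?_ ?_ ?_ ?_
  · intro A hA
    rw [Finset.mem_filter] at hA ⊢
    exact ⟨by simp, (h A).1 hA.2⟩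
  · intro A hA
    rw [Finset.mem_filter] at hA ⊢
    refine ⟨by simp, (h _).2 ?_⟩
    rw [Finset.sdiff_sdiff_eq_self (Finset.subset_univ A)]
    exact hA.2
  · intro A _
    exact Finset.sdiff_sdiff_eq_self (Finset.subset_univ A)
  · intro A _
    exact Finset.sdiff_sdiff_eq_self (Finset.subset_univ A)

/-- [DM] first moments of the pair in terms of rooted counts -/
theorem thm_DM (hRT : St_RT) (hDS : St_DS) (hM1 : St_M1) : St_DM := by
  classical
  intro V W E _ _ _ _ _ _ g h hd
  obtain ⟨hd', hE⟩ := hDS g h hd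
  have : Nonempty V := ⟨g.a⟩
  have : Nonempty W := ⟨h.a⟩
  obtain ⟨hr1, hr2, -, -⟩ := @hRT V _ _
  obtain ⟨hs1, hs2, -, -⟩ := @hRT W _ _
  have hb : nc (⊥ : Setoid V) = Fintype.card V := by rw [nc_bot, Nat.card_eq_fintype_card]
  have hbW : nc (⊥ : Setoid W) = Fintype.card W := by rw [nc_bot, Nat.card_eq_fintype_card]
  have hK : g.K ⊥ Finset.univ = 1 := by
    unfold Gr.K
    have h1 := nc_anti (le_sup_left : g.sp ⊥ Finset.univ ≤ g.sp ⊥ Finset.univ ⊔ g.ab)
    have h2 := nc_pos (g.sp ⊥ Finset.univ ⊔ g.ab)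
    have h3 := hd.con
    omega
  have hca : ∀ A : Finset E, A.card + (Finset.univ \ A).card = Fintype.card E := by
    intro A
    rw [Finset.card_univ_sdiff]
    have := Finset.card_le_univ A
    omega
  have hcab : ({g.a, g.b} : Finset V).card = 2 := Finset.card_pair hd.ab
  have hccd : ({h.a, h.b} : Finset W).card = 2 := Finset.card_pair hd.cd
  have hspab : ∀ A : Finset E, g.sp (rt {g.a, g.b}) A = g.sp ⊥ A ⊔ pr g.a g.b := by
    intro A
    rw [hr2, ← Gr.sp_sup, bot_sup_eq]
  have hspcd : ∀ A : Finset E, h.sp (rt {h.a, h.b}) A = h.sp ⊥ A ⊔ pr h.a h.b := by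
    intro A
    rw [hs2, ← Gr.sp_sup, bot_sup_eq]
  have hge : ∀ A : Finset E, Fintype.card V ≤ nc (g.sp ⊥ A) + A.card := by
    intro A
    have := g.nc_le_add_card ⊥ A
    rw [hb] at this
    exact this
  obtain ⟨hbe, hal⟩ := hM1 g ⊥ Finset.univ
  rw [hbe, hal, hK, hb]
  -- first moment of `be`
  have e1 : g.NF1 Finset.univ {g.a} = (((Finset.univ : Finset E).powerset.filter fun A =>
        g.sp ⊥ A g.a g.b ∧ nc (g.sp ⊥ A) = 1 + 1 ∧
        A.card + nc (g.sp ⊥ A) = Fintype.card V).card) + g.NF Finset.univ {g.a, g.b} := by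
    unfold Gr.NF1 Gr.NF
    rw [DM_split _ (fun A => g.sp ⊥ A g.a g.b), hcab, hr1]
    congr 1
    · refine DM_card _ _ fun A => ?_
      rw [Finset.card_singleton]
      constructor
      · rintro ⟨⟨h1, h2⟩, h3⟩
        exact ⟨h3, h2, by omega⟩
      · rintro ⟨h3, h2, h1⟩
        exact ⟨⟨by omega, h2⟩, h3⟩
    · refine DM_card _ _ fun A => ?_
      rw [Finset.card_singleton, hspab]
      constructor
      · rintro ⟨⟨h1, h2⟩, h3⟩
        exact ⟨by omega, (DM_iff _ _ _ 1 (by omega)).2 ⟨h3, h2⟩⟩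
      · rintro ⟨h1, h2⟩
        have h4 := hge A
        obtain ⟨h5, h6⟩ := (DM_iff _ _ _ 1 (by omega)).1 h2
        exact ⟨⟨by omega, h6⟩, h5⟩
  have e2 : (((Finset.univ : Finset E).powerset.filter fun A =>
        g.sp ⊥ A g.a g.b ∧ nc (g.sp ⊥ A) = 1 ∧
        A.card + nc (g.sp ⊥ A) = Fintype.card V + 1).card) = h.NF1 Finset.univ {h.a, h.b} := by
    unfold Gr.NF1
    refine DM_compl _ _ fun A => ?_
    rw [hccd, hspcd]
    have h1 := hd.du A
    have h2 : h.ab = pr h.a h.b := rfl
    rw [h2] at h1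
    have h3 := hca A
    constructor
    · rintro ⟨-, h5, h6⟩
      constructor <;> omega
    · rintro ⟨h5, h6⟩
      have h7 : nc (g.sp ⊥ A) = 1 := by omega
      exact ⟨DM_joined _ _ _ h7, h7, by omega⟩
  have e3 : g.NF1 Finset.univ {g.a, g.b} = (((Finset.univ : Finset E).powerset.filter fun A =>
        ¬ g.sp ⊥ A g.a g.b ∧ nc (g.sp ⊥ A) = 1 + 2 ∧
        A.card + nc (g.sp ⊥ A) = Fintype.card V).card) := by
    unfold Gr.NF1
    refine DM_card _ _ fun A => ?_
    rw [hcab, hspab]
    constructor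
    · rintro ⟨h1, h2⟩
      have h4 := hge A
      obtain ⟨h5, h6⟩ := (DM_iff _ _ _ 2 (by omega)).1 h2
      exact ⟨h5, by omega, by omega⟩
    · rintro ⟨h3, h2, h1⟩
      exact ⟨by omega, (DM_iff _ _ _ 2 (by omega)).2 ⟨h3, by omega⟩⟩
  have e4 : h.NF1 Finset.univ {h.a} = g.NF Finset.univ {g.a} +
      (((Finset.univ : Finset E).powerset.filter fun A =>
        ¬ g.sp ⊥ A g.a g.b ∧ nc (g.sp ⊥ A) = 1 + 1 ∧
        A.card + nc (g.sp ⊥ A) = Fintype.card V + 1).card) := by
    have f1 : h.NF1 Finset.univ {h.a} = ((Finset.univ : Finset E).powerset.filter fun A =>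
        A.card + 1 = Fintype.card V ∧ nc (g.sp ⊥ A ⊔ pr g.a g.b) = 1).card := by
      unfold Gr.NF1
      refine DM_compl _ _ fun B => ?_
      rw [hs1, Finset.card_singleton]
      have h1 := hd'.du B
      have h2 : g.ab = pr g.a g.b := rfl
      rw [h2] at h1
      have h3 := hca B
      constructor
      · rintro ⟨h5, h6⟩
        constructor <;> omega
      · rintro ⟨h5, h6⟩
        constructor <;> omega
    rw [f1, DM_split _ (fun A => g.sp ⊥ A g.a g.b)]
    unfold Gr.NF
    congr 1
    · refine DM_card _ _ fun A => ?_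
      rw [hr1, Finset.card_singleton]
      constructor
      · rintro ⟨⟨h1, h2⟩, h3⟩
        rw [sup_pr_of _ h3] at h2
        exact ⟨h1, h2⟩
      · rintro ⟨h1, h2⟩
        have h3 := DM_joined _ g.a g.b h2
        rw [sup_pr_of _ h3]
        exact ⟨⟨h1, h2⟩, h3⟩
    · refine DM_card _ _ fun A => ?_
      constructor
      · rintro ⟨⟨h1, h2⟩, h3⟩
        have h4 := nc_sup_pr h3
        exact ⟨h3, by omega, by omega⟩
      · rintro ⟨h3, h2, h1⟩
        have h4 := nc_sup_pr h3
        exact ⟨⟨by omega, by omega⟩, h3⟩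
  constructor
  · rw [e2, e1]
    push_cast
    ring
  · rw [e4, e3]
    push_cast
    ring

end Pool.ALT
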