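import Pool.Agent.ALT.Tu.StR

/-! ALT, block Tu: trees of the dual graph (proof by helper89 of `St_DN` of helper58). -/

set_option autoImplicit false

namespace Pool.ALT

theorem DN_card {E : Type} [Fintype E] [DecidableEq E]
    (P Q : Finset E → Prop) [DecidablePred P] [DecidablePred Q]
    (h : ∀ A, P A ↔ Q (Finset.univ \ A)) :
    ((Finset.univ : Finset E).powerset.filter Q).card =
      ((Finset.univ : Finset E).powerset.filter P).card ∧
    ∀ e : E, (((Finset.univ : Finset E).erase e).powerset.filter P).card +
      (((Finset.univ : Finset E).erase e).powerset.filter Q).card =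
        ((Finset.univ : Finset E).powerset.filter P).card := by
  have hcc : ∀ A : Finset E, Finset.univ \ (Finset.univ \ A) = A := by
    intro A
    ext t
    simp
  have h' : ∀ A, Q A ↔ P (Finset.univ \ A) := by
    intro A
    rw [h, hcc]
  constructor
  · apply Finset.card_nbij' (fun A => Finset.univ \ A) (fun A => Finset.univ \ A)
    · intro A hA
      rw [Finset.mem_coe, Finset.mem_filter] at hA
      rw [Finset.mem_coe, Finset.mem_filter]
      exact ⟨Finset.mem_powerset.2 (Finset.subset_univ _), (h' A).1 hA.2⟩
    · intro A hA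
      rw [Finset.mem_coe, Finset.mem_filter] at hA
      rw [Finset.mem_coe, Finset.mem_filter]
      exact ⟨Finset.mem_powerset.2 (Finset.subset_univ _), (h A).1 hA.2⟩
    · intro A _
      exact hcc A
    · intro A _
      exact hcc A
  · intro e
    have h1 := Finset.card_filter_add_card_filter_not
      (s := (Finset.univ : Finset E).powerset.filter P) (fun A : Finset E => e ∈ A)
    have h2 : (((Finset.univ : Finset E).powerset.filter P).filter fun A => ¬ e ∈ A) =
        ((Finset.univ : Finset E).erase e).powerset.filter P := by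
      ext A
      rw [Finset.mem_filter, Finset.mem_filter, Finset.mem_filter, Finset.mem_powerset,
        Finset.mem_powerset]
      constructor
      · rintro ⟨⟨hA, hP⟩, heA⟩
        exact ⟨fun t ht => Finset.mem_erase.2 ⟨fun h => heA (h ▸ ht), hA ht⟩, hP⟩
      · rintro ⟨hA, hP⟩
        exact ⟨⟨fun t ht => Finset.mem_of_mem_erase (hA ht), hP⟩,
          fun h => (Finset.mem_erase.1 (hA h)).1 rfl⟩
    have h3 : (((Finset.univ : Finset E).powerset.filter P).filter fun A => e ∈ A).card =
        (((Finset.univ : Finset E).erase e).powerset.filter Q).card := by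
      apply Finset.card_nbij' (fun A => Finset.univ \ A) (fun A => Finset.univ \ A)
      · intro A hA
        rw [Finset.mem_coe, Finset.mem_filter, Finset.mem_filter] at hA
        rw [Finset.mem_coe, Finset.mem_filter, Finset.mem_powerset]
        refine ⟨?_, (h A).1 hA.1.2⟩
        intro t ht
        refine Finset.mem_erase.2 ⟨?_, Finset.mem_univ t⟩
        intro hte
        rw [hte] at ht
        exact (Finset.mem_sdiff.1 ht).2 hA.2
      · intro A hA
        rw [Finset.mem_coe, Finset.mem_filter, Finset.mem_powerset] at hA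
        rw [Finset.mem_coe, Finset.mem_filter, Finset.mem_filter, Finset.mem_powerset]
        refine ⟨⟨Finset.subset_univ _, (h' A).1 hA.2⟩, ?_⟩
        exact Finset.mem_sdiff.2 ⟨Finset.mem_univ e, fun h => (Finset.mem_erase.1 (hA.1 h)).1 rfl⟩
      · intro A _
        exact hcc A
      · intro A _
        exact hcc A
    rw [h2, h3] at h1
    omega

theorem DN_half (hRT : St_RT) {V W E : Type} [Fintype V] [Fintype W] [Fintype E] [DecidableEq V]
    [DecidableEq W] [DecidableEq E] (g : Gr V E) (h : Gr W E) (hd : Du g h)
    (heu : Fintype.card V + Fintype.card W = Fintype.card E + 3) :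
    h.NF Finset.univ {h.a, h.b} = g.NF Finset.univ {g.a} ∧
    (∀ e, g.NF (Finset.univ.erase e) {g.a} + h.NF (Finset.univ.erase e) {h.a, h.b} =
      g.NF Finset.univ {g.a}) := by
  obtain ⟨v1, -, -, -⟩ := hRT (V := V)
  obtain ⟨-, w2, -, -⟩ := hRT (V := W)
  unfold Gr.NF
  apply DN_card
  intro A
  have h1 : h.sp (rt {h.a, h.b}) (Finset.univ \ A) = h.sp ⊥ (Finset.univ \ A) ⊔ h.ab := by
    rw [w2, ← Gr.sp_sup, bot_sup_eq]
    rfl
  have h2 := hd.du A
  have h3 : (Finset.univ \ A).card + A.card = Fintype.card E := by
    rw [Finset.card_sdiff_add_card_eq_card (Finset.subset_univ A)]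
    rfl
  rw [h1, v1, Finset.card_singleton, Finset.card_pair hd.cd]
  constructor
  · rintro ⟨h4, h5⟩
    constructor <;> omega
  · rintro ⟨h4, h5⟩
    constructor <;> omega

theorem thm_DN (hRT : St_RT) (hDS : St_DS) : St_DN := by
  intro V W E _ _ _ _ _ _ g h hd
  obtain ⟨hd', heu⟩ := hDS g h hd
  obtain ⟨h1, h3⟩ := DN_half hRT g h hd heu
  obtain ⟨h2, h4⟩ := DN_half hRT h g hd' (by omega)
  refine ⟨h1, h2.symm, h3, fun e => ?_⟩
  have h5 := h4 e
  omega

end Pool.ALT
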