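import Pool.Agent.ALT.Tu.StR

/-! # ALT Tu [DR]: the recursion for the determinant (helper67) -/

set_option autoImplicit false

namespace Pool.ALT

theorem DR_Lp {V E : Type} [DecidableEq V] [DecidableEq E] (g : Gr V E)
    (R : Finset E) (W : Finset V) (e : E) (w x : V) (he : e ∈ R) (hw : w ∈ W)
    (hex : (g.u e = w ∧ g.v e = x) ∨ (g.u e = x ∧ g.v e = w)) (y z : V) (hy : y ∉ W)
    (hz : z ∉ W) : g.Lp R y z = g.Lp (R.erase e) y z + if y = x ∧ z = x then 1 else 0 := by
  have hyw : w ≠ y := fun h => hy (h ▸ hw)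
  have hzw : w ≠ z := fun h => hz (h ▸ hw)
  have h1 : g.Lp R y z = g.d (Pi.single y 1) e * g.d (Pi.single z 1) e + g.Lp (R.erase e) y z :=
    (Finset.add_sum_erase R (fun e => g.d (Pi.single y 1) e * g.d (Pi.single z 1) e) he).symm
  have e1 : (if x = y then (1 : ℝ) else 0) * (if x = z then (1 : ℝ) else 0) =
      if y = x ∧ z = x then 1 else 0 := by
    by_cases hyx : y = x
    · by_cases hzx : z = x
      · rw [if_pos hyx.symm, if_pos hzx.symm, if_pos ⟨hyx, hzx⟩, mul_one]
      · rw [if_neg (fun h : x = z => hzx h.symm), if_neg (fun h : y = x ∧ z = x => hzx h.2),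
          mul_zero]
    · rw [if_neg (fun h : x = y => hyx h.symm), if_neg (fun h : y = x ∧ z = x => hyx h.1),
        zero_mul]
  have h2 : g.d (Pi.single y 1) e * g.d (Pi.single z 1) e = if y = x ∧ z = x then 1 else 0 := by
    unfold Gr.d
    rcases hex with ⟨h3, h4⟩ | ⟨h3, h4⟩
    · rw [h3, h4]
      simp only [Pi.single_apply, if_neg hyw, if_neg hzw, sub_zero]
      exact e1
    · rw [h3, h4]
      simp only [Pi.single_apply, if_neg hyw, if_neg hzw, zero_sub]
      rw [neg_mul_neg]
      exact e1
  rw [h1, h2, add_comm]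

theorem thm_DR : St_DR := by
  intro V E _ _ _ g R W e w x he hw hx hex
  have hLp := DR_Lp g R W e w x he hw hex
  set M := g.LW (R.erase e) W with hM
  have h1 : g.LW R W = M.updateRow x (M x + Pi.single x 1) := by
    ext i j
    by_cases hi : i = x
    · subst hi
      rw [Matrix.updateRow_self, Pi.add_apply, Pi.single_apply]
      show (if i ∈ W ∨ j ∈ W then (if i = j then (1 : ℝ) else 0) else g.Lp R i j) =
        (if i ∈ W ∨ j ∈ W then (if i = j then (1 : ℝ) else 0) else g.Lp (R.erase e) i j) +
          if j = i then 1 else 0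
      by_cases hj : j ∈ W
      · have hne : i ≠ j := fun h => hx (h ▸ hj)
        rw [if_pos (Or.inr hj), if_pos (Or.inr hj), if_neg hne, if_neg (fun h => hne h.symm), add_zero]
      · rw [if_neg (not_or.2 ⟨hx, hj⟩), if_neg (not_or.2 ⟨hx, hj⟩), hLp i j hx hj]
        simp only [true_and]
    · rw [Matrix.updateRow_ne hi]
      show (if i ∈ W ∨ j ∈ W then (if i = j then (1 : ℝ) else 0) else g.Lp R i j) =
        (if i ∈ W ∨ j ∈ W then (if i = j then (1 : ℝ) else 0) else g.Lp (R.erase e) i j)
      by_cases hij : i ∈ W ∨ j ∈ W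
      · rw [if_pos hij, if_pos hij]
      · rw [if_neg hij, if_neg hij]
        rw [not_or] at hij
        rw [hLp i j hij.1 hij.2, if_neg (fun h => hi h.1), add_zero]
  rw [h1, Matrix.det_updateRow_add, Matrix.updateRow_eq_self]
  congr 1
  set N := g.LW (R.erase e) (insert x W) with hN
  refine Matrix.det_eq_of_forall_row_eq_smul_add_const (fun i => if i = x then 0 else M i x) x
    (if_pos rfl) ?_
  intro i j
  have hNx : N x j = if x = j then 1 else 0 := by
    show (if x ∈ insert x W ∨ j ∈ insert x W then (if x = j then (1 : ℝ) else 0)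
      else g.Lp (R.erase e) x j) = _
    rw [if_pos (Or.inl (Finset.mem_insert_self x W))]
  rw [hNx]
  by_cases hi : i = x
  · subst hi
    rw [Matrix.updateRow_self, if_pos rfl, zero_mul, add_zero, hNx, Pi.single_apply]
    by_cases hij : j = i
    · rw [if_pos hij, if_pos hij.symm]
    · rw [if_neg hij, if_neg (fun h => hij h.symm)]
  · rw [Matrix.updateRow_ne hi, if_neg hi]
    show (if i ∈ W ∨ j ∈ W then (if i = j then (1 : ℝ) else 0) else g.Lp (R.erase e) i j) =
      (if i ∈ insert x W ∨ j ∈ insert x W then (if i = j then (1 : ℝ) else 0)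
        else g.Lp (R.erase e) i j) + M i x * if x = j then 1 else 0
    by_cases hxj : x = j
    · subst hxj
      rw [if_pos (Or.inr (Finset.mem_insert_self x W)), if_neg hi, if_pos rfl, zero_add, mul_one]
      show _ = (if i ∈ W ∨ x ∈ W then (if i = x then (1 : ℝ) else 0) else g.Lp (R.erase e) i x)
      rw [if_neg hi]
    · rw [if_neg hxj, mul_zero, add_zero]
      have h2 : (i ∈ insert x W ∨ j ∈ insert x W) ↔ (i ∈ W ∨ j ∈ W) := by
        rw [Finset.mem_insert, Finset.mem_insert]
        constructor
        · rintro ((h | h) | (h | h))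
          · exact absurd h hi
          · exact Or.inl h
          · exact absurd h.symm hxj
          · exact Or.inr h
        · rintro (h | h)
          · exact Or.inl (Or.inr h)
          · exact Or.inr (Or.inr h)
      by_cases hij : i ∈ W ∨ j ∈ W
      · rw [if_pos hij, if_pos (h2.2 hij)]
      · rw [if_neg hij, if_neg (fun h => hij (h2.1 h))]

end Pool.ALT
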