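import Pool.Agent.ALT.Tu.StR

/-!
# ALT Tu, module DS (helper72): symmetry of the duality, Euler's formula
-/

set_option autoImplicit false

namespace Pool.ALT

theorem DS_bot {V : Type} [Fintype V] : nc (⊥ : Setoid V) = Fintype.card V := by
  rw [nc_bot, Nat.card_eq_fintype_card]

theorem DS_euler {V W E : Type} [Fintype V] [Fintype W] [Fintype E] [DecidableEq E]
    (g : Gr V E) (h : Gr W E) (hd : Du g h) :
    Fintype.card V + Fintype.card W = Fintype.card E + 3 := by
  have h1 := hd.du Finset.univ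
  rw [hd.con, Finset.sdiff_self, Gr.sp_empty, Finset.card_univ] at h1
  have h2 : nc ((⊥ : Setoid W) ⊔ h.ab) + 1 = nc (⊥ : Setoid W) := nc_sup_pr hd.cd
  rw [DS_bot] at h2
  omega

theorem thm_DS : St_DS := by
  intro V W E _ _ _ _ g h hd
  have he := DS_euler g h hd
  refine ⟨⟨hd.cd, hd.ab, hd.con', hd.con, ?_, ?_⟩, he⟩
  · intro A
    have h1 := hd.du (Finset.univ \ A)
    have h2 := hd.sep (Finset.univ \ A)
    rw [Finset.sdiff_sdiff_eq_self (Finset.subset_univ A)] at h1 h2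
    have h3 : (Finset.univ \ A).card + A.card = Fintype.card E := by
      rw [Finset.card_sdiff_add_card_eq_card (Finset.subset_univ A), Finset.card_univ]
    by_cases hA : h.sp ⊥ A h.a h.b
    · have h4 : ¬ g.sp ⊥ (Finset.univ \ A) g.a g.b := fun hh => h2.1 hh hA
      have h5 : nc (g.sp ⊥ (Finset.univ \ A) ⊔ g.ab) + 1 = nc (g.sp ⊥ (Finset.univ \ A)) :=
        nc_sup_pr h4
      have h6 : h.sp ⊥ A ⊔ h.ab = h.sp ⊥ A := sup_pr_of _ hA
      rw [h6] at h1
      omega
    · have h4 : g.sp ⊥ (Finset.univ \ A) g.a g.b := h2.2 hA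
      have h5 : g.sp ⊥ (Finset.univ \ A) ⊔ g.ab = g.sp ⊥ (Finset.univ \ A) := sup_pr_of _ h4
      have h6 : nc (h.sp ⊥ A ⊔ h.ab) + 1 = nc (h.sp ⊥ A) := nc_sup_pr hA
      rw [h5]
      omega
  · intro A
    have h2 := hd.sep (Finset.univ \ A)
    rw [Finset.sdiff_sdiff_eq_self (Finset.subset_univ A)] at h2
    rw [h2, not_not]

end Pool.ALT
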