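import Pool.Agent.ALT.Tu.StP

/-! # ALT, module EM: no edges (helper55) -/

set_option autoImplicit false

namespace Pool.ALT

open LaurentPolynomial

/-- the pair for the empty set of edges -/
theorem thm_EM : St_EM := by
  classical
  intro V E _ g σ
  have hnul : g.nul σ ∅ = 0 := by
    unfold Gr.nul
    rw [g.sp_empty, Finset.card_empty]
    omega
  constructor
  · intro h
    have hK : g.K σ ∅ = nc σ := by
      unfold Gr.K Gr.ab
      rw [g.sp_empty, sup_pr_of σ h]
    constructor
    · unfold Gr.be
      rw [Finset.powerset_empty, Finset.filter_singleton, g.sp_empty, if_pos h,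
        Finset.sum_singleton, g.sp_empty, hK, hnul, Nat.sub_self, pow_zero, pow_zero, one_mul]
    · unfold Gr.al
      rw [Finset.powerset_empty, Finset.filter_singleton, g.sp_empty, if_neg (not_not.2 h),
        Finset.sum_empty]
  · intro h
    have hK : g.K σ ∅ + 1 = nc σ := by
      unfold Gr.K Gr.ab
      rw [g.sp_empty]
      exact nc_sup_pr h
    constructor
    · unfold Gr.be
      rw [Finset.powerset_empty, Finset.filter_singleton, g.sp_empty, if_neg h,
        Finset.sum_empty]
    · unfold Gr.al
      have h0 : nc σ - g.K σ ∅ - 1 = 0 := by omega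
      rw [Finset.powerset_empty, Finset.filter_singleton, g.sp_empty, if_pos h,
        Finset.sum_singleton, g.sp_empty, h0, hnul, pow_zero, pow_zero, one_mul]

end Pool.ALT
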