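import Pool.Agent.ALT.Tu.StR

/-! # ALT, block Tu: [FL] the potential: flow identity, range -/

set_option autoImplicit false

namespace Pool.ALT

variable {V E : Type}

theorem FL_zero [DecidableEq V] (g : Gr V E) (R : Finset E) (G : V → V → ℝ) (hG : g.Ker R {g.a} G)
    (f : V → ℝ) (hfa : f g.a = 0) (h : ∑ e ∈ R, g.d f e ^ 2 ≤ 0) : ∀ x, f x = 0 := by
  have h1 : ∀ e ∈ R, g.d f e = 0 := by
    intro e he
    have h2 : g.d f e ^ 2 ≤ ∑ e ∈ R, g.d f e ^ 2 :=
      Finset.single_le_sum (f := fun e => g.d f e ^ 2) (fun i _ => sq_nonneg _) he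
    have h3 : g.d f e ^ 2 = 0 := le_antisymm (h2.trans h) (sq_nonneg _)
    exact pow_eq_zero_iff (two_ne_zero) |>.1 h3
  intro x
  by_cases hx : x = g.a
  · rw [hx, hfa]
  · have h2 := hG.rep x f (fun y hy => by rw [Finset.mem_singleton.1 hy, hfa])
      (fun h => hx (Finset.mem_singleton.1 h))
    rw [← h2]
    refine Finset.sum_eq_zero fun e he => ?_
    rw [h1 e he, mul_zero]

theorem FL_min (p q : ℝ) : (min q 0 - min p 0) ^ 2 ≤ (q - p) * (min q 0 - min p 0) := by
  rcases le_total q 0 with hq | hq <;> rcases le_total p 0 with hp | hp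
  · rw [min_eq_left hq, min_eq_left hp]
    nlinarith
  · rw [min_eq_left hq, min_eq_right hp]
    nlinarith
  · rw [min_eq_right hq, min_eq_left hp]
    nlinarith
  · rw [min_eq_right hq, min_eq_right hp]
    nlinarith

theorem FL_max (p q r : ℝ) :
    (max (q - r) 0 - max (p - r) 0) ^ 2 ≤ (q - p) * (max (q - r) 0 - max (p - r) 0) := by
  rcases le_total (q - r) 0 with hq | hq <;> rcases le_total (p - r) 0 with hp | hp
  · rw [max_eq_right hq, max_eq_right hp]
    nlinarith
  · rw [max_eq_right hq, max_eq_left hp]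
    nlinarith
  · rw [max_eq_left hq, max_eq_right hp]
    nlinarith
  · rw [max_eq_left hq, max_eq_left hp]
    nlinarith

theorem thm_FL (hKS : St_KS) : St_FL := by
  intro V E _ _ _ g R G hab hG
  obtain ⟨hsym, hpos, -⟩ := hKS g R {g.a} G hG
  have hb : g.b ∉ ({g.a} : Finset V) := fun h => hab (Finset.mem_singleton.1 h).symm
  have ha : g.a ∈ ({g.a} : Finset V) := Finset.mem_singleton_self _
  have hba : G g.b g.a = 0 := hG.van g.b g.a ha
  have hr := hpos g.b hb
  have hrep : ∀ f : V → ℝ, f g.a = 0 → ∑ e ∈ R, g.d (G g.b) e * g.d f e = f g.b := fun f hf =>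
    hG.rep g.b f (fun y hy => by rw [Finset.mem_singleton.1 hy, hf]) hb
  refine ⟨hba, hr, ?_, ?_⟩
  · intro h
    have h1 := hrep (fun x => h x - h g.a) (sub_self _)
    rw [← h1]
    refine Finset.sum_congr rfl fun e _ => ?_
    unfold Gr.d
    ring
  · intro x
    constructor
    · have h1 : ∀ x, min (G g.b x) 0 = 0 := by
        refine FL_zero g R G hG (fun x => min (G g.b x) 0) ?_ ?_
        · show min (G g.b g.a) 0 = 0
          rw [hba, min_self]
        · refine (Finset.sum_le_sum fun e _ => ?_).trans (le_of_eq (hrep (fun x => min (G g.b x) 0) ?_)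
            |>.trans ?_)
          · exact FL_min (G g.b (g.u e)) (G g.b (g.v e))
          · show min (G g.b g.a) 0 = 0
            rw [hba, min_self]
          · exact min_le_right _ _
      have h2 := h1 x
      rw [← h2]
      exact min_le_left _ _
    · have h0 : max (G g.b g.a - G g.b g.b) 0 = 0 := by
        rw [hba]
        exact max_eq_right (by linarith)
      have h1 : ∀ x, max (G g.b x - G g.b g.b) 0 = 0 := by
        refine FL_zero g R G hG (fun x => max (G g.b x - G g.b g.b) 0) h0 ?_
        refine (Finset.sum_le_sum fun e _ => ?_).trans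
          (le_of_eq (hrep (fun x => max (G g.b x - G g.b g.b) 0) h0) |>.trans ?_)
        · exact FL_max (G g.b (g.u e)) (G g.b (g.v e)) (G g.b g.b)
        · show max (G g.b g.b - G g.b g.b) 0 ≤ 0
          rw [sub_self, max_self]
      have h2 := h1 x
      have h3 := le_max_left (G g.b x - G g.b g.b) 0
      rw [h2] at h3
      linarith

end Pool.ALT
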