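import Pool.Agent.ALT.Tu.StR
import Pool.Agent.ALT.Tu.StP

/-! # ALT, block Tu, [FN]: the pair of dual networks and the formula for `w~` -/

set_option autoImplicit false

namespace Pool.ALT

open LaurentPolynomial

variable {V E : Type}

/-- the network of `g`, edges oriented in the direction of increasing `f` -/
noncomputable def FN_N (g : Gr V E) (f : V → ℝ) : ALZ.Nt V E where
  s e := if f (g.u e) ≤ f (g.v e) then g.u e else g.v e
  t e := if f (g.u e) ≤ f (g.v e) then g.v e else g.u e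
  a := g.a
  b := g.b

theorem FN_or (g : Gr V E) (f : V → ℝ) (e : E) :
    ((FN_N g f).s e = g.u e ∧ (FN_N g f).t e = g.v e ∧ f (g.u e) ≤ f (g.v e)) ∨
    ((FN_N g f).s e = g.v e ∧ (FN_N g f).t e = g.u e ∧ f (g.v e) ≤ f (g.u e)) := by
  by_cases h : f (g.u e) ≤ f (g.v e)
  · left
    unfold FN_N
    simp only [h, if_true, and_self]
  · right
    unfold FN_N
    simp only [h, if_false, true_and]
    exact le_of_lt (not_le.1 h)

theorem FN_mul (g : Gr V E) (f : V → ℝ) (e : E) (h k : V → ℝ) :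
    (FN_N g f).d h e * (FN_N g f).d k e = g.d h e * g.d k e := by
  unfold ALZ.Nt.d Gr.d
  rcases FN_or g f e with ⟨h1, h2, -⟩ | ⟨h1, h2, -⟩
  · rw [h1, h2]
  · rw [h1, h2]
    ring

theorem FN_abs (g : Gr V E) (f : V → ℝ) (e : E) : (FN_N g f).d f e = |g.d f e| := by
  unfold ALZ.Nt.d Gr.d
  rcases FN_or g f e with ⟨h1, h2, h3⟩ | ⟨h1, h2, h3⟩
  · rw [h1, h2, abs_of_nonneg (by linarith)]
  · rw [h1, h2, abs_of_nonpos (by linarith)]
    ring

theorem FN_gm (g : Gr V E) (f : V → ℝ) (e : E) (H : V → V → ℝ) (hH : ∀ x y, H x y = H y x) :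
    (FN_N g f).gm H e = g.rs H e := by
  unfold ALZ.Nt.gm Gr.rs
  rcases FN_or g f e with ⟨h1, h2, -⟩ | ⟨h1, h2, -⟩
  · rw [h1, h2]
  · rw [h1, h2, hH (g.v e) (g.u e)]
    ring

theorem FN_st (g : Gr V E) (f : V → ℝ) (e : E) (H : V → V → ℝ) (hH : ∀ x y, H x y = H y x) :
    H ((FN_N g f).s e) ((FN_N g f).t e) = H (g.u e) (g.v e) := by
  rcases FN_or g f e with ⟨h1, h2, -⟩ | ⟨h1, h2, -⟩
  · rw [h1, h2]
  · rw [h1, h2, hH (g.v e) (g.u e)]

theorem FN_ok [Fintype E] [DecidableEq V] (g : Gr V E) (f : V → ℝ) (H : V → V → ℝ) (R I : ℝ)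
    (hR : 0 < R) (hI : 0 < I) (ha : f g.a = 0) (hb : f g.b = R)
    (hfl : ∀ h : V → ℝ, ∑ e ∈ Finset.univ, g.d f e * g.d h e = I * (h g.b - h g.a))
    (hH : g.Ker Finset.univ {g.a, g.b} H) : (FN_N g f).Ok f R I H := by
  have hmem : ∀ x, x ∈ ({g.a, g.b} : Finset V) ↔ x ∉ (FN_N g f).In := by
    intro x
    rw [Finset.mem_insert, Finset.mem_singleton]
    unfold ALZ.Nt.In
    rw [Set.mem_ofPred_eq, not_and_or, not_not, not_not]
    exact Iff.rfl
  have hfw : ∀ k l : V → ℝ, (FN_N g f).fw (fun _ => 1) k l =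
      ∑ e ∈ Finset.univ, g.d k e * g.d l e := by
    intro k l
    unfold ALZ.Nt.fw
    apply Finset.sum_congr rfl
    intro e _
    rw [FN_mul, one_mul]
  constructor
  · exact hR
  · exact hI
  · exact ha
  · exact hb
  · intro e
    rw [FN_abs]
    exact abs_nonneg _
  · intro h
    refine Eq.trans ?_ (hfl h)
    apply Finset.sum_congr rfl
    intro e _
    exact FN_mul g f e f h
  · intro k hk h0 x
    by_cases hx : x ∈ ({g.a, g.b} : Finset V)
    · exact hk x ((hmem x).1 hx)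
    · rw [hfw] at h0
      have hz : ∀ e ∈ Finset.univ, g.d k e * g.d k e = 0 :=
        (Finset.sum_eq_zero_iff_of_nonneg (fun e _ => mul_self_nonneg _)).1 h0
      rw [← hH.rep x k (fun y hy => hk y ((hmem y).1 hy)) hx]
      apply Finset.sum_eq_zero
      intro e he
      rw [mul_self_eq_zero.1 (hz e he), mul_zero]
  · constructor
    · intro x hx y
      exact hH.out x ((hmem x).2 hx) y
    · intro x y hy
      exact hH.van x y ((hmem y).2 hy)
    · intro x hx h hh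
      rw [hfw]
      exact hH.rep x h (fun y hy => hh y ((hmem y).1 hy)) (fun hx' => (hmem x).1 hx' hx)

theorem FN_con [Fintype V] [Fintype E] (g : Gr V E) (h : nc (g.sp ⊥ Finset.univ) = 1)
    (σ : Setoid V) : nc (g.sp σ Finset.univ) = 1 := by
  have h1 : g.sp ⊥ Finset.univ ≤ g.sp σ Finset.univ := g.sp_mono bot_le (Finset.Subset.refl _)
  have h2 := nc_anti h1
  have : Nonempty V := ⟨g.a⟩
  have h3 := nc_pos (g.sp σ Finset.univ)
  omega

theorem FN_K [Fintype V] [Fintype E] (g : Gr V E) (h : nc (g.sp ⊥ Finset.univ) = 1) :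
    g.K ⊥ Finset.univ = 1 := by
  unfold Gr.K
  have h1 : g.sp ⊥ Finset.univ ≤ g.sp ⊥ Finset.univ ⊔ g.ab := le_sup_left
  have h2 := nc_anti h1
  have : Nonempty V := ⟨g.a⟩
  have h3 := nc_pos (g.sp ⊥ Finset.univ ⊔ g.ab)
  omega

/-- algebra of the final formula -/
theorem FN_alg (p q r m0 m1 n0 n1 S1 S2 A B a1 b1 : ℝ) (hp : 0 < p) (hq : 0 < q) (hr : r = q / p)
    (hm : p * m1 - q * m0 = -q ^ 2 + p ^ 2 * S1) (hn : q * n1 - p * n0 = -p ^ 2 + q ^ 2 * S2)
    (hS : p ^ 2 * S1 + q ^ 2 * S2 = p * q * (1 - A + 3 * B))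
    (ha : a1 = m1 - n0 + p) (hb : b1 = m0 - q - n1) :
    p * q / 2 + (p * a1 - q * b1) - (p ^ 2 + q ^ 2 - 1) / 2 =
      p * q * (3 / 2 - (r + 1 / r) / 2 - A + 3 * B) + 1 / 2 := by
  have h1 : p * q * (r + 1 / r) = q ^ 2 + p ^ 2 := by
    rw [hr]
    field_simp
  have h2 : p * q * (3 / 2 - (r + 1 / r) / 2 - A + 3 * B) =
      p * q * (1 - A + 3 * B) + p * q / 2 - p * q * (r + 1 / r) / 2 := by ring
  rw [h2, ← hS, h1, ha, hb]
  linear_combination hm + hn

/-- [FN] -/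
theorem thm_FN (_hRT : St_RT) (hPQ : St_PQ) (hPP : St_PP) (hKE : St_KE) (_hKR : St_KR)
    (hKS : St_KS) (hFL : St_FL) (hSQ : St_SQ) (hBH : St_BH) (hRL : St_RL) (hK2 : St_K2)
    (hDS : St_DS) (hDN : St_DN) (hDM : St_DM) (hM0 : St_M0) (hJE : St_JE) : St_FN := by
  intro V W E _ _ _ _ _ _ g h D hdist hcut hpq
  obtain ⟨D', -⟩ := hDS g h D
  obtain ⟨dn1, dn2, dn3, dn4⟩ := hDN g h D
  obtain ⟨dm1, dm2⟩ := hDM g h D
  obtain ⟨pq1, pq2⟩ := hPQ g Finset.univ (FN_K g D.con) D.ab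
  obtain ⟨m01, m02⟩ := hM0 g ⊥ Finset.univ
  rw [pq1] at m01
  rw [pq2] at m02
  have ne1 : ({g.a} : Finset V).Nonempty := ⟨g.a, Finset.mem_singleton_self _⟩
  have ne2 : ({g.a, g.b} : Finset V).Nonempty := ⟨g.a, Finset.mem_insert_self _ _⟩
  have ne3 : ({h.a} : Finset W).Nonempty := ⟨h.a, Finset.mem_singleton_self _⟩
  have ne4 : ({h.a, h.b} : Finset W).Nonempty := ⟨h.a, Finset.mem_insert_self _ _⟩
  have pos1 := hPP g Finset.univ {g.a} ne1 (FN_con g D.con _)
  have pos2 := hPP g Finset.univ {g.a, g.b} ne2 (FN_con g D.con _)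
  have pos3 := hPP h Finset.univ {h.a} ne3 (FN_con h D.con' _)
  have pos4 := hPP h Finset.univ {h.a, h.b} ne4 (FN_con h D.con' _)
  obtain ⟨G, hG⟩ := hKE g Finset.univ {g.a} ne1 pos1
  obtain ⟨H, hH⟩ := hKE g Finset.univ {g.a, g.b} ne2 pos2
  obtain ⟨G', hG'⟩ := hKE h Finset.univ {h.a} ne3 pos3
  obtain ⟨H', hH'⟩ := hKE h Finset.univ {h.a, h.b} ne4 pos4
  obtain ⟨symH, -, -⟩ := hKS g Finset.univ {g.a, g.b} H hH
  obtain ⟨symH', -, -⟩ := hKS h Finset.univ {h.a, h.b} H' hH'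
  obtain ⟨fl1, fl2, fl3, -⟩ := hFL g Finset.univ G D.ab hG
  obtain ⟨fl1', fl2', fl3', -⟩ := hFL h Finset.univ G' D.cd hG'
  obtain ⟨rl1, rl2⟩ := hRL g Finset.univ G H D.ab hG hH
  obtain ⟨rl1', rl2'⟩ := hRL h Finset.univ G' H' D.cd hG' hH'
  have bh := hBH g Finset.univ G H D.ab hG hH
  have bh' := hBH h Finset.univ G' H' D.cd hG' hH'
  have k1 := fun e => hK2 g Finset.univ {g.a} G e ne1 hG (Finset.mem_univ e)
  have k2 := fun e => hK2 g Finset.univ {g.a, g.b} H e ne2 hH (Finset.mem_univ e)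
  have k3 := fun e => hK2 h Finset.univ {h.a} G' e ne3 hG' (Finset.mem_univ e)
  have k4 := fun e => hK2 h Finset.univ {h.a, h.b} H' e ne4 hH' (Finset.mem_univ e)
  rw [dn1, dn2] at rl1' bh'
  rw [dn2] at k3
  rw [dn1] at k4
  have dn3' : ∀ e, (g.NF (Finset.univ.erase e) {g.a} : ℝ) +
      (h.NF (Finset.univ.erase e) {h.a, h.b} : ℝ) = (g.NF Finset.univ {g.a} : ℝ) := by
    intro e
    exact_mod_cast dn3 e
  have dn4' : ∀ e, (g.NF (Finset.univ.erase e) {g.a, g.b} : ℝ) +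
      (h.NF (Finset.univ.erase e) {h.a} : ℝ) = (g.NF Finset.univ {g.a, g.b} : ℝ) := by
    intro e
    exact_mod_cast dn4 e
  have hp : (0 : ℝ) < (g.NF Finset.univ {g.a} : ℝ) := by exact_mod_cast pos1
  have hq : (0 : ℝ) < (g.NF Finset.univ {g.a, g.b} : ℝ) := by exact_mod_cast pos2
  have hpq' : (g.NF Finset.univ {g.a} : ℝ) ≤ (g.NF Finset.univ {g.a, g.b} : ℝ) := by
    exact_mod_cast hpq
  obtain ⟨je1, je2, je3, -, -, -, je4, -⟩ := hJE (g.be ⊥ Finset.univ) (g.al ⊥ Finset.univ)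
  rw [je4, je3, m01, m02, dm1, dm2]
  push_cast
  generalize (g.NF Finset.univ {g.a} : ℝ) = p at *
  generalize (g.NF Finset.univ {g.a, g.b} : ℝ) = q at *
  have hr : 0 < q / p := div_pos hq hp
  have hGb : G g.b g.b = q / p := by
    rw [rl1]
    field_simp
  have hGb' : G' h.b h.b = p / q := by
    rw [rl1']
    field_simp
  set r := q / p with hrdef
  have hrp : p * r = q := by
    rw [hrdef]
    field_simp
  have hrq : p / q = 1 / r := by
    rw [hrdef, one_div, inv_div]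
  set x : W → ℝ := fun y => r * G' h.b y with hx
  have hdx : ∀ e, h.d x e = r * h.d (G' h.b) e := by
    intro e
    rw [hx]
    unfold Gr.d
    ring
  -- the relations between the resistances
  have tri1 : ∀ e, g.rs H e + h.rs H' e + g.d (G g.b) e ^ 2 / r = 1 := by
    intro e
    have a1 := dn3' e
    rw [k1, k4, rl2, hGb] at a1
    have a2 : p * (1 - (g.rs H e + h.rs H' e + g.d (G g.b) e ^ 2 / r)) = 0 := by
      linear_combination a1
    rcases mul_eq_zero.1 a2 with a3 | a3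
    · exact absurd a3 (ne_of_gt hp)
    · linarith
  have tri2 : ∀ e, g.rs H e + h.rs H' e + h.d (G' h.b) e ^ 2 * r = 1 := by
    intro e
    have a1 := dn4' e
    rw [k2, k3, rl2', hGb', hrq, div_div_eq_mul_div, div_one] at a1
    have a2 : q * (1 - (g.rs H e + h.rs H' e + h.d (G' h.b) e ^ 2 * r)) = 0 := by
      linear_combination a1
    rcases mul_eq_zero.1 a2 with a3 | a3
    · exact absurd a3 (ne_of_gt hq)
    · linarith
  have sq : ∀ e, g.d (G g.b) e ^ 2 = h.d x e ^ 2 := by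
    intro e
    have a1 := tri1 e
    have a2 := tri2 e
    have a3 : g.d (G g.b) e ^ 2 / r = h.d (G' h.b) e ^ 2 * r := by linarith
    rw [hdx, mul_pow]
    rw [div_eq_iff (ne_of_gt hr)] at a3
    rw [a3]
    ring
  have habs : ∀ e, |g.d (G g.b) e| = |h.d x e| := fun e =>
    (sq_eq_sq_iff_abs_eq_abs _ _).1 (sq e)
  have hxd : x h.b = 1 := by
    rw [hx]
    change r * G' h.b h.b = 1
    rw [hGb', hrq]
    field_simp
  have hxc : x h.a = 0 := by
    rw [hx]
    change r * G' h.b h.a = 0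
    rw [fl1', mul_zero]
  refine ⟨FN_N g (G g.b), FN_N h x, G g.b, x, H, H', rfl, rfl, rfl, rfl, ?_, ?_, ?_, ?_⟩
  · intro e
    rcases FN_or g (G g.b) e with ⟨h1, h2, -⟩ | ⟨h1, h2, -⟩
    · exact Or.inl ⟨h1, h2⟩
    · exact Or.inr ⟨h1, h2⟩
  · intro e
    rcases FN_or h x e with ⟨h1, h2, -⟩ | ⟨h1, h2, -⟩
    · exact Or.inl ⟨h1, h2⟩
    · exact Or.inr ⟨h1, h2⟩
  · constructor
    · constructor
      · apply FN_ok g (G g.b) H r 1 hr one_pos fl1 hGb _ hH
        intro k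
        rw [fl3 k, one_mul]
      · apply FN_ok h x H' 1 r one_pos hr hxc hxd _ hH'
        intro k
        rw [← fl3' k, Finset.mul_sum]
        apply Finset.sum_congr rfl
        intro e _
        rw [hdx]
        ring
      · intro e
        rw [FN_abs, FN_abs, habs]
      · intro e
        rw [FN_gm g (G g.b) e H symH, FN_gm h x e H' symH', FN_abs, sq_abs]
        exact tri1 e
    · rw [hrdef, le_div_iff₀ hp, one_mul]
      exact hpq'
    · intro e
      by_contra hn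
      rw [not_lt, FN_abs, habs, hdx, abs_mul, abs_of_pos hr] at hn
      have a1 : G' h.b h.b ≤ |h.d (G' h.b) e| := by
        rw [hGb', hrq, div_le_iff₀ hr, mul_comm]
        exact hn
      have a2 := hSQ h Finset.univ G' e D.cd hG' (Finset.mem_univ e) a1
      have a3 := (D.sep (Finset.univ \ {e})).1 (hcut e)
      rw [Finset.sdiff_sdiff_eq_self (Finset.subset_univ _)] at a3
      exact a3 a2
    · intro e
      by_contra hn
      rw [not_lt, FN_abs] at hn
      have a1 : G g.b g.b ≤ |g.d (G g.b) e| := by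
        rw [hGb]
        exact hn
      exact hdist e (hSQ g Finset.univ G e D.ab hG (Finset.mem_univ e) a1)
  · have hsum : ∑ e, g.d (G g.b) e ^ 2 / r = 1 := by
      have a1 := fl3 (G g.b)
      rw [fl1, hGb, sub_zero] at a1
      rw [← Finset.sum_div]
      have a2 : ∑ e, g.d (G g.b) e ^ 2 = r := by
        rw [← a1]
        apply Finset.sum_congr rfl
        intro e _
        ring
      rw [a2]
      exact div_self (ne_of_gt hr)
    unfold ALZ.zh
    have b1 : ∀ e, ((FN_N g (G g.b)).d (G g.b) e ^ 2 / r) = g.d (G g.b) e ^ 2 / r := by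
      intro e
      rw [FN_abs, sq_abs]
    have b2 : ∀ e, H ((FN_N g (G g.b)).s e) ((FN_N g (G g.b)).t e) = H (g.u e) (g.v e) :=
      fun e => FN_st g (G g.b) e H symH
    have b3 : ∀ e, H' ((FN_N h x).s e) ((FN_N h x).t e) = H' (h.u e) (h.v e) :=
      fun e => FN_st h x e H' symH'
    simp only [b1, b2, b3]
    apply FN_alg p q r _ _ _ _ _ _ _ _ _ _ hp hq hrdef bh bh' _ rfl rfl
    -- the sums
    rw [Finset.mul_sum, Finset.mul_sum, ← Finset.sum_add_distrib]
    have c1 : ∀ e ∈ (Finset.univ : Finset E), p ^ 2 * (g.d (G g.b) e ^ 2 *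
        (H (g.u e) (g.u e) + H (g.v e) (g.v e) + H (g.u e) (g.v e))) +
        q ^ 2 * (h.d (G' h.b) e ^ 2 *
        (H' (h.u e) (h.u e) + H' (h.v e) (h.v e) + H' (h.u e) (h.v e))) =
        p * q * (g.d (G g.b) e ^ 2 / r - (g.d (G g.b) e ^ 2 / r) ^ 2 +
          3 * (g.d (G g.b) e ^ 2 / r * (H (g.u e) (g.v e) + H' (h.u e) (h.v e)))) := by
      intro e _
      have a1 := tri1 e
      have a2 := tri2 e
      have a3 : h.d (G' h.b) e ^ 2 * r = g.d (G g.b) e ^ 2 / r := by linarith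
      have a4 : g.d (G g.b) e ^ 2 = g.d (G g.b) e ^ 2 / r * r := by
        field_simp
      unfold Gr.rs at a1
      generalize g.d (G g.b) e ^ 2 / r = lam at *
      rw [a4, ← hrp]
      have a5 : p ^ 2 * (lam * r * (H (g.u e) (g.u e) + H (g.v e) (g.v e) + H (g.u e) (g.v e))) +
        (p * r) ^ 2 * (h.d (G' h.b) e ^ 2 *
        (H' (h.u e) (h.u e) + H' (h.v e) (h.v e) + H' (h.u e) (h.v e))) =
        p ^ 2 * (lam * r * (H (g.u e) (g.u e) + H (g.v e) (g.v e) + H (g.u e) (g.v e))) +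
        p ^ 2 * r * (h.d (G' h.b) e ^ 2 * r) *
        (H' (h.u e) (h.u e) + H' (h.v e) (h.v e) + H' (h.u e) (h.v e)) := by ring
      rw [a5, a3]
      linear_combination p ^ 2 * r * lam * a1
    rw [Finset.sum_congr rfl c1, ← Finset.mul_sum, Finset.sum_add_distrib, Finset.sum_sub_distrib,
      hsum, ← Finset.mul_sum]

end Pool.ALT
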