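import Pool.Agent.ALT.Tu.StP

/-! # ALT, block Tu, module GE: generic edge, deletion + contraction -/

set_option autoImplicit false

namespace Pool.ALT

open LaurentPolynomial

theorem GE_split {E : Type} [DecidableEq E] (R : Finset E) (f : E) (hf : f ∈ R)
    (F F1 F2 : Finset E → LaurentPolynomial ℤ)
    (h1 : ∀ A ⊆ R.erase f, F A = F1 A) (h2 : ∀ A ⊆ R.erase f, F (insert f A) = F2 A) :
    ∑ A ∈ R.powerset, F A = ∑ A ∈ (R.erase f).powerset, F1 A + ∑ A ∈ (R.erase f).powerset, F2 A := by
  have h3 : ∑ A ∈ R.powerset, F A = ∑ A ∈ (insert f (R.erase f)).powerset, F A := by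
    rw [Finset.insert_erase hf]
  rw [h3, Finset.sum_powerset_insert (Finset.notMem_erase f R)]
  congr 1
  · exact Finset.sum_congr rfl fun A hA => h1 A (Finset.mem_powerset.1 hA)
  · exact Finset.sum_congr rfl fun A hA => h2 A (Finset.mem_powerset.1 hA)

theorem thm_GE : St_GE := by
  classical
  intro V E _ _ g σ R f hf hσ h
  have hnc : nc (σ ⊔ g.pe f) + 1 = nc σ := nc_sup_pr hσ
  have hK2 : g.K σ R = g.K (σ ⊔ g.pe f) (R.erase f) := by
    unfold Gr.K
    rw [← g.sp_insert', Finset.insert_erase hf]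
  have hK1 : g.K σ R = g.K σ (R.erase f) := by
    have h1 : g.sp σ R = g.sp σ (R.erase f) ⊔ g.pe f := by
      rw [← g.sp_insert, Finset.insert_erase hf]
    unfold Gr.K
    rw [h1, sup_assoc, sup_comm (g.pe f), ← sup_assoc]
    exact congrArg nc (sup_pr_of _ h)
  have hins : ∀ A : Finset E, g.sp σ (insert f A) = g.sp (σ ⊔ g.pe f) A := g.sp_insert' σ f
  have hnul : ∀ A ⊆ R.erase f, g.nul σ (insert f A) = g.nul (σ ⊔ g.pe f) A := by
    intro A hA
    have hfA : f ∉ A := fun h5 => Finset.notMem_erase f R (hA h5)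
    unfold Gr.nul
    rw [Finset.card_insert_of_notMem hfA, hins A]
    omega
  constructor
  · unfold Gr.be
    rw [Finset.sum_filter, Finset.sum_filter, Finset.sum_filter, ← hK1, ← hK2]
    apply GE_split R f hf
    · intro A _
      rfl
    · intro A hA
      rw [hins A, hnul A hA]
  · unfold Gr.al
    rw [Finset.sum_filter, Finset.sum_filter, Finset.sum_filter, ← hK1, ← hK2]
    apply GE_split R f hf
    · intro A _
      rfl
    · intro A hA
      rw [hins A, hnul A hA]

end Pool.ALT
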