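import Pool.Agent.ALT.Tu.StP

/-!
# ALT Tu, module JE (helper72): the fields of the jet
-/

set_option autoImplicit false

namespace Pool.ALT

open LaurentPolynomial

theorem JE_par (p q : ℤ) (h : IsCoprime p q) : ∃ k : ℤ, p * q - p ^ 2 - q ^ 2 + 1 = 2 * k := by
  have hn : ¬ (Even p ∧ Even q) := by
    rintro ⟨⟨a, ha⟩, ⟨b, hb⟩⟩
    obtain ⟨x, y, hxy⟩ := h
    have h1 : 2 * (x * a + y * b) = 1 := by
      rw [ha, hb] at hxy
      linarith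
    omega
  rcases Int.even_or_odd' p with ⟨a, ha | ha⟩ <;> rcases Int.even_or_odd' q with ⟨b, hb | hb⟩
  · exact absurd ⟨⟨a, by omega⟩, ⟨b, by omega⟩⟩ hn
  · refine ⟨a * (2 * b + 1) - 2 * a ^ 2 - 2 * b ^ 2 - 2 * b, ?_⟩
    rw [ha, hb]
    ring
  · refine ⟨b * (2 * a + 1) - 2 * b ^ 2 - 2 * a ^ 2 - 2 * a, ?_⟩
    rw [ha, hb]
    ring
  · refine ⟨2 * a * b - a - b - 2 * a ^ 2 - 2 * b ^ 2, ?_⟩
    rw [ha, hb]
    ring

theorem thm_JE : St_JE := by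
  intro P Q
  refine ⟨rfl, rfl, ?_, ?_, ?_, ?_, ?_, ?_⟩
  · simp only [jetOf]
    ring
  · simp only [jetOf]
    ring
  · simp only [jetOf]
    ring
  · simp only [jetOf, Pool.Agent.ARB.Jet.Q]
    ring
  · simp only [jetOf, Pool.Agent.ARB.Jet.Om]
    ring
  · intro h
    obtain ⟨k, hk⟩ := JE_par _ _ h
    refine ⟨k + (mo 0 P * mo 1 Q - mo 0 Q * mo 1 P), ?_⟩
    have hk' : (mo 0 P : ℚ) * mo 0 Q - (mo 0 P : ℚ) ^ 2 - (mo 0 Q : ℚ) ^ 2 + 1 = 2 * k := by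
      exact_mod_cast hk
    simp only [jetOf, Pool.Agent.ARB.Jet.Om]
    push_cast
    linear_combination hk' / 2

end Pool.ALT
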