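import Pool.Agent.ALT.Tu.StP

/-!
# ALT Tu, module JL (helper34): the jet part of `LeafLe`
-/

set_option autoImplicit false

namespace Pool.ALT

open LaurentPolynomial

theorem thm_JL (hNN : St_NN) (hSB : St_SB) (hSA : St_SA) (hM0 : St_M0) (hPO : St_PO)
    (hCU : St_CU) (hJE : St_JE) : St_JL := by
  intro V E _ _ _ g _ hn hd hc htl hcop
  obtain ⟨hN1, hN2⟩ := hNN g ⊥ Finset.univ
  obtain ⟨hM1, hM2⟩ := hM0 g ⊥ Finset.univ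
  have hsb := hSB g ⊥ Finset.univ 2 (fun A _ hA => hd A hA)
  have hsa := hSA g ⊥ Finset.univ 2 (fun A _ hA => hc A hA)
  obtain ⟨P, hP⟩ : ∃ P, P = g.be ⊥ Finset.univ := ⟨_, rfl⟩
  obtain ⟨Q, hQ⟩ : ∃ Q, Q = g.al ⊥ Finset.univ := ⟨_, rfl⟩
  obtain ⟨p, hp⟩ : ∃ p, p = g.p ⊥ Finset.univ := ⟨_, rfl⟩
  obtain ⟨q, hq⟩ : ∃ q, q = g.q ⊥ Finset.univ := ⟨_, rfl⟩
  obtain ⟨n, hnn⟩ : ∃ n, n = Fintype.card E := ⟨_, rfl⟩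
  obtain ⟨rk, hrk⟩ : ∃ rk, rk = g.rk ⊥ Finset.univ := ⟨_, rfl⟩
  rw [Finset.card_univ] at hsb hsa
  rw [← hP] at hN1 hM1 hsb htl ⊢
  rw [← hQ] at hN2 hM2 hsa htl ⊢
  rw [← hp] at hM1 htl hcop ⊢
  rw [← hq] at hM2 htl hcop ⊢
  rw [← hrk, ← hnn] at hsb hsa
  rw [← hnn] at hn ⊢
  simp only
  have sP : ∀ j : ℤ, P.coeff j ≠ 0 → (rk : ℤ) - n ≤ j ∧ j ≤ (rk : ℤ) - n + ((n : ℤ) - 2) := by
    intro j hj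
    obtain ⟨h1, h2⟩ := hsb j hj
    push_cast at h1 h2
    exact ⟨by omega, by omega⟩
  have sQ : ∀ j : ℤ, Q.coeff j ≠ 0 →
      (rk : ℤ) - n + 1 ≤ j ∧ j ≤ (rk : ℤ) - n + 1 + ((n : ℤ) - 2) := by
    intro j hj
    obtain ⟨h1, h2⟩ := hsa j hj
    push_cast at h1 h2
    exact ⟨by omega, by omega⟩
  have sQ' : ∀ j : ℤ, Q.coeff j ≠ 0 →
      (rk : ℤ) - n + 1 ≤ j ∧ j ≤ (rk : ℤ) - n + ((n : ℤ) - 2) + 1 := by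
    intro j hj
    obtain ⟨h1, h2⟩ := sQ j hj
    exact ⟨h1, by omega⟩
  obtain ⟨-, poP⟩ := hPO P ((rk : ℤ) - n) ((n : ℤ) - 2) hN1 sP
  obtain ⟨-, poQ⟩ := hPO Q ((rk : ℤ) - n + 1) ((n : ℤ) - 2) hN2 sQ
  have cu := hCU P Q ((rk : ℤ) - n) ((n : ℤ) - 2) (by omega) hN1 hN2 sP sQ' (fun k => by
    rw [hM1, hM2]
    exact htl k)
  obtain ⟨j1, j2, j3, j4, j5, j6, -, j8⟩ := hJE P Q
  have hpq : IsCoprime (mo 0 P) (mo 0 Q) := by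
    rw [hM1, hM2]
    exact Nat.isCoprime_iff_coprime.2 hcop
  have c1 : (mo 0 P : ℚ) = (p : ℚ) := by
    rw [hM1]
    exact Int.cast_natCast p
  have c2 : (mo 0 Q : ℚ) = (q : ℚ) := by
    rw [hM2]
    exact Int.cast_natCast q
  have poP' : (4 : ℚ) * ((mo 0 P : ℚ) * (mo 2 P : ℚ) - (mo 1 P : ℚ) ^ 2) ≤
      (mo 0 P : ℚ) ^ 2 * ((n : ℚ) - 2) ^ 2 := by
    exact_mod_cast poP
  have poQ' : (4 : ℚ) * ((mo 0 Q : ℚ) * (mo 2 Q : ℚ) - (mo 1 Q : ℚ) ^ 2) ≤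
      (mo 0 Q : ℚ) ^ 2 * ((n : ℚ) - 2) ^ 2 := by
    exact_mod_cast poQ
  have cu' : |(mo 0 P : ℚ) ^ 2 * ((mo 0 Q : ℚ) * (mo 2 Q : ℚ) - (mo 1 Q : ℚ) ^ 2) -
      (mo 0 Q : ℚ) ^ 2 * ((mo 0 P : ℚ) * (mo 2 P : ℚ) - (mo 1 P : ℚ) ^ 2)| ≤
      2 * ((n : ℚ) - 2) * ((mo 0 P : ℚ) * (mo 0 Q : ℚ)) *
        ((mo 0 P : ℚ) * (mo 1 Q : ℚ) - (mo 0 Q : ℚ) * (mo 1 P : ℚ)) := by
    exact_mod_cast cu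
  refine ⟨j1.trans c1, j2.trans c2, j6, j8 hpq, ?_, ?_, ?_⟩
  · rw [j4, ← c1]
    linarith
  · rw [j5, ← c2]
    linarith
  · rw [j4, j5, j3, ← c1, ← c2]
    have e1 : (mo 0 Q : ℚ) ^ 2 * -((mo 0 P : ℚ) * (mo 2 P : ℚ) - (mo 1 P : ℚ) ^ 2) -
        (mo 0 P : ℚ) ^ 2 * -((mo 0 Q : ℚ) * (mo 2 Q : ℚ) - (mo 1 Q : ℚ) ^ 2) =
        (mo 0 P : ℚ) ^ 2 * ((mo 0 Q : ℚ) * (mo 2 Q : ℚ) - (mo 1 Q : ℚ) ^ 2) -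
        (mo 0 Q : ℚ) ^ 2 * ((mo 0 P : ℚ) * (mo 2 P : ℚ) - (mo 1 P : ℚ) ^ 2) := by ring
    rw [e1]
    refine cu'.trans (le_of_eq ?_)
    ring

end Pool.ALT
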