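import Pool.Agent.ALT.Tu.StR

/-! # ALT Tu K1: one more root -/

set_option autoImplicit false

namespace Pool.ALT

open Matrix

theorem K1_det {V E : Type} [Fintype V] [DecidableEq V] (g : Gr V E) (R : Finset E)
    (W : Finset V) {v : V} (hv : v ∉ W) :
    ((g.LW R W).updateRow v (Pi.single v 1)).det = (g.LW R (insert v W)).det := by
  refine Matrix.det_eq_of_forall_row_eq_smul_add_const
    (fun y => if y = v ∨ y ∈ W then 0 else g.LW R W y v) v (by simp) ?_
  intro i j
  have hvv : g.LW R (insert v W) v j = if v = j then 1 else 0 := by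
    unfold Gr.LW
    rw [if_pos (Or.inl (Finset.mem_insert_self v W))]
  rw [hvv]
  by_cases hi : i = v
  · subst hi
    rw [Matrix.updateRow_self]
    rw [if_pos (Or.inl rfl), zero_mul, add_zero]
    unfold Gr.LW
    rw [if_pos (Or.inl (Finset.mem_insert_self i W)), Pi.single_apply]
    by_cases hj : j = i
    · subst hj
      simp
    · rw [if_neg hj, if_neg (Ne.symm hj)]
  · rw [Matrix.updateRow_ne hi]
    by_cases hiW : i ∈ W
    · rw [if_pos (Or.inr hiW), zero_mul, add_zero]
      unfold Gr.LW
      rw [if_pos (Or.inl hiW), if_pos (Or.inl (Finset.mem_insert_of_mem hiW))]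
    · rw [if_neg (by rintro (h | h); exacts [hi h, hiW h])]
      by_cases hj : j = v
      · subst hj
        rw [if_pos rfl, mul_one]
        have h1 : g.LW R (insert j W) i j = 0 := by
          unfold Gr.LW
          rw [if_pos (Or.inr (Finset.mem_insert_self j W)), if_neg hi]
        rw [h1, zero_add]
      · rw [if_neg (Ne.symm hj), mul_zero, add_zero]
        unfold Gr.LW
        by_cases hjW : j ∈ W
        · rw [if_pos (Or.inr hjW), if_pos (Or.inr (Finset.mem_insert_of_mem hjW))]
        · rw [if_neg (by rintro (h | h); exacts [hiW h, hjW h]), if_neg]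
          rintro (h | h)
          · rcases Finset.mem_insert.1 h with h | h
            · exact hi h
            · exact hiW h
          · rcases Finset.mem_insert.1 h with h | h
            · exact hj h
            · exact hjW h

theorem thm_K1 : St_MT → St_KI → St_K1 := by
  intro hMT hKI V E _ _ _ g R W G v hW hG hv
  obtain ⟨_, hdet, hinv⟩ := hKI g R W G hW hG
  rw [← hMT g R W hW, ← hMT g R (insert v W) (Finset.insert_nonempty v W), ← K1_det g R W hv,
    ← Matrix.adjugate_apply, ← hinv v v hv hv, Matrix.inv_def, Matrix.smul_apply, smul_eq_mul,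
    Ring.inverse_eq_inv', ← mul_assoc, mul_inv_cancel₀ hdet, one_mul]

end Pool.ALT
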