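import Pool.Agent.ALT.Tu.StR

/-! # ALT, block Tu, module K2: deletion of an edge -/

set_option autoImplicit false

namespace Pool.ALT

theorem K2_sum {V E : Type} [Fintype V] [DecidableEq V] (g : Gr V E) (e : E) (f : V → ℝ) :
    ∑ x, g.d (Pi.single x 1) e * f x = f (g.v e) - f (g.u e) := by
  unfold Gr.d
  simp only [Pi.single_apply, sub_mul, ite_mul, one_mul, zero_mul, Finset.sum_sub_distrib,
    Finset.sum_ite_eq, Finset.mem_univ, if_true]

theorem thm_K2 (hMT : St_MT) (hKI : St_KI) (hKS : St_KS) : St_K2 := by
  intro V E _ _ _ g R W G e hW hG he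
  obtain ⟨_, hdet, hinv⟩ := hKI g R W G hW hG
  obtain ⟨hsym, _, _⟩ := hKS g R W G hG
  set M : Matrix V V ℝ := g.LW R W with hM
  set c : V → ℝ := fun x => if x ∈ W then 0 else g.d (Pi.single x 1) e with hc
  have h1 : g.LW (R.erase e) W =
      M + Matrix.replicateCol Unit (-c) * Matrix.replicateRow Unit c := by
    ext x y
    rw [Matrix.add_apply, Matrix.mul_apply, Fintype.sum_unique, Matrix.replicateCol_apply,
      Matrix.replicateRow_apply, Pi.neg_apply]
    by_cases hxy : x ∈ W ∨ y ∈ W
    · have h2 : -c x * c y = 0 := by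
        rcases hxy with h | h
        · have : c x = 0 := if_pos h
          rw [this, neg_zero, zero_mul]
        · have : c y = 0 := if_pos h
          rw [this, mul_zero]
      rw [h2, add_zero, hM]
      unfold Gr.LW
      rw [if_pos hxy, if_pos hxy]
    · have hx : c x = g.d (Pi.single x 1) e := if_neg fun h => hxy (Or.inl h)
      have hy : c y = g.d (Pi.single y 1) e := if_neg fun h => hxy (Or.inr h)
      rw [hM, hx, hy]
      unfold Gr.LW
      rw [if_neg hxy, if_neg hxy]
      unfold Gr.Lp
      have h2 := Finset.add_sum_erase R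
        (fun e => g.d (Pi.single x 1) e * g.d (Pi.single y 1) e) he
      linarith
  have h2 := Matrix.det_add_replicateCol_mul_replicateRow (ι := Unit) (A := M)
    (isUnit_iff_ne_zero.2 hdet) (-c) c
  rw [← h1, hMT g (R.erase e) W hW, hMT g R W hW] at h2
  rw [h2]
  congr 1
  rw [Matrix.det_unique, Matrix.add_apply, Matrix.one_apply_eq, Matrix.mul_apply]
  have h3 : ∑ y, (Matrix.replicateRow Unit c * M⁻¹) default y *
      Matrix.replicateCol Unit (-c) y default = -g.rs G e := by
    have h4 : ∀ y, (Matrix.replicateRow Unit c * M⁻¹) default y *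
        Matrix.replicateCol Unit (-c) y default =
        -(g.d (Pi.single y 1) e * ∑ x, g.d (Pi.single x 1) e * G x y) := by
      intro y
      rw [Matrix.replicateCol_apply, Pi.neg_apply]
      by_cases hy : y ∈ W
      · have h5 : c y = 0 := if_pos hy
        have h6 : ∑ x, g.d (Pi.single x 1) e * G x y = 0 :=
          Finset.sum_eq_zero fun x _ => by rw [hG.van x y hy, mul_zero]
        rw [h5, h6]
        ring
      · have h5 : c y = g.d (Pi.single y 1) e := if_neg hy
        have h6 : (Matrix.replicateRow Unit c * M⁻¹) default y =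
            ∑ x, g.d (Pi.single x 1) e * G x y := by
          rw [Matrix.mul_apply]
          refine Finset.sum_congr rfl fun x _ => ?_
          rw [Matrix.replicateRow_apply]
          by_cases hx : x ∈ W
          · have h7 : c x = 0 := if_pos hx
            rw [h7, hG.out x hx y]
            ring
          · have h7 : c x = g.d (Pi.single x 1) e := if_neg hx
            rw [h7, hinv x y hx hy]
        rw [h5, h6]
        ring
    rw [Finset.sum_congr rfl fun y _ => h4 y, Finset.sum_neg_distrib,
      K2_sum g e fun y => ∑ x, g.d (Pi.single x 1) e * G x y,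
      K2_sum g e fun x => G x (g.v e), K2_sum g e fun x => G x (g.u e)]
    unfold Gr.rs
    rw [hsym (g.v e) (g.u e)]
    ring
  rw [h3]
  ring

end Pool.ALT
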