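import Pool.Agent.ALT.Tu.StR

/-! ALT, block Tu: existence of the kernel (proof by helper89 of `St_KE` of helper58). -/

set_option autoImplicit false

namespace Pool.ALT

theorem KE_d {V E : Type} [Fintype V] [DecidableEq V] (g : Gr V E) (f : V → ℝ) (e : E) :
    g.d f e = ∑ z, f z * g.d (Pi.single z 1) e := by
  unfold Gr.d
  have h1 : ∀ y : V, f y = ∑ z, f z * (Pi.single z 1 : V → ℝ) y := by
    intro y
    rw [Finset.sum_eq_single y]
    · rw [Pi.single_eq_same, mul_one]
    · intro z _ hz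
      rw [Pi.single_eq_of_ne (Ne.symm hz), mul_zero]
    · intro hy
      exact absurd (Finset.mem_univ y) hy
  rw [h1 (g.v e), h1 (g.u e), ← Finset.sum_sub_distrib]
  apply Finset.sum_congr rfl
  intro z _
  ring

theorem KE_bil {V E : Type} [Fintype V] [DecidableEq V] (g : Gr V E) (R : Finset E)
    (f k : V → ℝ) :
    ∑ e ∈ R, g.d f e * g.d k e = ∑ z, f z * ∑ y, g.Lp R z y * k y := by
  have h1 : ∀ e ∈ R, g.d f e * g.d k e =
      ∑ z, ∑ y, f z * ((g.d (Pi.single z 1) e * g.d (Pi.single y 1) e) * k y) := by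
    intro e _
    rw [KE_d g f e, KE_d g k e, Finset.sum_mul_sum]
    apply Finset.sum_congr rfl
    intro z _
    apply Finset.sum_congr rfl
    intro y _
    ring
  rw [Finset.sum_congr rfl h1, Finset.sum_comm]
  apply Finset.sum_congr rfl
  intro z _
  rw [Finset.sum_comm, Finset.mul_sum]
  apply Finset.sum_congr rfl
  intro y _
  unfold Gr.Lp
  rw [Finset.sum_mul, Finset.mul_sum]

theorem thm_KE (hMT : St_MT) : St_KE := by
  intro V E _ _ _ g R W hW hN
  classical
  obtain ⟨M, hM⟩ : ∃ M : Matrix V V ℝ, M = g.LW R W := ⟨_, rfl⟩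
  have hdet : M.det ≠ 0 := by
    rw [hM, hMT g R W hW]
    exact Nat.cast_ne_zero.2 hN.ne'
  have hinv : M⁻¹ * M = 1 := Matrix.nonsing_inv_mul M (isUnit_iff_ne_zero.2 hdet)
  refine ⟨fun x y => if x ∈ W ∨ y ∈ W then 0 else M⁻¹ x y, ?_, ?_, ?_⟩
  · intro x hx y
    exact if_pos (Or.inl hx)
  · intro x y hy
    exact if_pos (Or.inr hy)
  · intro x f hf hx
    rw [KE_bil]
    have h1 : ∀ z, (∀ y, M z y * f y = (if z ∈ W then (if z = y then 1 else 0) else
        g.Lp R z y) * f y) := by
      intro z y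
      by_cases hy : y ∈ W
      · rw [hf y hy, mul_zero, mul_zero]
      · rw [hM]
        unfold Gr.LW
        by_cases hz : z ∈ W
        · rw [if_pos (Or.inl hz), if_pos hz]
        · rw [if_neg (fun h => h.elim hz hy), if_neg hz]
    have h2 : (M⁻¹ * M).mulVec f x = f x := by
      rw [hinv, Matrix.one_mulVec]
    rw [← Matrix.mulVec_mulVec] at h2
    have h4 : ∑ z, M⁻¹ x z * ∑ y, M z y * f y = f x := h2
    rw [← h4]
    apply Finset.sum_congr rfl
    intro z _
    by_cases hz : z ∈ W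
    · show (if x ∈ W ∨ z ∈ W then 0 else M⁻¹ x z) * _ = _
      rw [if_pos (Or.inr hz), zero_mul, Finset.sum_congr rfl (fun y _ => h1 z y)]
      have h3 : ∑ y, (if z ∈ W then (if z = y then (1 : ℝ) else 0) else g.Lp R z y) * f y = 0 := by
        apply Finset.sum_eq_zero
        intro y _
        rw [if_pos hz]
        by_cases hzy : z = y
        · rw [← hzy, hf z hz, mul_zero]
        · rw [if_neg hzy, zero_mul]
      rw [h3, mul_zero]
    · show (if x ∈ W ∨ z ∈ W then 0 else M⁻¹ x z) * _ = _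
      rw [if_neg (fun h => h.elim hx hz), Finset.sum_congr rfl (fun y _ => h1 z y)]
      simp only [if_neg hz]

end Pool.ALT
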