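import Pool.Agent.ALT.Tu.StR

/-! # ALT, block Tu, [KF]: forests with one tree without root, in terms of the kernel -/

set_option autoImplicit false

namespace Pool.ALT

theorem thm_KF (hN1 : St_N1) (hK1 : St_K1) (hKR : St_KR) (hKS : St_KS) : St_KF := by
  intro V E _ _ _ g R W G hW hG
  obtain ⟨hsym, hpos, -⟩ := hKS g R W G hG
  have hout : ∀ x ∈ W, ∀ y, G x y = 0 := hG.out
  have hvan : ∀ x, ∀ y ∈ W, G x y = 0 := hG.van
  have h1 : ∀ v, v ∉ W → (g.NF R (insert v W) : ℝ) = g.NF R W * G v v := fun v hv =>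
    hK1 g R W G v hW hG hv
  have h2 : ∀ u v, u ∉ W → v ∉ W → u ≠ v → (g.NF R (insert u (insert v W)) : ℝ) =
      g.NF R W * (G u u * G v v - G u v ^ 2) := by
    intro u v hu hv huv
    have hu' : u ∉ insert v W := by
      rw [Finset.mem_insert]
      rintro (h | h)
      · exact huv h
      · exact hu h
    have h3 := hK1 g R (insert v W) _ u ⟨v, Finset.mem_insert_self v W⟩ (hKR g R W G v hG hv) hu'
    have h4 : G v v ≠ 0 := (hpos v hv).ne'
    rw [h3, h1 v hv, hsym v u]
    field_simp
  have h5 : (g.NF1 R W : ℝ) = ∑ v ∈ Finset.univ \ W, (g.NF R (insert v W) : ℝ) -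
      ∑ e ∈ R with g.u e ∉ W ∧ g.v e ∉ W ∧ g.u e ≠ g.v e,
        (g.NF R (insert (g.u e) (insert (g.v e) W)) : ℝ) := by
    have h := hN1 g R W hW
    exact_mod_cast h
  rw [h5, mul_sub, Finset.mul_sum, Finset.mul_sum]
  congr 1
  · rw [← Finset.sum_subset (Finset.subset_univ (Finset.univ \ W))]
    · apply Finset.sum_congr rfl
      intro v hv
      exact h1 v (Finset.mem_sdiff.1 hv).2
    · intro v _ hv
      have hv' : v ∈ W := by
        by_contra h
        exact hv (Finset.mem_sdiff.2 ⟨Finset.mem_univ v, h⟩)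
      rw [hout v hv' v, mul_zero]
  · rw [Finset.sum_filter]
    apply Finset.sum_congr rfl
    intro e _
    by_cases h : g.u e ∉ W ∧ g.v e ∉ W ∧ g.u e ≠ g.v e
    · rw [if_pos h]
      exact h2 _ _ h.1 h.2.1 h.2.2
    · rw [if_neg h]
      by_cases hu : g.u e ∈ W
      · rw [hout _ hu, hout _ hu]
        ring
      · by_cases hv : g.v e ∈ W
        · rw [hvan _ _ hv, hvan _ _ hv]
          ring
        · have huv : g.u e = g.v e := by
            by_contra hne
            exact h ⟨hu, hv, hne⟩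
          rw [huv]
          ring

end Pool.ALT
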