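import Pool.Agent.ALT.Tu.StR

/-! # ALT Tu KI: kernel and inverse matrix -/

set_option autoImplicit false

namespace Pool.ALT

open Matrix

section
variable {V E : Type} [Fintype V] [DecidableEq V]

theorem KI_d (g : Gr V E) (f : V → ℝ) (e : E) :
    g.d f e = ∑ y, f y * g.d (Pi.single y 1) e := by
  unfold Gr.d
  simp only [mul_sub, Finset.sum_sub_distrib]
  have h1 : ∀ x : V, ∑ y, f y * (Pi.single y 1 : V → ℝ) x = f x := by
    intro x
    rw [Finset.sum_eq_single x]
    · simp
    · intro b _ hb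
      rw [Pi.single_eq_of_ne (Ne.symm hb), mul_zero]
    · intro h
      exact absurd (Finset.mem_univ x) h
  rw [h1, h1]

theorem KI_exp (g : Gr V E) (R : Finset E) (F f : V → ℝ) :
    ∑ e ∈ R, g.d F e * g.d f e = ∑ z, F z * ∑ y, g.Lp R z y * f y := by
  have h1 : ∀ e, g.d F e * g.d f e
      = ∑ z, ∑ y, F z * (g.d (Pi.single z 1) e * g.d (Pi.single y 1) e * f y) := by
    intro e
    rw [KI_d g F e, KI_d g f e, Finset.sum_mul_sum]
    refine Finset.sum_congr rfl fun z _ => Finset.sum_congr rfl fun y _ => ?_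
    ring
  simp only [h1]
  rw [Finset.sum_comm]
  refine Finset.sum_congr rfl fun z _ => ?_
  rw [Finset.sum_comm, Finset.mul_sum]
  refine Finset.sum_congr rfl fun y _ => ?_
  unfold Gr.Lp
  rw [Finset.sum_mul, Finset.mul_sum]

theorem KI_row (g : Gr V E) (R : Finset E) (W : Finset V) (f : V → ℝ) {w : V} (hw : w ∈ W) :
    (g.LW R W *ᵥ f) w = f w := by
  simp only [mulVec, dotProduct, Gr.LW, hw, true_or, if_true]
  rw [Finset.sum_eq_single w]
  · simp
  · intro b _ hb
    rw [if_neg (Ne.symm hb), zero_mul]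
  · intro h
    exact absurd (Finset.mem_univ w) h

theorem KI_row' (g : Gr V E) (R : Finset E) (W : Finset V) {f : V → ℝ} (hf : ∀ y ∈ W, f y = 0)
    {z : V} (hz : z ∉ W) : (g.LW R W *ᵥ f) z = ∑ y, g.Lp R z y * f y := by
  simp only [mulVec, dotProduct, Gr.LW]
  refine Finset.sum_congr rfl fun y _ => ?_
  by_cases hy : y ∈ W
  · rw [hf y hy, mul_zero, mul_zero]
  · rw [if_neg]
    rintro (h | h)
    · exact hz h
    · exact hy h

theorem KI_rep (g : Gr V E) (R : Finset E) (W : Finset V) {G : V → V → ℝ} (hG : g.Ker R W G)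
    {f : V → ℝ} (hf : ∀ y ∈ W, f y = 0) {x : V} (hx : x ∉ W) :
    f x = ∑ z, G x z * (g.LW R W *ᵥ f) z := by
  rw [← hG.rep x f hf hx, KI_exp]
  refine Finset.sum_congr rfl fun z _ => ?_
  by_cases hz : z ∈ W
  · rw [hG.van x z hz, zero_mul, zero_mul]
  · rw [KI_row' g R W hf hz]

theorem KI_det (g : Gr V E) (R : Finset E) (W : Finset V) {G : V → V → ℝ} (hG : g.Ker R W G) :
    (g.LW R W).det ≠ 0 := by
  intro h0
  obtain ⟨f, hf0, hf⟩ := Matrix.exists_mulVec_eq_zero_iff.2 h0
  apply hf0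
  have h1 : ∀ y ∈ W, f y = 0 := by
    intro y hy
    rw [← KI_row g R W f hy, hf]
    rfl
  funext x
  by_cases hx : x ∈ W
  · exact h1 x hx
  · rw [KI_rep g R W hG h1 hx, hf]
    simp

end

theorem thm_KI : St_MT → St_KI := by
  intro hMT V E _ _ _ g R W G hW hG
  have hdet := KI_det g R W hG
  have h0 := hMT g R W hW
  have hpos : 0 < g.NF R W := by
    rcases Nat.eq_zero_or_pos (g.NF R W) with h | h
    · rw [h] at h0
      exact absurd (h0.trans (by simp)) hdet
    · exact h
  refine ⟨hpos, hdet, ?_⟩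
  intro x y hx hy
  have hu : IsUnit (g.LW R W).det := isUnit_iff_ne_zero.2 hdet
  have hmul : g.LW R W * (g.LW R W)⁻¹ = 1 := Matrix.mul_nonsing_inv _ hu
  have hcol : ∀ z, (g.LW R W *ᵥ fun t => (g.LW R W)⁻¹ t y) z = if z = y then 1 else 0 := by
    intro z
    have h1 := congrFun (congrFun hmul z) y
    rw [Matrix.mul_apply, Matrix.one_apply] at h1
    exact h1
  have hf : ∀ w ∈ W, (fun t => (g.LW R W)⁻¹ t y) w = 0 := by
    intro w hw
    have h1 := KI_row g R W (fun t => (g.LW R W)⁻¹ t y) hw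
    rw [hcol, if_neg] at h1
    · exact h1.symm
    · rintro rfl
      exact hy hw
  have h2 := KI_rep g R W hG hf hx
  have h3 : (g.LW R W)⁻¹ x y = ∑ z, G x z * (if z = y then 1 else 0) := by
    refine h2.trans (Finset.sum_congr rfl fun z _ => ?_)
    rw [hcol z]
  rw [h3, Finset.sum_eq_single y]
  · simp
  · intro b _ hb
    rw [if_neg hb, mul_zero]
  · intro h
    exact absurd (Finset.mem_univ y) h

end Pool.ALT
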