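import Pool.Agent.ALT.Tu.StR

/-! # ALT, block Tu: [KR] restriction of the kernel -/

set_option autoImplicit false

namespace Pool.ALT

theorem thm_KR (hKS : St_KS) : St_KR := by
  intro V E _ g R W G v hG hv
  obtain ⟨hsym, hpos, -⟩ := hKS g R W G hG
  have hvv := hpos v hv
  have hne : G v v ≠ 0 := hvv.ne'
  refine ⟨?_, ?_, ?_⟩
  · intro x hx y
    rcases Finset.mem_insert.1 hx with rfl | hx
    · show G x y - G x x * G x y / G x x = 0
      field_simp
      ring
    · show G x y - G x v * G v y / G v v = 0
      rw [hG.out x hx y, hG.out x hx v]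
      ring
  · intro x y hy
    rcases Finset.mem_insert.1 hy with rfl | hy
    · show G x y - G x y * G y y / G y y = 0
      field_simp
      ring
    · show G x y - G x v * G v y / G v v = 0
      rw [hG.van x y hy, hG.van v y hy]
      ring
  · intro x f hf hx
    have hxv : x ≠ v := fun h => hx (Finset.mem_insert.2 (Or.inl h))
    have hxW : x ∉ W := fun h => hx (Finset.mem_insert.2 (Or.inr h))
    have hfW : ∀ y ∈ W, f y = 0 := fun y hy => hf y (Finset.mem_insert.2 (Or.inr hy))
    have hfv : f v = 0 := hf v (Finset.mem_insert_self v W)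
    have h1 := hG.rep x f hfW hxW
    have h2 := hG.rep v f hfW hv
    have h3 : ∀ e, g.d ((fun x y => G x y - G x v * G v y / G v v) x) e * g.d f e
        = g.d (G x) e * g.d f e - G x v / G v v * (g.d (G v) e * g.d f e) := by
      intro e
      unfold Gr.d
      ring
    rw [Finset.sum_congr rfl fun e _ => h3 e, Finset.sum_sub_distrib, ← Finset.mul_sum, h1, h2, hfv]
    ring

end Pool.ALT
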