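import Mathlib
import Pool.Agent.ALT.Tu.StR

/-! # ALT, block Tu: [KS] elementary properties of the kernel (helper25) -/

set_option autoImplicit false

namespace Pool.ALT

theorem KS_symm {V E : Type} [DecidableEq V] (g : Gr V E) (R : Finset E) (W : Finset V)
    (G : V → V → ℝ) (h : g.Ker R W G) (x y : V) : G x y = G y x := by
  by_cases hx : x ∈ W
  · rw [h.out x hx, h.van y x hx]
  · by_cases hy : y ∈ W
    · rw [h.van x y hy, h.out y hy]
    · rw [← h.rep y (G x) (fun z hz => h.van x z hz) hy, ← h.rep x (G y) (fun z hz => h.van y z hz) hx]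
      exact Finset.sum_congr rfl fun e _ => mul_comm _ _

/-- [KS] -/
theorem thm_KS : St_KS := by
  intro V E _ g R W G h
  refine ⟨KS_symm g R W G h, fun x hx => ?_, fun G' h' => ?_⟩
  · have h1 := h.rep x (G x) (fun z hz => h.van x z hz) hx
    have h2 : 0 ≤ G x x := by
      rw [← h1]
      exact Finset.sum_nonneg fun e _ => mul_self_nonneg _
    rcases h2.lt_or_eq with h3 | h3
    · exact h3
    · exfalso
      rw [← h3] at h1
      have h4 := (Finset.sum_eq_zero_iff_of_nonneg fun e _ => mul_self_nonneg _).1 h1
      have h5 := h.rep x (Pi.single x 1) (fun z hz => ?_) hx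
      · rw [Finset.sum_eq_zero fun e he => ?_, Pi.single_eq_same] at h5
        · exact zero_ne_one h5
        · rw [mul_self_eq_zero.1 (h4 e he), zero_mul]
      · rw [Pi.single_eq_of_ne]
        rintro rfl
        exact hx hz
  · funext x y
    by_cases hx : x ∈ W
    · rw [h.out x hx, h'.out x hx]
    · by_cases hy : y ∈ W
      · rw [h.van x y hy, h'.van x y hy]
      · rw [KS_symm g R W G' h' x y, ← h'.rep y (G x) (fun z hz => h.van x z hz) hy,
          ← h.rep x (G' y) (fun z hz => h'.van y z hz) hx]
        exact Finset.sum_congr rfl fun e _ => mul_comm _ _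

end Pool.ALT
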