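import Pool.Agent.ALT.Tu.StP

/-! # ALT, block Tu: the total masses are the numbers of trees -/

set_option autoImplicit false

namespace Pool.ALT

open LaurentPolynomial

variable {V E : Type}

theorem M0_T (hMO : St_MO) (n : ℤ) : mo 0 (T n : LaurentPolynomial ℤ) = 1 := by
  have h := hMO.2.1 0 1 n
  rw [map_one, one_mul, pow_zero, one_mul] at h
  exact h

theorem M0_one (hMO : St_MO) : mo 0 (1 : LaurentPolynomial ℤ) = 1 := by
  have h := M0_T hMO 0
  rwa [T_zero] at h

theorem M0_uu (hMO : St_MO) : mo 0 uu = 0 := by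
  have h := hMO.1 0 uu 1
  have h1 : uu + 1 = (T 1 : LaurentPolynomial ℤ) := by
    unfold uu
    ring
  rw [h1, M0_T hMO, M0_one hMO] at h
  linarith

theorem M0_vv (hMO : St_MO) : mo 0 vv = 0 := by
  have h := hMO.1 0 vv 1
  have h1 : vv + 1 = (T (-1) : LaurentPolynomial ℤ) := by
    unfold vv
    ring
  rw [h1, M0_T hMO, M0_one hMO] at h
  linarith

theorem M0_pow (hMO : St_MO) (P : LaurentPolynomial ℤ) (hP : mo 0 P = 0) (i : ℕ) :
    mo 0 (P ^ i) = if i = 0 then 1 else 0 := by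
  cases i with
  | zero => rw [pow_zero, M0_one hMO, if_pos rfl]
  | succ i =>
    rw [pow_succ, (hMO.2.2 (P ^ i) P).1, hP, mul_zero, if_neg (Nat.succ_ne_zero i)]

theorem M0_term (hMO : St_MO) (i j : ℕ) :
    mo 0 (uu ^ i * vv ^ j) = if i = 0 ∧ j = 0 then 1 else 0 := by
  rw [(hMO.2.2 (uu ^ i) (vv ^ j)).1, M0_pow hMO uu (M0_uu hMO) i, M0_pow hMO vv (M0_vv hMO) j]
  by_cases hi : i = 0
  · by_cases hj : j = 0
    · rw [if_pos hi, if_pos hj, if_pos ⟨hi, hj⟩, one_mul]
    · rw [if_pos hi, if_neg hj, if_neg (fun h => hj h.2), mul_zero]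
  · rw [if_neg hi, zero_mul, if_neg (fun h => hi h.1)]

theorem M0_sum (hMO : St_MO) {ι : Type} (s : Finset ι) (F : ι → LaurentPolynomial ℤ) :
    mo 0 (∑ i ∈ s, F i) = ∑ i ∈ s, mo 0 (F i) :=
  map_sum (AddMonoidHom.mk' (mo 0) (hMO.1 0)) F s

theorem M0_K [Finite V] (g : Gr V E) (σ : Setoid V) {R A : Finset E} (hA : A ⊆ R) :
    g.K σ R ≤ nc (g.sp σ A) :=
  nc_anti ((Gr.sp_mono g le_rfl hA).trans le_sup_left)

theorem M0_K1 [Finite V] (g : Gr V E) (σ : Setoid V) {R A : Finset E} (hA : A ⊆ R)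
    (hab : ¬ g.sp σ A g.a g.b) : g.K σ R + 1 ≤ nc (g.sp σ A) := by
  have h1 : nc (g.sp σ A ⊔ g.ab) + 1 = nc (g.sp σ A) := nc_sup_pr hab
  have h2 : g.K σ R ≤ nc (g.sp σ A ⊔ g.ab) :=
    nc_anti (sup_le_sup_right (Gr.sp_mono g le_rfl hA) g.ab)
  omega

theorem M0_joined [Finite V] (g : Gr V E) (σ : Setoid V) {R A : Finset E} (hA : A ⊆ R)
    (h : nc (g.sp σ A) = g.K σ R) : g.sp σ A g.a g.b := by
  have h1 : g.sp σ A = g.sp σ R ⊔ g.ab :=
    eq_of_le_of_nc ((Gr.sp_mono g le_rfl hA).trans le_sup_left) h.le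
  rw [h1]
  exact (le_sup_right : g.ab ≤ g.sp σ R ⊔ g.ab) (pr_rel g.a g.b)

theorem thm_M0 (hMO : St_MO) : St_M0 := by
  intro V E _ _ g σ R
  constructor
  · unfold Gr.be Gr.p
    rw [M0_sum hMO, Finset.sum_filter, Finset.card_filter, Nat.cast_sum]
    apply Finset.sum_congr rfl
    intro A hA
    have hA' := Finset.mem_powerset.1 hA
    have h1 := M0_K g σ hA'
    have h2 := g.nc_le_add_card σ A
    rw [M0_term hMO]
    by_cases hab : g.sp σ A g.a g.b
    · rw [if_pos hab]
      by_cases hc : nc (g.sp σ A) = g.K σ R ∧ A.card + nc (g.sp σ A) = nc σ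
      · rw [if_pos hc, if_pos]
        · rfl
        · unfold Gr.nul
          omega
      · rw [if_neg hc, if_neg]
        · rfl
        · intro h
          apply hc
          unfold Gr.nul at h
          omega
    · rw [if_neg hab, if_neg]
      · rfl
      · intro h
        exact hab (M0_joined g σ hA' h.1)
  · unfold Gr.al Gr.q
    rw [M0_sum hMO, Finset.sum_filter, Finset.card_filter, Nat.cast_sum]
    apply Finset.sum_congr rfl
    intro A hA
    have hA' := Finset.mem_powerset.1 hA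
    have h2 := g.nc_le_add_card σ A
    rw [M0_term hMO]
    by_cases hab : g.sp σ A g.a g.b
    · rw [if_neg (not_not.2 hab), if_neg]
      · rfl
      · intro h
        exact h.2.1 hab
    · have h1 := M0_K1 g σ hA' hab
      rw [if_pos hab]
      by_cases hc : nc (g.sp σ A) = g.K σ R + 1 ∧ ¬ g.sp σ A g.a g.b ∧
          A.card + nc (g.sp σ A) = nc σ
      · rw [if_pos hc, if_pos]
        · rfl
        · unfold Gr.nul
          omega
      · rw [if_neg hc, if_neg]
        · rfl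
        · intro h
          apply hc
          unfold Gr.nul at h
          exact ⟨by omega, hab, by omega⟩

end Pool.ALT
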