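import Pool.Agent.ALT.Tu.StP

/-! # ALT, block Tu: [M1] the first moments -/

set_option autoImplicit false

namespace Pool.ALT

open LaurentPolynomial

theorem M1_zero (hMO : St_MO) (r : ℕ) : mo r 0 = 0 := by
  have h := hMO.1 r 0 0
  rw [add_zero] at h
  omega

theorem M1_sum (hMO : St_MO) (r : ℕ) {ι : Type} (s : Finset ι) (F : ι → LaurentPolynomial ℤ) :
    mo r (∑ i ∈ s, F i) = ∑ i ∈ s, mo r (F i) := by
  classical
  induction s using Finset.induction_on with
  | empty => rw [Finset.sum_empty, Finset.sum_empty, M1_zero hMO]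
  | insert a s ha ih => rw [Finset.sum_insert ha, Finset.sum_insert ha, hMO.1, ih]

theorem M1_T (hMO : St_MO) (r : ℕ) (n : ℤ) : mo r (T n) = n ^ r := by
  have h := hMO.2.1 r 1 n
  rw [map_one, one_mul, mul_one] at h
  exact h

theorem M1_one (hMO : St_MO) (r : ℕ) : mo r 1 = 0 ^ r := by
  rw [← T_zero]
  exact M1_T hMO r 0

theorem M1_sub (hMO : St_MO) (r : ℕ) (P Q : LaurentPolynomial ℤ) :
    mo r (P - Q) = mo r P - mo r Q := by
  have h := hMO.1 r (P - Q) Q
  rw [sub_add_cancel] at h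
  omega

theorem M1_u0 (hMO : St_MO) : mo 0 uu = 0 := by
  rw [uu, M1_sub hMO, M1_T hMO, M1_one hMO]
  norm_num

theorem M1_u1 (hMO : St_MO) : mo 1 uu = 1 := by
  rw [uu, M1_sub hMO, M1_T hMO, M1_one hMO]
  norm_num

theorem M1_v0 (hMO : St_MO) : mo 0 vv = 0 := by
  rw [vv, M1_sub hMO, M1_T hMO, M1_one hMO]
  norm_num

theorem M1_v1 (hMO : St_MO) : mo 1 vv = -1 := by
  rw [vv, M1_sub hMO, M1_T hMO, M1_one hMO]
  norm_num

theorem M1_pow0 (hMO : St_MO) (P : LaurentPolynomial ℤ) (hP : mo 0 P = 0) (i : ℕ) :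
    mo 0 (P ^ i) = if i = 0 then 1 else 0 := by
  cases i with
  | zero =>
    rw [pow_zero, M1_one hMO]
    simp
  | succ i =>
    rw [pow_succ, (hMO.2.2 _ _).1, hP, mul_zero, if_neg (Nat.succ_ne_zero i)]

theorem M1_pow1 (hMO : St_MO) (P : LaurentPolynomial ℤ) (hP : mo 0 P = 0) (i : ℕ) :
    mo 1 (P ^ i) = if i = 1 then mo 1 P else 0 := by
  cases i with
  | zero =>
    rw [pow_zero, M1_one hMO]
    simp
  | succ i =>
    rw [pow_succ, (hMO.2.2 _ _).2.1, hP, mul_zero, zero_add, M1_pow0 hMO P hP]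
    by_cases h : i = 0
    · simp [h]
    · simp [h]

theorem M1_term (hMO : St_MO) (i j : ℕ) :
    mo 1 (uu ^ i * vv ^ j) =
      (if i = 1 ∧ j = 0 then 1 else 0) - (if i = 0 ∧ j = 1 then 1 else 0) := by
  rw [(hMO.2.2 _ _).2.1, M1_pow0 hMO _ (M1_u0 hMO), M1_pow0 hMO _ (M1_v0 hMO),
    M1_pow1 hMO _ (M1_u0 hMO), M1_pow1 hMO _ (M1_v0 hMO), M1_u1 hMO, M1_v1 hMO]
  by_cases h0 : i = 0
  · by_cases h1 : j = 1
    · simp [h0, h1]
    · simp [h0, h1]
  · by_cases h1 : i = 1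
    · by_cases h2 : j = 0
      · simp [h1, h2]
      · simp [h1, h2]
    · simp [h0, h1]

open Classical in
theorem M1_count {E : Type} (S : Finset (Finset E)) (p q1 q2 : Finset E → Prop) :
    (∑ A ∈ S with p A, ((if q1 A then (1 : ℤ) else 0) - (if q2 A then (1 : ℤ) else 0))) =
      ((S.filter fun A => p A ∧ q1 A).card : ℤ) - ((S.filter fun A => p A ∧ q2 A).card : ℤ) := by
  rw [Finset.sum_sub_distrib, Finset.sum_boole, Finset.sum_boole, Finset.filter_filter,
    Finset.filter_filter]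

theorem M1_K_le {V E : Type} [Finite V] (g : Gr V E) (σ : Setoid V) {A R : Finset E}
    (hA : A ⊆ R) : g.K σ R ≤ nc (g.sp σ A) :=
  nc_anti ((g.sp_mono le_rfl hA).trans le_sup_left)

theorem M1_K_lt {V E : Type} [Finite V] (g : Gr V E) (σ : Setoid V) {A R : Finset E}
    (hA : A ⊆ R) (h : ¬ g.sp σ A g.a g.b) : g.K σ R + 1 ≤ nc (g.sp σ A) := by
  have h1 := nc_sup_pr h
  have h2 : g.K σ R ≤ nc (g.sp σ A ⊔ pr g.a g.b) :=
    nc_anti (sup_le_sup (g.sp_mono le_rfl hA) le_rfl)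
  omega

theorem thm_M1 (hMO : St_MO) : St_M1 := by
  classical
  intro V E _ _ g σ R
  constructor
  · rw [Gr.be, M1_sum hMO]
    have h1 : ∀ A ∈ R.powerset.filter (fun A => g.sp σ A g.a g.b),
        mo 1 (uu ^ (nc (g.sp σ A) - g.K σ R) * vv ^ g.nul σ A) =
        (if (nc (g.sp σ A) = g.K σ R + 1 ∧ A.card + nc (g.sp σ A) = nc σ) then (1 : ℤ) else 0) -
        (if (nc (g.sp σ A) = g.K σ R ∧ A.card + nc (g.sp σ A) = nc σ + 1) then (1 : ℤ) else 0) := by
      intro A hA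
      rw [Finset.mem_filter, Finset.mem_powerset] at hA
      rw [M1_term hMO]
      have h2 := M1_K_le g σ hA.1
      have h3 := g.nc_le_add_card σ A
      have e1 : (nc (g.sp σ A) - g.K σ R = 1 ∧ g.nul σ A = 0) ↔
          (nc (g.sp σ A) = g.K σ R + 1 ∧ A.card + nc (g.sp σ A) = nc σ) := by
        unfold Gr.nul
        omega
      have e2 : (nc (g.sp σ A) - g.K σ R = 0 ∧ g.nul σ A = 1) ↔
          (nc (g.sp σ A) = g.K σ R ∧ A.card + nc (g.sp σ A) = nc σ + 1) := by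
        unfold Gr.nul
        omega
      rw [if_congr e1 rfl rfl, if_congr e2 rfl rfl]
    have h4 := M1_count R.powerset (fun A => g.sp σ A g.a g.b)
      (fun A => nc (g.sp σ A) = g.K σ R + 1 ∧ A.card + nc (g.sp σ A) = nc σ)
      (fun A => nc (g.sp σ A) = g.K σ R ∧ A.card + nc (g.sp σ A) = nc σ + 1)
    rw [Finset.sum_congr rfl h1]
    refine Eq.trans ?_ (h4.trans ?_)
    · refine Finset.sum_congr (by ext A; simp) fun A _ => ?_
      congr
    · congr
  · rw [Gr.al, M1_sum hMO]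
    have h1 : ∀ A ∈ R.powerset.filter (fun A => ¬ g.sp σ A g.a g.b),
        mo 1 (uu ^ (nc (g.sp σ A) - g.K σ R - 1) * vv ^ g.nul σ A) =
        (if (nc (g.sp σ A) = g.K σ R + 2 ∧ A.card + nc (g.sp σ A) = nc σ) then (1 : ℤ) else 0) -
        (if (nc (g.sp σ A) = g.K σ R + 1 ∧ A.card + nc (g.sp σ A) = nc σ + 1)
          then (1 : ℤ) else 0) := by
      intro A hA
      rw [Finset.mem_filter, Finset.mem_powerset] at hA
      rw [M1_term hMO]
      have h2 := M1_K_lt g σ hA.1 hA.2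
      have h3 := g.nc_le_add_card σ A
      have e1 : (nc (g.sp σ A) - g.K σ R - 1 = 1 ∧ g.nul σ A = 0) ↔
          (nc (g.sp σ A) = g.K σ R + 2 ∧ A.card + nc (g.sp σ A) = nc σ) := by
        unfold Gr.nul
        omega
      have e2 : (nc (g.sp σ A) - g.K σ R - 1 = 0 ∧ g.nul σ A = 1) ↔
          (nc (g.sp σ A) = g.K σ R + 1 ∧ A.card + nc (g.sp σ A) = nc σ + 1) := by
        unfold Gr.nul
        omega
      rw [if_congr e1 rfl rfl, if_congr e2 rfl rfl]
    have h4 := M1_count R.powerset (fun A => ¬ g.sp σ A g.a g.b)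
      (fun A => nc (g.sp σ A) = g.K σ R + 2 ∧ A.card + nc (g.sp σ A) = nc σ)
      (fun A => nc (g.sp σ A) = g.K σ R + 1 ∧ A.card + nc (g.sp σ A) = nc σ + 1)
    rw [Finset.sum_congr rfl h1]
    refine Eq.trans ?_ (h4.trans ?_)
    · refine Finset.sum_congr (by ext A; simp) fun A _ => ?_
      congr
    · congr

end Pool.ALT
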