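import Pool.Agent.ALT.Tu.StP

/-! # ALT, block Tu: the moments of Laurent polynomials -/

set_option autoImplicit false

namespace Pool.ALT

open LaurentPolynomial

theorem MO_sum (r : ℕ) (P : LaurentPolynomial ℤ) :
    mo r P = P.coeff.sum (fun j c => j ^ r * c) := rfl

theorem MO_add (r : ℕ) (P Q : LaurentPolynomial ℤ) : mo r (P + Q) = mo r P + mo r Q := by
  rw [MO_sum, MO_sum, MO_sum]
  have h : (P + Q).coeff = P.coeff + Q.coeff := AddMonoidAlgebra.coeff_add P Q
  rw [h]
  exact Finsupp.sum_add_index' (fun a => mul_zero _) (fun a b c => mul_add _ _ _)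

theorem MO_CT (r : ℕ) (c n : ℤ) : mo r (C c * T n) = n ^ r * c := by
  rw [MO_sum, ← LaurentPolynomial.single_eq_C_mul_T, AddMonoidAlgebra.coeff_single,
    Finsupp.sum_single_index (mul_zero _)]

theorem MO_mulCT (c n d m : ℤ) :
    (C c * T n * (C d * T m) : LaurentPolynomial ℤ) = C (c * d) * T (n + m) := by
  rw [map_mul, T_add]
  ring

theorem thm_MO : St_MO := by
  refine ⟨MO_add, MO_CT, ?_⟩
  intro P Q
  induction P using LaurentPolynomial.induction_on' with
  | add P P' h1 h2 =>
    obtain ⟨a1, a2, a3⟩ := h1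
    obtain ⟨b1, b2, b3⟩ := h2
    rw [add_mul]
    simp only [MO_add]
    rw [a1, a2, a3, b1, b2, b3]
    refine ⟨by ring, by ring, by ring⟩
  | C_mul_T n c =>
    induction Q using LaurentPolynomial.induction_on' with
    | add Q Q' h1 h2 =>
      obtain ⟨a1, a2, a3⟩ := h1
      obtain ⟨b1, b2, b3⟩ := h2
      rw [mul_add]
      simp only [MO_add]
      rw [a1, a2, a3, b1, b2, b3]
      refine ⟨by ring, by ring, by ring⟩
    | C_mul_T m d =>
      rw [MO_mulCT]
      simp only [MO_CT]
      refine ⟨by ring, by ring, by ring⟩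

end Pool.ALT
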