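import Mathlib
import Pool.Agent.ALT.Tu.StR

/-! # ALT, block Tu: [MT] the matrix tree theorem for rooted forests (helper25) -/

set_option autoImplicit false

namespace Pool.ALT

/-- [MT] -/
theorem thm_MT (hRN : St_RN) (hRB : St_RB) (hDR : St_DR) (hDB : St_DB) : St_MT := by
  intro V E _ _ _ g R
  have key : ∀ (n : ℕ) (R : Finset E), R.card = n → ∀ W : Finset V, W.Nonempty →
      (g.LW R W).det = g.NF R W := by
    intro n
    induction n using Nat.strong_induction_on with
    | _ n ih =>
      intro R hR W hW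
      by_cases h : ∃ e ∈ R, ¬ (g.u e ∈ W ↔ g.v e ∈ W)
      · obtain ⟨e, he, hne⟩ := h
        have hc : (R.erase e).card < n := by
          rw [← hR]
          exact Finset.card_erase_lt_of_mem he
        obtain ⟨w, x, hw, hx, hwx⟩ : ∃ w x, w ∈ W ∧ x ∉ W ∧
            ((g.u e = w ∧ g.v e = x) ∨ (g.u e = x ∧ g.v e = w)) := by
          by_cases hu : g.u e ∈ W
          · exact ⟨g.u e, g.v e, hu, fun hv => hne ⟨fun _ => hv, fun _ => hu⟩, Or.inl ⟨rfl, rfl⟩⟩
          · refine ⟨g.v e, g.u e, ?_, hu, Or.inr ⟨rfl, rfl⟩⟩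
            by_contra hv
            exact hne ⟨fun h => absurd h hu, fun h => absurd h hv⟩
        rw [hDR g R W e w x he hw hx hwx, hRN g R W e w x he hw hx hwx, ih _ hc _ rfl W hW,
          ih _ hc _ rfl (insert x W) (Finset.insert_nonempty x W)]
        push_cast
        rfl
      · push Not at h
        have : Nonempty V := ⟨hW.choose⟩
        by_cases hWu : W = Finset.univ
        · subst hWu
          rw [(hDB g R).1, (hRB g R).1, Nat.cast_one]
        · rw [(hDB g R).2 W hWu h, (hRB g R).2 W hW hWu h, Nat.cast_zero]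
  intro W hW
  exact key _ R rfl W hW

end Pool.ALT
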