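import Pool.Agent.ALT.Tu.StR

/-! # ALT, block Tu, [N1]: forests with one tree without root -/

set_option autoImplicit false

namespace Pool.ALT

variable {V E : Type}

open Classical in
/-- the vertices which are not joined with `w` -/
noncomputable def N1_S [Fintype V] (g : Gr V E) (W : Finset V) (w : V) (A : Finset E) : Finset V :=
  Finset.univ.filter fun v => ¬ g.sp (rt W) A v w

open Classical in
/-- the edges of `A` which are not joined with `w` -/
noncomputable def N1_C (g : Gr V E) (W : Finset V) (w : V) (A : Finset E) : Finset E :=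
  A.filter fun e => ¬ g.sp (rt W) A (g.u e) w

/-- the auxiliary partition: all of `S` together, outside of `S` the partition `τ` -/
def N1_mu (S : Finset V) (τ : Setoid V) : Setoid V where
  r x y := (x ∈ S ∧ y ∈ S) ∨ (x ∉ S ∧ y ∉ S ∧ τ x y)
  iseqv := by
    constructor
    · intro x
      by_cases h : x ∈ S
      · exact Or.inl ⟨h, h⟩
      · exact Or.inr ⟨h, h, τ.refl' x⟩
    · rintro x y (⟨h1, h2⟩ | ⟨h1, h2, h3⟩)
      · exact Or.inl ⟨h2, h1⟩
      · exact Or.inr ⟨h2, h1, τ.symm' h3⟩
    · rintro x y z (⟨h1, h2⟩ | ⟨h1, h2, h3⟩) (⟨h1', h2'⟩ | ⟨h1', h2', h3'⟩)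
      · exact Or.inl ⟨h1, h2'⟩
      · exact absurd h2 h1'
      · exact absurd h1' h2
      · exact Or.inr ⟨h1, h2', τ.trans' h3 h3'⟩

theorem N1_rt_le {W W' : Finset V} (h : W ⊆ W') : rt W ≤ rt W' := by
  rw [Setoid.le_def]
  rintro x y (h1 | ⟨h1, h2⟩)
  · exact Or.inl h1
  · exact Or.inr ⟨h h1, h h2⟩

theorem N1_joined (g : Gr V E) (W : Finset V) (A : Finset E) {x w : V} (hx : x ∈ W) (hw : w ∈ W) :
    g.sp (rt W) A x w :=
  g.le_sp (rt W) A (Or.inr ⟨hx, hw⟩)

theorem N1_edge (g : Gr V E) (W : Finset V) {A : Finset E} {e : E} (he : e ∈ A) :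
    g.sp (rt W) A (g.u e) (g.v e) :=
  g.pe_le_sp (rt W) he (pr_rel _ _)

variable [Fintype V] [DecidableEq V]

/-- (iii) -/
theorem N1_iii (hRT : St_RT) (g : Gr V E) (W : Finset V) (w : V) (hw : w ∈ W) (A : Finset E)
    (h1 : A.card + W.card + 1 = Fintype.card V) (h2 : nc (g.sp (rt W) A) = 2) :
    (N1_S g W w A).card = (N1_C g W w A).card + 1 := by
  classical
  obtain ⟨-, -, -, hcard⟩ := hRT (V := V)
  set S := N1_S g W w A with hS
  set C := N1_C g W w A with hC
  have memS : ∀ x, x ∈ S ↔ ¬ g.sp (rt W) A x w := by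
    intro x
    rw [hS]
    unfold N1_S
    simp only [Finset.mem_filter, Finset.mem_univ, true_and]
  have memC : ∀ e, e ∈ C ↔ e ∈ A ∧ g.u e ∈ S := by
    intro e
    rw [memS, hC]
    unfold N1_C
    simp only [Finset.mem_filter]
  have hCA : C ⊆ A := fun e he => ((memC e).1 he).1
  have hvS : ∀ e, e ∈ A → (g.u e ∈ S ↔ g.v e ∈ S) := by
    intro e he
    rw [memS, memS, not_iff_not]
    have h := N1_edge g W he
    constructor
    · intro h'
      exact (g.sp (rt W) A).trans' ((g.sp (rt W) A).symm' h) h'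
    · intro h'
      exact (g.sp (rt W) A).trans' h h'
  have hWS : ∀ x, x ∈ W → x ∉ S := by
    intro x hx
    rw [memS, not_not]
    exact N1_joined g W A hx hw
  set T := Finset.univ \ S with hT
  have memT : ∀ x, x ∈ T ↔ x ∉ S := by
    intro x
    rw [hT]
    simp
  have hWT : W ⊆ T := fun x hx => (memT x).2 (hWS x hx)
  have hTne : T.Nonempty := ⟨w, hWT hw⟩
  have hTc : T.card + S.card = Fintype.card V := by
    rw [hT, Finset.card_univ_sdiff]
    have := Finset.card_le_univ S
    omega
  have hrT := hcard T hTne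
  have hrW := hcard W ⟨w, hw⟩
  -- first inequality
  have e1 : g.sp (rt W) A ≤ g.sp (rt T) C := by
    apply g.sp_le
    · exact (N1_rt_le hWT).trans (g.le_sp _ _)
    · intro e he
      by_cases hu : g.u e ∈ S
      · exact g.pe_le_sp (rt T) ((memC e).2 ⟨he, hu⟩) (pr_rel _ _)
      · have hv : g.v e ∉ S := fun h => hu ((hvS e he).2 h)
        exact g.le_sp (rt T) C (Or.inr ⟨(memT _).2 hu, (memT _).2 hv⟩)
  have n1 := nc_anti e1
  have n2 := g.nc_le_add_card (rt T) C
  -- second inequality
  set B := A \ C with hB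
  have hBc : B.card + C.card = A.card := by
    rw [hB]
    exact Finset.card_sdiff_add_card_eq_card hCA
  have e2 : g.sp (rt W) A ≤ N1_mu S (g.sp (rt W) B) := by
    apply g.sp_le
    · rw [Setoid.le_def]
      rintro x y (h | ⟨hx, hy⟩)
      · subst h
        exact (N1_mu S (g.sp (rt W) B)).refl' x
      · exact Or.inr ⟨hWS x hx, hWS y hy, N1_joined g W B hx hy⟩
    · intro e he
      by_cases hu : g.u e ∈ S
      · exact Or.inl ⟨hu, (hvS e he).1 hu⟩
      · have hv : g.v e ∉ S := fun h => hu ((hvS e he).2 h)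
        have heB : e ∈ B := by
          rw [hB, Finset.mem_sdiff]
          exact ⟨he, fun h => hu ((memC e).1 h).2⟩
        exact Or.inr ⟨hu, hv, N1_edge g W heB⟩
  have e3 : rt T ≤ g.sp (rt W) B := by
    have key : ∀ x, x ∈ T → g.sp (rt W) B x w := by
      intro x hx
      have hx' : g.sp (rt W) A x w := by
        by_contra h
        exact (memT x).1 hx ((memS x).2 h)
      rcases e2 hx' with ⟨_, h⟩ | ⟨_, _, h⟩
      · exact absurd h (hWS w hw)
      · exact h
    rw [Setoid.le_def]
    rintro x y (h | ⟨hx, hy⟩)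
    · subst h
      exact (g.sp (rt W) B).refl' x
    · exact (g.sp (rt W) B).trans' (key x hx) ((g.sp (rt W) B).symm' (key y hy))
  have n3 := nc_anti e3
  have n4 := g.nc_le_add_card (rt W) B
  omega

/-- the set counted by `NF1` -/
noncomputable def N1_F (g : Gr V E) (R : Finset E) (W : Finset V) : Finset (Finset E) := by
  classical
  exact R.powerset.filter fun A => A.card + W.card + 1 = Fintype.card V ∧ nc (g.sp (rt W) A) = 2

omit [DecidableEq V] in
theorem N1_mem (g : Gr V E) (R : Finset E) (W : Finset V) (A : Finset E) :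
    A ∈ N1_F g R W ↔ A ⊆ R ∧ A.card + W.card + 1 = Fintype.card V ∧ nc (g.sp (rt W) A) = 2 := by
  unfold N1_F
  rw [Finset.mem_filter, Finset.mem_powerset]

omit [DecidableEq V] in
theorem N1_NF1 (g : Gr V E) (R : Finset E) (W : Finset V) : g.NF1 R W = (N1_F g R W).card := by
  unfold Gr.NF1 N1_F
  rfl

/-- (i) -/
theorem N1_i (hRT : St_RT) (g : Gr V E) (R : Finset E) (W : Finset V) (w v : V) (hw : w ∈ W)
    (hv : v ∉ W) :
    ∃ s : Finset (Finset E), (∀ A, A ∈ s ↔ A ∈ N1_F g R W ∧ v ∈ N1_S g W w A) ∧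
      g.NF R (insert v W) = s.card := by
  classical
  obtain ⟨-, -, hins, hcard⟩ := hRT (V := V)
  have hrW := hcard W ⟨w, hw⟩
  have hci : (insert v W).card = W.card + 1 := Finset.card_insert_of_notMem hv
  have hsp : ∀ A, g.sp (rt (insert v W)) A = g.sp (rt W) A ⊔ pr v w := by
    intro A
    rw [← (hins W v w hw).1, g.sp_sup]
  refine ⟨R.powerset.filter fun A => A.card + (insert v W).card = Fintype.card V ∧
    nc (g.sp (rt (insert v W)) A) = 1, ?_, ?_⟩
  · intro A
    rw [Finset.mem_filter, Finset.mem_powerset, N1_mem, hsp, hci]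
    unfold N1_S
    simp only [Finset.mem_filter, Finset.mem_univ, true_and]
    have hn := g.nc_le_add_card (rt W) A
    constructor
    · rintro ⟨h1, h2, h3⟩
      have hj : ¬ g.sp (rt W) A v w := by
        intro hj
        rw [sup_pr_of _ hj] at h3
        omega
      have h4 := nc_sup_pr hj
      exact ⟨⟨h1, by omega, by omega⟩, hj⟩
    · rintro ⟨⟨h1, h2, h3⟩, hj⟩
      have h4 := nc_sup_pr hj
      exact ⟨h1, by omega, by omega⟩
  · unfold Gr.NF
    rfl

/-- (ii) -/
theorem N1_ii [DecidableEq E] (hRT : St_RT) (g : Gr V E) (R : Finset E) (W : Finset V) (w : V)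
    (e : E) (hw : w ∈ W) (he : e ∈ R) (hu : g.u e ∉ W) (hv : g.v e ∉ W) (huv : g.u e ≠ g.v e) :
    ∃ s : Finset (Finset E), (∀ A, A ∈ s ↔ A ∈ N1_F g R W ∧ e ∈ N1_C g W w A) ∧
      g.NF R (insert (g.u e) (insert (g.v e) W)) = s.card := by
  classical
  obtain ⟨-, -, hins, hcard⟩ := hRT (V := V)
  have hrW := hcard W ⟨w, hw⟩
  have hci : (insert (g.u e) (insert (g.v e) W)).card = W.card + 2 := by
    rw [Finset.card_insert_of_notMem, Finset.card_insert_of_notMem hv]
    rw [Finset.mem_insert, not_or]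
    exact ⟨huv, hu⟩
  have hsp : ∀ A, g.sp (rt (insert (g.u e) (insert (g.v e) W))) A =
      g.sp (rt W) A ⊔ pr (g.v e) w ⊔ pr (g.u e) w := by
    intro A
    rw [← (hins (insert (g.v e) W) (g.u e) w (Finset.mem_insert_of_mem hw)).1,
      ← (hins W (g.v e) w hw).1, g.sp_sup, g.sp_sup]
  refine ⟨(N1_F g R W).filter fun A => e ∈ N1_C g W w A, ?_, ?_⟩
  · intro A
    rw [Finset.mem_filter]
  · have memC : ∀ A, e ∈ N1_C g W w A ↔ e ∈ A ∧ ¬ g.sp (rt W) A (g.u e) w := by
      intro A
      unfold N1_C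
      rw [Finset.mem_filter]
    unfold Gr.NF
    refine Finset.card_bij' (fun B _ => insert e B) (fun A _ => A.erase e) ?_ ?_ ?_ ?_
    · -- maps to
      intro B hB
      rw [Finset.mem_filter, Finset.mem_powerset, hsp, hci] at hB
      obtain ⟨h1, h2, h3⟩ := hB
      have hn := g.nc_le_add_card (rt W) B
      have j1 : ¬ g.sp (rt W) B (g.v e) w := by
        intro hj
        rw [sup_pr_of _ hj] at h3
        have := nc_sup_pr_le (g.sp (rt W) B) (g.u e) w
        omega
      have h4 := nc_sup_pr j1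
      have j2 : ¬ (g.sp (rt W) B ⊔ pr (g.v e) w) (g.u e) w := by
        intro hj
        rw [sup_pr_of _ hj] at h3
        omega
      have h5 := nc_sup_pr j2
      rw [sup_pr_iff, not_or, not_or] at j2
      obtain ⟨j3, j4, -⟩ := j2
      have j5 : ¬ g.sp (rt W) B (g.u e) (g.v e) := by
        intro hj
        exact j4 ⟨hj, (g.sp (rt W) B).refl' w⟩
      have heB : e ∉ B := by
        intro h
        exact j5 (N1_edge g W h)
      have h6 := nc_sup_pr j5
      have h7 : g.sp (rt W) (insert e B) = g.sp (rt W) B ⊔ pr (g.u e) (g.v e) := g.sp_insert _ _ _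
      rw [Finset.mem_filter, N1_mem, memC, Finset.card_insert_of_notMem heB, h7]
      refine ⟨⟨Finset.insert_subset he h1, by omega, by omega⟩, Finset.mem_insert_self _ _, ?_⟩
      rw [sup_pr_iff]
      rintro (h | ⟨_, h⟩ | ⟨h, _⟩)
      · exact j3 h
      · exact j1 h
      · exact j5 h
    · -- inverse maps to
      intro A hA
      rw [Finset.mem_filter, N1_mem, memC] at hA
      obtain ⟨⟨h1, h2, h3⟩, heA, h4⟩ := hA
      have hc : (A.erase e).card + 1 = A.card := Finset.card_erase_add_one heA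
      have hn := g.nc_le_add_card (rt W) (A.erase e)
      have h7 : g.sp (rt W) A = g.sp (rt W) (A.erase e) ⊔ pr (g.u e) (g.v e) := by
        rw [← Finset.insert_erase heA, g.sp_insert, Finset.insert_erase heA]
        rfl
      rw [h7] at h3 h4
      have j5 : ¬ g.sp (rt W) (A.erase e) (g.u e) (g.v e) := by
        intro hj
        rw [sup_pr_of _ hj] at h3
        omega
      have h5 := nc_sup_pr j5
      rw [sup_pr_iff, not_or, not_or] at h4
      obtain ⟨j3, j4, -⟩ := h4
      have j1 : ¬ g.sp (rt W) (A.erase e) (g.v e) w := by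
        intro hj
        exact j4 ⟨(g.sp (rt W) (A.erase e)).refl' _, hj⟩
      have h6 := nc_sup_pr j1
      have j2 : ¬ (g.sp (rt W) (A.erase e) ⊔ pr (g.v e) w) (g.u e) w := by
        rw [sup_pr_iff]
        rintro (h | ⟨h, _⟩ | ⟨h, _⟩)
        · exact j3 h
        · exact j5 h
        · exact j3 h
      have h8 := nc_sup_pr j2
      rw [Finset.mem_filter, Finset.mem_powerset, hsp, hci]
      exact ⟨(Finset.erase_subset _ _).trans h1, by omega, by omega⟩
    · -- left inverse
      intro B hB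
      rw [Finset.mem_filter, Finset.mem_powerset, hsp, hci] at hB
      obtain ⟨h1, h2, h3⟩ := hB
      have hn := g.nc_le_add_card (rt W) B
      have heB : e ∉ B := by
        intro h
        have j5 := N1_edge g W h
        have h9 : g.sp (rt W) B ⊔ pr (g.v e) w ⊔ pr (g.u e) w = g.sp (rt W) B ⊔ pr (g.v e) w := by
          apply sup_pr_of
          rw [sup_pr_iff]
          exact Or.inr (Or.inl ⟨j5, (g.sp (rt W) B).refl' w⟩)
        rw [h9] at h3
        have := nc_sup_pr_le (g.sp (rt W) B) (g.v e) w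
        omega
      exact Finset.erase_insert heB
    · intro A hA
      rw [Finset.mem_filter, N1_mem, memC] at hA
      exact Finset.insert_erase hA.2.1

/-- edges counted by `N1_C` have distinct ends outside of `W` -/
theorem N1_cond [DecidableEq E] (hRT : St_RT) (g : Gr V E) (R : Finset E) (W : Finset V) (w : V)
    (hw : w ∈ W) (A : Finset E) (hA : A ∈ N1_F g R W) (e : E) (he : e ∈ N1_C g W w A) :
    e ∈ R ∧ g.u e ∉ W ∧ g.v e ∉ W ∧ g.u e ≠ g.v e := by
  classical
  obtain ⟨-, -, -, hcard⟩ := hRT (V := V)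
  have hrW := hcard W ⟨w, hw⟩
  rw [N1_mem] at hA
  obtain ⟨h1, h2, h3⟩ := hA
  unfold N1_C at he
  rw [Finset.mem_filter] at he
  obtain ⟨heA, hn⟩ := he
  refine ⟨h1 heA, ?_, ?_, ?_⟩
  · intro h
    exact hn (N1_joined g W A h hw)
  · intro h
    exact hn ((g.sp (rt W) A).trans' (N1_edge g W heA) (N1_joined g W A h hw))
  · intro h
    have hc : (A.erase e).card + 1 = A.card := Finset.card_erase_add_one heA
    have hn := g.nc_le_add_card (rt W) (A.erase e)
    have h7 : g.sp (rt W) A = g.sp (rt W) (A.erase e) := by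
      have h8 : g.sp (rt W) (A.erase e) (g.u e) (g.v e) := by
        rw [← h]
      have h9 := g.sp_insert_of h8
      rw [Finset.insert_erase heA] at h9
      exact h9
    rw [h7] at h3
    omega

/-- [N1] -/
theorem thm_N1 (hRT : St_RT) (_hRN : St_RN) : St_N1 := by
  intro V E _ _ _ g R W hW
  classical
  obtain ⟨w, hw⟩ := hW
  -- the first sum
  have s1 : ∑ v ∈ Finset.univ \ W, (g.NF R (insert v W) : ℤ) =
      ∑ A ∈ N1_F g R W, ((N1_S g W w A).card : ℤ) := by
    have a1 : ∀ v ∈ Finset.univ \ W, (g.NF R (insert v W) : ℤ) =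
        ∑ A ∈ N1_F g R W, if v ∈ N1_S g W w A then (1 : ℤ) else 0 := by
      intro v hv
      rw [Finset.mem_sdiff] at hv
      obtain ⟨s, hs, hc⟩ := N1_i hRT g R W w v hw hv.2
      rw [hc, ← Finset.sum_filter, Finset.sum_const, nsmul_eq_mul, mul_one]
      have : s = (N1_F g R W).filter (fun A => v ∈ N1_S g W w A) := by
        ext A
        rw [hs, Finset.mem_filter]
      rw [this]
    rw [Finset.sum_congr rfl a1, Finset.sum_comm]
    apply Finset.sum_congr rfl
    intro A _
    rw [← Finset.sum_filter, Finset.sum_const, nsmul_eq_mul, mul_one]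
    have : (Finset.univ \ W).filter (fun v => v ∈ N1_S g W w A) = N1_S g W w A := by
      ext v
      rw [Finset.mem_filter, Finset.mem_sdiff]
      constructor
      · exact fun h => h.2
      · intro h
        refine ⟨⟨Finset.mem_univ v, ?_⟩, h⟩
        intro hvW
        unfold N1_S at h
        rw [Finset.mem_filter] at h
        exact h.2 (N1_joined g W A hvW hw)
    rw [this]
  -- the second sum
  have s2 : ∑ e ∈ R with g.u e ∉ W ∧ g.v e ∉ W ∧ g.u e ≠ g.v e,
      (g.NF R (insert (g.u e) (insert (g.v e) W)) : ℤ) =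
      ∑ A ∈ N1_F g R W, ((N1_C g W w A).card : ℤ) := by
    have a1 : ∀ e ∈ R.filter (fun e => g.u e ∉ W ∧ g.v e ∉ W ∧ g.u e ≠ g.v e),
        (g.NF R (insert (g.u e) (insert (g.v e) W)) : ℤ) =
        ∑ A ∈ N1_F g R W, if e ∈ N1_C g W w A then (1 : ℤ) else 0 := by
      intro e he
      rw [Finset.mem_filter] at he
      obtain ⟨he, hu, hv, huv⟩ := he
      obtain ⟨s, hs, hc⟩ := N1_ii hRT g R W w e hw he hu hv huv
      rw [hc, ← Finset.sum_filter, Finset.sum_const, nsmul_eq_mul, mul_one]
      have : s = (N1_F g R W).filter (fun A => e ∈ N1_C g W w A) := by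
        ext A
        rw [hs, Finset.mem_filter]
      rw [this]
    rw [Finset.sum_congr rfl a1, Finset.sum_comm]
    apply Finset.sum_congr rfl
    intro A hA
    rw [← Finset.sum_filter, Finset.sum_const, nsmul_eq_mul, mul_one]
    have : (R.filter (fun e => g.u e ∉ W ∧ g.v e ∉ W ∧ g.u e ≠ g.v e)).filter
        (fun e => e ∈ N1_C g W w A) = N1_C g W w A := by
      ext e
      rw [Finset.mem_filter, Finset.mem_filter]
      constructor
      · exact fun h => h.2
      · intro h
        obtain ⟨b1, b2, b3, b4⟩ := N1_cond hRT g R W w hw A hA e h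
        exact ⟨⟨b1, b2, b3, b4⟩, h⟩
    rw [this]
  rw [s1, s2, ← Finset.sum_sub_distrib, N1_NF1]
  rw [Finset.sum_congr rfl (g := fun _ => (1 : ℤ))]
  · rw [Finset.sum_const, nsmul_eq_mul, mul_one]
  · intro A hA
    rw [N1_mem] at hA
    have := N1_iii hRT g W w hw A hA.2.1 hA.2.2
    rw [this]
    push_cast
    ring

end Pool.ALT
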