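import Pool.Agent.ALT.Tu.StP

/-! # ALT, block Tu, module NN: nonnegative coefficients (helper29) -/

set_option autoImplicit false

namespace Pool.ALT

open LaurentPolynomial

theorem NN_T (n : ℤ) {P : LaurentPolynomial ℤ} (h : NN P) : NN (T n * P) := by
  intro j
  have e : (T n * P).coeff j = P.coeff (j - n) := by
    rw [show (T n : LaurentPolynomial ℤ) = AddMonoidAlgebra.single n 1 from rfl,
      AddMonoidAlgebra.coeff_single_mul_eq_mul_coeff (j - n), one_mul]
    intro m _
    constructor <;> intro h <;> omega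
  rw [e]
  exact h _

theorem NN_add {P Q : LaurentPolynomial ℤ} (hP : NN P) (hQ : NN Q) : NN (P + Q) := by
  intro j
  have e : (P + Q).coeff j = P.coeff j + Q.coeff j := by
    rw [AddMonoidAlgebra.coeff_add, Finsupp.add_apply]
  rw [e]
  exact add_nonneg (hP j) (hQ j)

theorem NN_zero : NN (0 : LaurentPolynomial ℤ) := by
  intro j
  rw [AddMonoidAlgebra.coeff_zero, Finsupp.zero_apply]

theorem NN_one : NN (1 : LaurentPolynomial ℤ) := by
  intro j
  rw [← T_zero, T_apply]
  split_ifs <;> norm_num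

/-- [NN] -/
theorem thm_NN (hLP : St_LP) (hCL : St_CL) (hGE : St_GE) (hEM : St_EM) : St_NN := by
  intro V E _ _ g σ R
  induction hn : R.card generalizing σ R with
  | zero =>
    rw [Finset.card_eq_zero] at hn
    subst hn
    by_cases hab : σ g.a g.b
    · obtain ⟨h1, h2⟩ := (hEM g σ).1 hab
      rw [h1, h2]
      exact ⟨NN_one, NN_zero⟩
    · obtain ⟨h1, h2⟩ := (hEM g σ).2 hab
      rw [h1, h2]
      exact ⟨NN_zero, NN_one⟩
  | succ n ih =>
    obtain ⟨f, hf⟩ : R.Nonempty := Finset.card_pos.1 (by omega)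
    have hc : (R.erase f).card = n := by
      rw [Finset.card_erase_of_mem hf]
      omega
    by_cases h1 : σ (g.u f) (g.v f)
    · obtain ⟨e1, e2⟩ := hLP g σ R f hf h1
      obtain ⟨i1, i2⟩ := ih σ (R.erase f) hc
      rw [e1, e2]
      exact ⟨NN_T _ i1, NN_T _ i2⟩
    · obtain ⟨i1, i2⟩ := ih (σ ⊔ g.pe f) (R.erase f) hc
      by_cases h2 : (g.sp σ (R.erase f) ⊔ g.ab) (g.u f) (g.v f)
      · obtain ⟨e1, e2⟩ := hGE g σ R f hf h1 h2
        obtain ⟨j1, j2⟩ := ih σ (R.erase f) hc
        rw [e1, e2]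
        exact ⟨NN_add j1 i1, NN_add j2 i2⟩
      · obtain ⟨e1, e2⟩ := hCL g σ R f hf h2
        rw [e1, e2]
        exact ⟨NN_T _ i1, NN_T _ i2⟩

end Pool.ALT
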