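import Pool.Agent.ALT.Tu.StR

/-! # ALT Tu [PD]: trees which contain an edge (helper67) -/

set_option autoImplicit false

namespace Pool.ALT

theorem PD_split {E : Type} [DecidableEq E] (R : Finset E) (f : E) (hf : f ∈ R)
    (P Q : Finset E → Prop) [DecidablePred P] [DecidablePred Q]
    (h : ∀ A, A ⊆ R.erase f → (P (insert f A) ↔ Q A)) :
    (R.powerset.filter P).card =
      ((R.erase f).powerset.filter P).card + ((R.erase f).powerset.filter Q).card := by
  have hnot : ∀ A ∈ (R.erase f).powerset, f ∉ A := fun A hA hfA =>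
    Finset.notMem_erase f R ((Finset.mem_powerset.1 hA) hfA)
  have h1 : R.powerset.filter P = ((R.erase f).powerset.filter P) ∪
      ((R.erase f).powerset.filter Q).image (insert f) := by
    conv_lhs => rw [← Finset.insert_erase hf]
    rw [Finset.powerset_insert, Finset.filter_union, Finset.filter_image]
    congr 2
    exact Finset.filter_congr fun A hA => h A (Finset.mem_powerset.1 hA)
  rw [h1, Finset.card_union_of_disjoint, Finset.card_image_of_injOn]
  · intro A hA B hB hAB
    have hA' := hnot A (Finset.mem_filter.1 (Finset.mem_coe.1 hA)).1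
    have hB' := hnot B (Finset.mem_filter.1 (Finset.mem_coe.1 hB)).1
    have hAB' : insert f A = insert f B := hAB
    rw [← Finset.erase_insert hA', ← Finset.erase_insert hB', hAB']
  · rw [Finset.disjoint_left]
    intro A hA hA2
    obtain ⟨B, -, rfl⟩ := Finset.mem_image.1 hA2
    exact hnot _ (Finset.mem_filter.1 hA).1 (Finset.mem_insert_self f B)

theorem thm_PD : St_PD := by
  intro V E _ _ g σ R f hf hσ
  classical
  have hK : g.K σ R = g.K (σ ⊔ g.pe f) (R.erase f) := by
    unfold Gr.K
    rw [← g.sp_insert' σ f (R.erase f), Finset.insert_erase hf]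
  have hnc : nc (σ ⊔ g.pe f) + 1 = nc σ := nc_sup_pr hσ
  have hcard : ∀ A, A ⊆ R.erase f → (insert f A).card = A.card + 1 := fun A hA =>
    Finset.card_insert_of_notMem fun hfA => Finset.notMem_erase f R (hA hfA)
  constructor
  · unfold Gr.p
    refine PD_split R f hf _ _ fun A hA => ?_
    rw [g.sp_insert', hcard A hA, hK]
    constructor
    · rintro ⟨h1, h2⟩
      exact ⟨h1, by omega⟩
    · rintro ⟨h1, h2⟩
      exact ⟨h1, by omega⟩
  · unfold Gr.q
    refine PD_split R f hf _ _ fun A hA => ?_
    rw [g.sp_insert', hcard A hA, hK]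
    constructor
    · rintro ⟨h1, h2, h3⟩
      exact ⟨h1, h2, by omega⟩
    · rintro ⟨h1, h2, h3⟩
      exact ⟨h1, h2, by omega⟩

end Pool.ALT
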