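import Pool.Agent.ALT.Tu.StP

/-!
# ALT [PO]: Popoviciu inequality for the moments of a nonnegative coefficient sequence (helper35)
-/

set_option autoImplicit false

namespace Pool.ALT

open LaurentPolynomial

/-- [PO] -/
theorem thm_PO : St_PO := by
  intro P lo L hP hs
  have hsupp : ∀ j ∈ P.coeff.support, lo ≤ j ∧ j ≤ lo + L := fun j hj =>
    hs j (Finsupp.mem_support_iff.1 hj)
  have h0 : 0 ≤ mo 0 P := by
    unfold mo
    refine Finset.sum_nonneg fun j _ => ?_
    rw [pow_zero, one_mul]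
    exact hP j
  have h1 : mo 1 P ^ 2 ≤ mo 0 P * mo 2 P := by
    unfold mo
    refine Finset.sum_sq_le_sum_mul_sum_of_sq_eq_mul _ (fun j _ => ?_) (fun j _ => ?_)
      (fun j _ => ?_)
    · rw [pow_zero, one_mul]
      exact hP j
    · exact mul_nonneg (sq_nonneg j) (hP j)
    · ring
  have h2 : 0 ≤ (2 * lo + L) * mo 1 P - lo * (lo + L) * mo 0 P - mo 2 P := by
    have h3 : (2 * lo + L) * mo 1 P - lo * (lo + L) * mo 0 P - mo 2 P =
        ∑ j ∈ P.coeff.support, P.coeff j * ((j - lo) * (lo + L - j)) := by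
      unfold mo
      rw [Finset.mul_sum, Finset.mul_sum, ← Finset.sum_sub_distrib, ← Finset.sum_sub_distrib]
      refine Finset.sum_congr rfl fun j _ => ?_
      ring
    rw [h3]
    refine Finset.sum_nonneg fun j hj => ?_
    obtain ⟨h4, h5⟩ := hsupp j hj
    exact mul_nonneg (hP j) (mul_nonneg (by linarith) (by linarith))
  refine ⟨by linarith, ?_⟩
  have h3 := mul_nonneg h0 h2
  nlinarith [h3, sq_nonneg (2 * mo 1 P - (2 * lo + L) * mo 0 P)]

end Pool.ALT
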