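import Mathlib
import Pool.Agent.ALT.Tu.StR

/-! # ALT, block Tu: [PP] a connected graph has a spanning tree (helper25) -/

set_option autoImplicit false

namespace Pool.ALT

theorem PP_sub {V E : Type} [Finite V] [DecidableEq E] (g : Gr V E) (σ : Setoid V) (R : Finset E) :
    ∃ A ⊆ R, g.sp σ A = g.sp σ R ∧ A.card + nc (g.sp σ A) = nc σ := by
  induction R using Finset.induction_on with
  | empty => exact ⟨∅, Finset.Subset.refl _, rfl, by rw [g.sp_empty]; simp⟩
  | insert e R he ih =>
    obtain ⟨A, hA, h1, h2⟩ := ih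
    have heA : e ∉ A := fun h => he (hA h)
    by_cases h : g.sp σ A (g.u e) (g.v e)
    · refine ⟨A, hA.trans (Finset.subset_insert _ _), ?_, h2⟩
      rw [g.sp_insert σ e R, ← h1, ← g.sp_insert, g.sp_insert_of h]
    · refine ⟨insert e A, Finset.insert_subset_insert _ hA, ?_, ?_⟩
      · rw [g.sp_insert, g.sp_insert, h1]
      · rw [Finset.card_insert_of_notMem heA]
        have := g.nc_sp_insert h
        omega

/-- [PP] -/
theorem thm_PP (hRT : St_RT) : St_PP := by
  intro V E _ _ _ g R W hW hn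
  classical
  obtain ⟨A, hA, h1, h2⟩ := PP_sub g (rt W) R
  have h3 := (hRT (V := V)).2.2.2 W hW
  unfold Gr.NF
  rw [Finset.card_pos]
  refine ⟨A, ?_⟩
  rw [Finset.mem_filter, Finset.mem_powerset]
  rw [h1, hn] at h2
  exact ⟨hA, by omega, by rw [h1, hn]⟩

end Pool.ALT
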