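import Pool.Agent.ALT.Tu.StR

/-! # ALT, block Tu: [PQ] trees of the whole graph as rooted counts -/

set_option autoImplicit false

namespace Pool.ALT

theorem PQ_bot {V : Type} [Fintype V] : nc (⊥ : Setoid V) = Fintype.card V := by
  rw [nc_bot, Nat.card_eq_fintype_card]

theorem PQ_sp {V E : Type} (g : Gr V E) (A : Finset E) :
    g.sp (pr g.a g.b) A = g.sp ⊥ A ⊔ pr g.a g.b := by
  rw [← Gr.sp_sup, bot_sup_eq]

/-- [PQ] -/
theorem thm_PQ (hRT : St_RT) : St_PQ := by
  classical
  intro V E _ _ g R hK hab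
  obtain ⟨h1, h2, _, _⟩ := @hRT V _ _
  constructor
  · unfold Gr.p Gr.NF
    apply congrArg
    ext A
    rw [Finset.mem_filter, Finset.mem_filter]
    apply and_congr_right
    intro _
    rw [hK, h1, PQ_bot, Finset.card_singleton]
    constructor
    · rintro ⟨h3, h4⟩
      exact ⟨by omega, h3⟩
    · rintro ⟨h3, h4⟩
      exact ⟨h4, by omega⟩
  · unfold Gr.q Gr.NF
    apply congrArg
    ext A
    rw [Finset.mem_filter, Finset.mem_filter]
    apply and_congr_right
    intro _
    rw [hK, h2, PQ_bot, Finset.card_pair hab, PQ_sp]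
    constructor
    · rintro ⟨h3, h4, h5⟩
      have h6 := nc_sup_pr h4
      exact ⟨by omega, by omega⟩
    · rintro ⟨h3, h4⟩
      have h5 := Gr.nc_le_add_card g ⊥ A
      rw [PQ_bot] at h5
      have h6 : ¬ g.sp ⊥ A g.a g.b := by
        intro h6
        rw [sup_pr_of _ h6] at h4
        omega
      have h7 := nc_sup_pr h6
      exact ⟨by omega, h6, by omega⟩

end Pool.ALT
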