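import Pool.Agent.ALT.Tu.StR

/-! # ALT, block Tu: module QG (partitions of the quotient graph). Proof: docstring of `St_QG`. -/

set_option autoImplicit false

namespace Pool.ALT

/-- the partition of the quotient given by a coarser partition -/
def QG_push {V : Type} (σ τ : Setoid V) (h : σ ≤ τ) : Setoid (Quotient σ) where
  r p q := ∀ x y, Quotient.mk σ x = p → Quotient.mk σ y = q → τ x y
  iseqv := by
    constructor
    · intro p x y hx hy
      exact h (Quotient.exact (hx.trans hy.symm))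
    · intro p q hpq x y hx hy
      exact τ.symm' (hpq y x hy hx)
    · intro p q r hpq hqr x y hx hy
      obtain ⟨z, hz⟩ := Quotient.exists_rep q
      exact τ.trans' (hpq x z hx hz) (hqr z y hz hy)

theorem QG_push_iff {V : Type} {σ τ : Setoid V} (h : σ ≤ τ) (x y : V) :
    QG_push σ τ h (Quotient.mk σ x) (Quotient.mk σ y) ↔ τ x y := by
  constructor
  · intro h1
    exact h1 x y rfl rfl
  · intro h1 x' y' hx hy
    exact τ.trans' (h (Quotient.exact hx)) (τ.trans' h1 (τ.symm' (h (Quotient.exact hy))))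

/-- pull back along the quotient map -/
def QG_pull {V : Type} (σ : Setoid V) (τ : Setoid (Quotient σ)) : Setoid V :=
  Setoid.comap (Quotient.mk σ) τ

theorem QG_pull_iff {V : Type} {σ : Setoid V} (τ : Setoid (Quotient σ)) (x y : V) :
    QG_pull σ τ x y ↔ τ (Quotient.mk σ x) (Quotient.mk σ y) := Iff.rfl

theorem QG_le_pull {V : Type} (σ : Setoid V) (τ : Setoid (Quotient σ)) : σ ≤ QG_pull σ τ := by
  rw [Setoid.le_def]
  intro x y h
  rw [QG_pull_iff, Quotient.sound h]

theorem QG_pull_mono {V : Type} {σ : Setoid V} {τ τ' : Setoid (Quotient σ)} (h : τ ≤ τ') :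
    QG_pull σ τ ≤ QG_pull σ τ' := by
  rw [Setoid.le_def]
  intro x y hxy
  exact h hxy

theorem QG_pull_push {V : Type} {σ τ : Setoid V} (h : σ ≤ τ) :
    QG_pull σ (QG_push σ τ h) ≤ τ := by
  rw [Setoid.le_def]
  intro x y hxy
  exact (QG_push_iff h x y).1 hxy

theorem QG_nc {V : Type} (σ : Setoid V) (τ : Setoid (Quotient σ)) :
    nc (QG_pull σ τ) = nc τ := by
  unfold nc
  let f : Quotient (QG_pull σ τ) → Quotient τ :=
    Quotient.lift (fun x => Quotient.mk τ (Quotient.mk σ x)) (fun x y h => Quotient.sound h)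
  refine Nat.card_congr (Equiv.ofBijective f ⟨?_, ?_⟩)
  · intro p q
    induction p using Quotient.inductionOn with
    | h x =>
      induction q using Quotient.inductionOn with
      | h y =>
        intro hpq
        have h1 : Quotient.mk τ (Quotient.mk σ x) = Quotient.mk τ (Quotient.mk σ y) := hpq
        have h2 : τ (Quotient.mk σ x) (Quotient.mk σ y) := Quotient.exact h1
        exact Quotient.sound (s := QG_pull σ τ) h2
  · intro q
    obtain ⟨p, rfl⟩ := Quotient.exists_rep q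
    obtain ⟨x, rfl⟩ := Quotient.exists_rep p
    exact ⟨Quotient.mk _ x, rfl⟩

theorem QG_sp {V E : Type} (g : Gr V E) (σ : Setoid V) (A : Finset E) :
    QG_pull σ ((g.quo σ).sp ⊥ A) = g.sp σ A := by
  apply le_antisymm
  · refine (QG_pull_mono (τ' := QG_push σ (g.sp σ A) (g.le_sp σ A)) ?_).trans (QG_pull_push _)
    refine Gr.sp_le _ bot_le (fun e he => ?_)
    exact (QG_push_iff (g.le_sp σ A) (g.u e) (g.v e)).2 (g.pe_le_sp σ he (pr_rel _ _))
  · refine g.sp_le (QG_le_pull σ _) (fun e he => ?_)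
    rw [QG_pull_iff]
    exact (g.quo σ).pe_le_sp ⊥ he (pr_rel _ _)

theorem QG_spab {V E : Type} (g : Gr V E) (σ : Setoid V) (A : Finset E) :
    QG_pull σ ((g.quo σ).sp ⊥ A ⊔ (g.quo σ).ab) = g.sp σ A ⊔ g.ab := by
  have hle : σ ≤ g.sp σ A ⊔ g.ab := (g.le_sp σ A).trans le_sup_left
  apply le_antisymm
  · refine (QG_pull_mono (τ' := QG_push σ (g.sp σ A ⊔ g.ab) hle) ?_).trans (QG_pull_push _)
    refine sup_le (Gr.sp_le _ bot_le (fun e he => ?_)) ?_
    · exact (QG_push_iff hle (g.u e) (g.v e)).2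
        ((le_sup_left : g.sp σ A ≤ g.sp σ A ⊔ g.ab) (g.pe_le_sp σ he (pr_rel _ _)))
    · refine (pr_le_iff _ _ _).2 ?_
      exact (QG_push_iff hle g.a g.b).2
        ((le_sup_right : g.ab ≤ g.sp σ A ⊔ g.ab) (pr_rel _ _))
  · refine sup_le ?_ ?_
    · rw [← QG_sp g σ A]
      exact QG_pull_mono le_sup_left
    · refine (pr_le_iff _ _ _).2 ?_
      rw [QG_pull_iff]
      exact (le_sup_right : (g.quo σ).ab ≤ (g.quo σ).sp ⊥ A ⊔ (g.quo σ).ab) (pr_rel _ _)

theorem thm_QG : St_QG := by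
  intro V E _ g σ A
  refine ⟨?_, ?_, ?_, ?_⟩
  · rw [← QG_nc, QG_sp]
  · rw [← QG_nc, QG_spab]
  · intro x y
    rw [← QG_sp g σ A]
    exact Iff.rfl
  · rw [nc_bot]
    rfl

end Pool.ALT
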