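import Pool.Agent.ALT.Tu.StR

/-!
# ALT Tu, module RA (helper34): Rayleigh inequality for minors
-/

set_option autoImplicit false

namespace Pool.ALT

theorem RA_q0 {V E : Type} (g : Gr V E) {σ : Setoid V} (R : Finset E) (h : σ g.a g.b) :
    g.q σ R = 0 := by
  classical
  unfold Gr.q
  rw [Finset.card_eq_zero, Finset.filter_eq_empty_iff]
  rintro A - ⟨-, h1, -⟩
  exact h1 (g.le_sp σ A h)

/-- trees of the minor are rooted forests of the quotient graph -/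
theorem RA_NFa (hRT : St_RT) (hQG : St_QG) {V E : Type} [Finite V] (g : Gr V E)
    (σ : Setoid V) [Fintype (Quotient σ)] [DecidableEq (Quotient σ)] (R : Finset E)
    (S : Finset (Finset E))
    (hS : ∀ A, A ∈ S ↔ A ⊆ R ∧ nc (g.sp σ A) = 1 ∧ A.card + nc (g.sp σ A) = nc σ) :
    S.card = (g.quo σ).NF R {(g.quo σ).a} := by
  unfold Gr.NF
  congr 1
  ext A
  rw [hS, Finset.mem_filter, Finset.mem_powerset, hRT.1, Finset.card_singleton, (hQG g σ A).1,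
    ← Nat.card_eq_fintype_card]
  change _ ↔ _ ∧ A.card + 1 = nc σ ∧ _
  constructor
  · rintro ⟨h1, h2, h3⟩
    exact ⟨h1, by rw [h2] at h3; exact h3, h2⟩
  · rintro ⟨h1, h2, h3⟩
    exact ⟨h1, h3, by rw [h3]; exact h2⟩

theorem RA_NFab (hRT : St_RT) (hQG : St_QG) {V E : Type} [Finite V] (g : Gr V E)
    (σ : Setoid V) [Fintype (Quotient σ)] [DecidableEq (Quotient σ)] (R : Finset E)
    (hab : (g.quo σ).a ≠ (g.quo σ).b) (S : Finset (Finset E))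
    (hS : ∀ A, A ∈ S ↔ A ⊆ R ∧ nc (g.sp σ A) = 1 + 1 ∧ ¬ g.sp σ A g.a g.b ∧
      A.card + nc (g.sp σ A) = nc σ) :
    S.card = (g.quo σ).NF R {(g.quo σ).a, (g.quo σ).b} := by
  unfold Gr.NF
  congr 1
  ext A
  have hsp : (g.quo σ).sp (rt {(g.quo σ).a, (g.quo σ).b}) A = (g.quo σ).sp ⊥ A ⊔ (g.quo σ).ab := by
    rw [hRT.2.1]
    change (g.quo σ).sp (g.quo σ).ab A = _
    have h1 := Gr.sp_sup (g.quo σ) ⊥ (g.quo σ).ab A
    rw [bot_sup_eq] at h1
    exact h1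
  rw [hS, Finset.mem_filter, Finset.mem_powerset, hsp, Finset.card_pair hab, (hQG g σ A).2.1,
    ← Nat.card_eq_fintype_card]
  change _ ↔ _ ∧ A.card + 2 = nc σ ∧ _
  constructor
  · rintro ⟨h1, h2, h3, h4⟩
    have h5 : nc (g.sp σ A ⊔ g.ab) + 1 = nc (g.sp σ A) := nc_sup_pr h3
    exact ⟨h1, by omega, by omega⟩
  · rintro ⟨h1, h2, h3⟩
    have h4 := Gr.nc_le_add_card g σ A
    have h5 : ¬ g.sp σ A g.a g.b := by
      intro h
      have h6 : g.sp σ A ⊔ g.ab = g.sp σ A := sup_pr_of _ h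
      rw [h6] at h3
      omega
    have h7 : nc (g.sp σ A ⊔ g.ab) + 1 = nc (g.sp σ A) := nc_sup_pr h5
    exact ⟨h1, by omega, h5, by omega⟩

/-- the inequality for rooted forests -/
theorem RA_main (hKE : St_KE) (hK2 : St_K2) (hKS : St_KS) (hKR : St_KR) (hRL : St_RL)
    {V E : Type} [Fintype V] [DecidableEq V] [DecidableEq E] (g : Gr V E) (R : Finset E) (f : E)
    (hab : g.a ≠ g.b) (hf : f ∈ R) (hP : 0 < g.NF R {g.a}) :
    g.NF (R.erase f) {g.a} * g.NF R {g.a, g.b} ≤ g.NF R {g.a} * g.NF (R.erase f) {g.a, g.b} := by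
  obtain ⟨G, hG⟩ := hKE g R {g.a} ⟨g.a, Finset.mem_singleton_self _⟩ hP
  have hb : g.b ∉ ({g.a} : Finset V) := by
    rw [Finset.mem_singleton]
    exact fun h => hab h.symm
  have hH := hKR g R {g.a} G g.b hG hb
  obtain ⟨H, hHd⟩ : ∃ H : V → V → ℝ, H = fun x y => G x y - G x g.b * G g.b y / G g.b g.b :=
    ⟨_, rfl⟩
  rw [← hHd] at hH
  have hH' : g.Ker R {g.a, g.b} H := by
    have h1 : insert g.b ({g.a} : Finset V) = {g.a, g.b} := Finset.pair_comm g.b g.a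
    rw [← h1]
    exact hH
  obtain ⟨-, h2⟩ := hRL g R G H hab hG hH'
  have h3 := h2 f
  have h4 : 0 < G g.b g.b := (hKS g R {g.a} G hG).2.1 g.b hb
  have h5 : g.rs H f ≤ g.rs G f := by
    rw [h3]
    have : 0 ≤ g.d (G g.b) f ^ 2 / G g.b g.b := by positivity
    linarith
  have h6 := hK2 g R {g.a} G f ⟨g.a, Finset.mem_singleton_self _⟩ hG hf
  have h7 := hK2 g R {g.a, g.b} H f ⟨g.a, Finset.mem_insert_self _ _⟩ hH' hf
  have h8 : (g.NF (R.erase f) {g.a} : ℝ) * g.NF R {g.a, g.b} ≤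
      (g.NF R {g.a} : ℝ) * g.NF (R.erase f) {g.a, g.b} := by
    rw [h6, h7]
    have h9 : (0 : ℝ) ≤ (g.NF R {g.a} : ℝ) * g.NF R {g.a, g.b} := by positivity
    nlinarith
  exact_mod_cast h8

theorem thm_RA (hRT : St_RT) (_hMT : St_MT) (hKE : St_KE) (hK2 : St_K2) (hKS : St_KS)
    (hKR : St_KR) (hRL : St_RL) (hQG : St_QG) (hPD : St_PD) : St_RA := by
  classical
  intro V E _ _ g σ R f hK hf hσf
  by_cases hσ : σ g.a g.b
  · have h1 : g.q (σ ⊔ g.pe f) (R.erase f) = 0 :=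
      RA_q0 g _ ((le_sup_left : σ ≤ σ ⊔ g.pe f) hσ)
    rw [h1, mul_zero]
    exact Nat.zero_le _
  · have : Finite (Quotient σ) := Quotient.finite σ
    have : Fintype (Quotient σ) := Fintype.ofFinite _
    have hab : (g.quo σ).a ≠ (g.quo σ).b := by
      intro h
      exact hσ (Quotient.exact h)
    obtain ⟨hp, hq⟩ := hPD g σ R f hf hσf
    have hP : g.p σ R = (g.quo σ).NF R {(g.quo σ).a} := by
      refine RA_NFa hRT hQG g σ R _ fun A => ?_
      rw [Finset.mem_filter, Finset.mem_powerset, hK]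
    have hQ : g.q σ R = (g.quo σ).NF R {(g.quo σ).a, (g.quo σ).b} := by
      refine RA_NFab hRT hQG g σ R hab _ fun A => ?_
      rw [Finset.mem_filter, Finset.mem_powerset, hK]
    rw [RA_NFa hRT hQG g σ (R.erase f) _ (fun A => by
      rw [Finset.mem_filter, Finset.mem_powerset, hK])] at hp
    rw [RA_NFab hRT hQG g σ (R.erase f) hab _ (fun A => by
      rw [Finset.mem_filter, Finset.mem_powerset, hK])] at hq
    obtain ⟨P1, hP1⟩ : ∃ x, x = g.p (σ ⊔ g.pe f) (R.erase f) := ⟨_, rfl⟩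
    obtain ⟨Q1, hQ1⟩ : ∃ x, x = g.q (σ ⊔ g.pe f) (R.erase f) := ⟨_, rfl⟩
    rw [← hP1] at hp ⊢
    rw [← hQ1] at hq ⊢
    rw [hP] at hp ⊢
    rw [hQ] at hq ⊢
    rcases Nat.eq_zero_or_pos ((g.quo σ).NF R {(g.quo σ).a}) with h0 | h0
    · rw [h0, zero_mul]
      exact Nat.zero_le _
    · have h1 := RA_main hKE hK2 hKS hKR hRL (g.quo σ) R f hab hf h0
      obtain ⟨P, hPd⟩ : ∃ x, x = (g.quo σ).NF R {(g.quo σ).a} := ⟨_, rfl⟩
      obtain ⟨Q, hQd⟩ : ∃ x, x = (g.quo σ).NF R {(g.quo σ).a, (g.quo σ).b} := ⟨_, rfl⟩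
      obtain ⟨P0, hP0⟩ : ∃ x, x = (g.quo σ).NF (R.erase f) {(g.quo σ).a} := ⟨_, rfl⟩
      obtain ⟨Q0, hQ0⟩ : ∃ x, x = (g.quo σ).NF (R.erase f) {(g.quo σ).a, (g.quo σ).b} := ⟨_, rfl⟩
      rw [← hPd, ← hQd, ← hP0, ← hQ0] at h1
      rw [← hPd, ← hP0] at hp
      rw [← hQd, ← hQ0] at hq
      rw [← hPd, ← hQd, hp, hq]
      rw [hp, hq] at h1
      nlinarith

end Pool.ALT
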