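import Mathlib
import Pool.Agent.ALT.Tu.StR

/-! # ALT, block Tu: [RB] base cases of the recursion (helper25) -/

set_option autoImplicit false

namespace Pool.ALT

/-- the partition with the two classes `W`, `Wᶜ` -/
def RB_tau {V : Type} (W : Finset V) : Setoid V where
  r x y := x ∈ W ↔ y ∈ W
  iseqv := ⟨fun _ => Iff.rfl, fun h => h.symm, fun h h' => h.trans h'⟩

/-- [RB] -/
theorem thm_RB (hRT : St_RT) : St_RB := by
  intro V E _ _ _ g R
  classical
  obtain ⟨-, -, -, h4⟩ := hRT (V := V)
  constructor
  · unfold Gr.NF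
    have h1 : (R.powerset.filter fun A => A.card + (Finset.univ : Finset V).card = Fintype.card V ∧
        nc (g.sp (rt Finset.univ) A) = 1) = {∅} := by
      ext A
      rw [Finset.mem_filter, Finset.mem_singleton, Finset.mem_powerset]
      constructor
      · rintro ⟨-, h, -⟩
        rw [Finset.card_univ] at h
        exact Finset.card_eq_zero.1 (by omega)
      · rintro rfl
        refine ⟨Finset.empty_subset _, by simp, ?_⟩
        rw [g.sp_empty]
        have h := h4 Finset.univ Finset.univ_nonempty
        rw [Finset.card_univ] at h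
        omega
    rw [Finset.card_eq_one]
    exact ⟨∅, by rw [← h1]⟩
  · intro W hW hWu hR
    unfold Gr.NF
    rw [Finset.card_eq_zero, Finset.filter_eq_empty_iff]
    rintro A hA ⟨-, h1⟩
    obtain ⟨w, hw⟩ := hW
    obtain ⟨x, hx⟩ : ∃ x, x ∉ W := by
      by_contra h
      push Not at h
      exact hWu (Finset.eq_univ_iff_forall.2 h)
    have h2 : g.sp (rt W) A ≤ RB_tau W := by
      refine g.sp_le ?_ fun e he => hR e (Finset.mem_powerset.1 hA he)
      rw [Setoid.le_def]
      rintro p q (h | ⟨h, h'⟩)
      · subst h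
        exact Iff.rfl
      · exact ⟨fun _ => h', fun _ => h⟩
    have h3 : ¬ g.sp (rt W) A w x := fun h => hx ((h2 h : w ∈ W ↔ x ∈ W).1 hw)
    have h5 := nc_sup_pr h3
    have h6 := nc_pos (g.sp (rt W) A ⊔ pr w x)
    omega

end Pool.ALT
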