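import Pool.Agent.ALT.Tu.StR

/-! # ALT, block Tu, module RT: the partition that identifies the roots -/

set_option autoImplicit false

namespace Pool.ALT

variable {V : Type}

theorem RT_iff (W : Finset V) (x y : V) : rt W x y ↔ x = y ∨ (x ∈ W ∧ y ∈ W) := Iff.rfl

theorem RT_single [DecidableEq V] (a : V) : rt ({a} : Finset V) = ⊥ := by
  ext x y
  rw [RT_iff, Setoid.bot_def, Finset.mem_singleton, Finset.mem_singleton]
  constructor
  · rintro (h | ⟨h1, h2⟩)
    · exact h
    · rw [h1, h2]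
  · exact Or.inl

theorem RT_pair [DecidableEq V] (a b : V) : rt ({a, b} : Finset V) = pr a b := by
  ext x y
  show _ ↔ (x = y ∨ (x = a ∧ y = b) ∨ (x = b ∧ y = a))
  rw [RT_iff]
  simp only [Finset.mem_insert, Finset.mem_singleton]
  constructor
  · rintro (h | ⟨h1 | h1, h2 | h2⟩)
    · exact Or.inl h
    · exact Or.inl (h1.trans h2.symm)
    · exact Or.inr (Or.inl ⟨h1, h2⟩)
    · exact Or.inr (Or.inr ⟨h1, h2⟩)
    · exact Or.inl (h1.trans h2.symm)
  · rintro (h | ⟨h1, h2⟩ | ⟨h1, h2⟩)
    · exact Or.inl h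
    · exact Or.inr ⟨Or.inl h1, Or.inr h2⟩
    · exact Or.inr ⟨Or.inr h1, Or.inl h2⟩

theorem RT_insert [DecidableEq V] (W : Finset V) (x w : V) (hw : w ∈ W) :
    rt W ⊔ pr x w = rt (insert x W) := by
  ext p q
  rw [sup_pr_iff, RT_iff, RT_iff, RT_iff, RT_iff, RT_iff, RT_iff]
  simp only [Finset.mem_insert]
  constructor
  · rintro ((h | ⟨h1, h2⟩) | ⟨h1, h2⟩ | ⟨h1, h2⟩)
    · exact Or.inl h
    · exact Or.inr ⟨Or.inr h1, Or.inr h2⟩
    · right
      refine ⟨?_, ?_⟩
      · rcases h1 with h1 | h1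
        · exact Or.inl h1
        · exact Or.inr h1.1
      · rcases h2 with h2 | h2
        · rw [← h2]
          exact Or.inr hw
        · exact Or.inr h2.2
    · right
      refine ⟨?_, ?_⟩
      · rcases h1 with h1 | h1
        · rw [h1]
          exact Or.inr hw
        · exact Or.inr h1.1
      · rcases h2 with h2 | h2
        · exact Or.inl h2.symm
        · exact Or.inr h2.2
  · rintro (h | ⟨h1 | h1, h2 | h2⟩)
    · exact Or.inl (Or.inl h)
    · exact Or.inl (Or.inl (h1.trans h2.symm))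
    · exact Or.inr (Or.inl ⟨Or.inl h1, Or.inr ⟨hw, h2⟩⟩)
    · exact Or.inr (Or.inr ⟨Or.inr ⟨h1, hw⟩, Or.inl h2.symm⟩)
    · exact Or.inl (Or.inr ⟨h1, h2⟩)

theorem RT_nc [Fintype V] [DecidableEq V] (W : Finset V) (hW : W.Nonempty) :
    nc (rt W) + W.card = Fintype.card V + 1 := by
  induction W using Finset.induction_on with
  | empty => exact absurd hW (by simp)
  | insert x W hx ih =>
    rcases W.eq_empty_or_nonempty with h0 | ⟨w, hw⟩
    · subst h0
      rw [insert_empty_eq, RT_single, nc_bot, Nat.card_eq_fintype_card, Finset.card_singleton]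
    · have h1 := ih ⟨w, hw⟩
      have hxw : ¬ rt W x w := by
        rw [RT_iff]
        rintro (h | ⟨h, -⟩)
        · exact hx (h ▸ hw)
        · exact hx h
      have h2 := nc_sup_pr hxw
      rw [RT_insert W x w hw] at h2
      rw [Finset.card_insert_of_notMem hx]
      omega

/-- [RT] the partition `rt W`. -/
theorem thm_RT : St_RT := by
  intro V _ _
  refine ⟨RT_single, RT_pair, ?_, RT_nc⟩
  intro W x w hw
  refine ⟨RT_insert W x w hw, ?_⟩
  rw [pr_comm w x]
  exact RT_insert W x w hw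

end Pool.ALT
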