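import Pool.Agent.ALT.Tu.StP

/-! # ALT, block Tu, module SA: support of `al` (helper42) -/

set_option autoImplicit false

namespace Pool.ALT

open LaurentPolynomial

theorem SA_T (n j : ℤ) (P : LaurentPolynomial ℤ) : (T n * P).coeff j = P.coeff (j - n) := by
  have h : (T n : LaurentPolynomial ℤ) = AddMonoidAlgebra.single n 1 := rfl
  rw [h, AddMonoidAlgebra.coeff_single_mul_apply, one_mul]
  congr 1; ring

section

variable {V E : Type} [Finite V] [DecidableEq E]

omit [Finite V] in
theorem SA_K_con (g : Gr V E) (σ : Setoid V) {R : Finset E} {f : E} (hf : f ∈ R) :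
    g.K (σ ⊔ g.pe f) (R.erase f) = g.K σ R := by
  unfold Gr.K
  rw [← g.sp_insert', Finset.insert_erase hf]

theorem SA_rk_con (g : Gr V E) (σ : Setoid V) {R : Finset E} {f : E} (hf : f ∈ R)
    (hl : ¬ σ (g.u f) (g.v f)) : g.rk σ R = g.rk (σ ⊔ g.pe f) (R.erase f) + 1 := by
  have h1 : nc (σ ⊔ g.pe f) + 1 = nc σ := nc_sup_pr hl
  have h2 : g.K (σ ⊔ g.pe f) (R.erase f) ≤ nc (σ ⊔ g.pe f) :=
    nc_anti ((g.le_sp _ _).trans le_sup_left)
  have h3 := SA_K_con g σ hf
  unfold Gr.rk
  omega

omit [Finite V] in
theorem SA_sdiff {R A : Finset E} {f : E} (hf : f ∈ R) (hA : A ⊆ R.erase f) :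
    insert f (R.erase f \ A) = R \ A := by
  have hfA : f ∉ A := fun h => Finset.notMem_erase f R (hA h)
  ext x
  simp only [Finset.mem_insert, Finset.mem_sdiff, Finset.mem_erase]
  constructor
  · rintro (rfl | ⟨⟨_, h1⟩, h2⟩)
    · exact ⟨hf, hfA⟩
    · exact ⟨h1, h2⟩
  · rintro ⟨h1, h2⟩
    by_cases hx : x = f
    · exact Or.inl hx
    · exact Or.inr ⟨⟨hx, h1⟩, h2⟩

end

theorem thm_SA (hLP : St_LP) (hCL : St_CL) (hGE : St_GE) (hEM : St_EM) : St_SA := by
  intro V E _ _ g σ R
  induction hn : R.card generalizing R σ with
  | zero =>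
    intro c hc j hj
    rw [Finset.card_eq_zero] at hn
    subst hn
    obtain ⟨h1, h2⟩ := hEM g σ
    by_cases hab : σ g.a g.b
    · rw [(h1 hab).2] at hj
      exact absurd rfl hj
    · rw [(h2 hab).2] at hj
      have hj0 : j = 0 := by
        by_contra hne
        apply hj
        have e : (1 : LaurentPolynomial ℤ) = T 0 := LaurentPolynomial.T_zero.symm
        rw [e, LaurentPolynomial.T_apply, if_neg (Ne.symm hne)]
      have hc0 : c = 0 := by
        by_contra hne
        apply hab
        have := hc ∅ (Finset.empty_subset _) (by rw [Finset.card_empty]; omega)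
        rwa [Finset.sdiff_empty, g.sp_empty] at this
      have hrk : g.rk σ ∅ = 1 := by
        unfold Gr.rk Gr.K Gr.ab
        rw [g.sp_empty]
        have := nc_sup_pr hab
        omega
      rw [hj0, hc0, hrk]
      simp
  | succ n ih =>
    intro c hc j hj
    have hne : R.Nonempty := by
      rw [← Finset.card_pos]; omega
    obtain ⟨f, hf⟩ := hne
    have hcard : (R.erase f).card = n := by
      rw [Finset.card_erase_of_mem hf]; omega
    -- the hypothesis for the contraction
    have hcon : ∀ A ⊆ R.erase f, A.card < c →
        g.sp (σ ⊔ g.pe f) (R.erase f \ A) g.a g.b := by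
      intro A hA hAc
      have := hc A (hA.trans (Finset.erase_subset _ _)) hAc
      rw [← SA_sdiff hf hA, g.sp_insert'] at this
      exact this
    by_cases hl : σ (g.u f) (g.v f)
    · -- loop
      rw [(hLP g σ R f hf hl).2, SA_T] at hj
      have hK : g.rk σ (R.erase f) = g.rk σ R := by
        have e : g.sp σ R = g.sp σ (R.erase f) := by
          rw [← Finset.insert_erase hf]
          rw [g.sp_insert_of (g.le_sp _ _ hl), Finset.erase_insert_eq_erase,
            Finset.erase_idem]
        unfold Gr.rk Gr.K
        rw [e]
      have := ih σ (R.erase f) hcard c (fun A hA hAc => by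
        have h1 := hc A (hA.trans (Finset.erase_subset _ _)) hAc
        rw [← SA_sdiff hf hA, g.sp_insert_of (g.le_sp _ _ hl)] at h1
        exact h1) (j - -1) hj
      rw [hK] at this
      push_cast
      omega
    · by_cases hg : (g.sp σ (R.erase f) ⊔ g.ab) (g.u f) (g.v f)
      · -- generic
        rw [(hGE g σ R f hf hl hg).2] at hj
        have hj' : (g.al σ (R.erase f)).coeff j ≠ 0 ∨
            (g.al (σ ⊔ g.pe f) (R.erase f)).coeff j ≠ 0 := by
          by_contra hcn
          push Not at hcn
          apply hj
          rw [AddMonoidAlgebra.coeff_add, Finsupp.add_apply, hcn.1, hcn.2, add_zero]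
        have hrk := SA_rk_con g σ hf hl
        rcases hj' with hj' | hj'
        · have hK : g.rk σ (R.erase f) = g.rk σ R := by
            have e : g.sp σ R ⊔ g.ab = g.sp σ (R.erase f) ⊔ g.ab := by
              conv_lhs => rw [← Finset.insert_erase hf]
              rw [g.sp_insert, sup_assoc, sup_comm (g.pe f), ← sup_assoc]
              exact sup_pr_of _ hg
            unfold Gr.rk Gr.K
            rw [e]
          have := ih σ (R.erase f) hcard (c - 1) (fun A hA hAc => by
            have hfA : f ∉ A := fun h => Finset.notMem_erase f R (hA h)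
            have h1 := hc (insert f A) (Finset.insert_subset hf
              (hA.trans (Finset.erase_subset _ _)))
              (by rw [Finset.card_insert_of_notMem hfA]; omega)
            have e : R \ insert f A = R.erase f \ A := by
              ext x
              simp only [Finset.mem_insert, Finset.mem_sdiff, Finset.mem_erase]
              tauto
            rw [e] at h1
            exact h1) j hj'
          rw [hK] at this
          push_cast
          omega
        · have := ih (σ ⊔ g.pe f) (R.erase f) hcard c hcon j hj'
          push_cast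
          omega
      · -- coloop
        rw [(hCL g σ R f hf hg).2, SA_T] at hj
        have hrk := SA_rk_con g σ hf hl
        have := ih (σ ⊔ g.pe f) (R.erase f) hcard c hcon (j - 1) hj
        push_cast
        omega

end Pool.ALT
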