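import Pool.Agent.ALT.Tu.StP

/-! # ALT, block Tu: module SB (support of `be`). Proof: docstring of `St_SB`. -/

set_option autoImplicit false

namespace Pool.ALT

open LaurentPolynomial

theorem SB_shift (n : ℤ) (P : LaurentPolynomial ℤ) (j : ℤ) :
    (T n * P).coeff j = P.coeff (j - n) := by
  rw [T, AddMonoidAlgebra.coeff_single_mul_apply, one_mul]
  congr 1
  ring

theorem SB_rk {V E : Type} [Finite V] (g : Gr V E) (σ : Setoid V) (R : Finset E) :
    (g.rk σ R : ℤ) = (nc σ : ℤ) - (g.K σ R : ℤ) := by
  have h : g.K σ R ≤ nc σ := nc_anti ((g.le_sp σ R).trans le_sup_left)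
  unfold Gr.rk
  omega

/-- the ends of a coloop -/
theorem SB_col {V E : Type} [DecidableEq E] (g : Gr V E) (σ : Setoid V) {R : Finset E} {f : E}
    (hc : ¬ (g.sp σ (R.erase f) ⊔ g.ab) (g.u f) (g.v f)) {A : Finset E} (hA : A ⊆ R.erase f) :
    g.sp (σ ⊔ g.pe f) A g.a g.b ↔ g.sp σ A g.a g.b := by
  rw [Gr.sp_sup]
  have hle : g.sp σ A ≤ g.sp σ (R.erase f) ⊔ g.ab := (g.sp_mono le_rfl hA).trans le_sup_left
  have hab : (g.sp σ (R.erase f) ⊔ g.ab) g.a g.b :=
    (le_sup_right : g.ab ≤ g.sp σ (R.erase f) ⊔ g.ab) (pr_rel g.a g.b)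
  constructor
  · intro h
    rcases (sup_pr_iff (g.sp σ A) (g.u f) (g.v f) g.a g.b).1 h with h | ⟨h1, h2⟩ | ⟨h1, h2⟩
    · exact h
    · exfalso
      apply hc
      exact Setoid.trans' _ (Setoid.symm' _ (hle h1)) (Setoid.trans' _ hab (Setoid.symm' _ (hle h2)))
    · exfalso
      apply hc
      exact Setoid.trans' _ (hle h2) (Setoid.trans' _ (Setoid.symm' _ hab) (hle h1))
  · intro h
    exact (le_sup_left : g.sp σ A ≤ g.sp σ A ⊔ g.pe f) h

theorem thm_SB (hLP : St_LP) (hCL : St_CL) (hGE : St_GE) (hEM : St_EM) : St_SB := by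
  intro V E _ _ g σ R d
  suffices H : ∀ n : ℕ, ∀ (R : Finset E), R.card = n → ∀ (σ : Setoid V) (d : ℕ),
      (∀ A ⊆ R, A.card < d → ¬ g.sp σ A g.a g.b) → ∀ j : ℤ,
      (g.be σ R).coeff j ≠ 0 → j + d ≤ g.rk σ R ∧ (g.rk σ R : ℤ) - R.card ≤ j from
    H R.card R rfl σ d
  clear σ R d
  intro n
  induction n with
  | zero =>
    intro R hR σ d hd j hj
    obtain rfl : R = ∅ := Finset.card_eq_zero.1 hR
    obtain ⟨h1, h2⟩ := hEM g σ
    by_cases hab : σ g.a g.b
    · rw [(h1 hab).1, ← T_zero, T_apply] at hj
      have hj0 : j = 0 := by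
        by_contra hne
        exact hj (if_neg (fun h => hne h.symm))
      have hd0 : d = 0 := by
        by_contra hne
        refine hd ∅ (Finset.Subset.refl _) ?_ ?_
        · rw [Finset.card_empty]
          omega
        · rw [Gr.sp_empty]
          exact hab
      have hK : g.K σ ∅ = nc σ := by
        unfold Gr.K Gr.ab
        rw [Gr.sp_empty, sup_pr_of σ hab]
      have hrk := SB_rk g σ (∅ : Finset E)
      rw [hK] at hrk
      rw [hrk, hj0, hd0, Finset.card_empty]
      constructor <;> simp
    · rw [(h2 hab).1] at hj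
      exact absurd rfl hj
  | succ n ih =>
    intro R hR σ d hd j hj
    obtain ⟨f, hf⟩ : R.Nonempty := Finset.card_pos.1 (by omega)
    have hcard : (R.erase f).card = n := by
      rw [Finset.card_erase_of_mem hf, hR]
      omega
    have hins : insert f (R.erase f) = R := Finset.insert_erase hf
    have hrk := SB_rk g σ R
    have hrk1 := SB_rk g σ (R.erase f)
    have hrk2 := SB_rk g (σ ⊔ g.pe f) (R.erase f)
    have hsub : ∀ A ⊆ R.erase f, A ⊆ R := fun A hA => hA.trans (Finset.erase_subset f R)
    have hsp : g.sp σ R = g.sp (σ ⊔ g.pe f) (R.erase f) := by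
      have := g.sp_insert' σ f (R.erase f)
      rw [hins] at this
      exact this
    have hK2 : g.K σ R = g.K (σ ⊔ g.pe f) (R.erase f) := by
      unfold Gr.K
      rw [hsp]
    by_cases hl : σ (g.u f) (g.v f)
    · -- loop
      rw [(hLP g σ R f hf hl).1, SB_shift] at hj
      have hK1 : g.K σ R = g.K σ (R.erase f) := by
        unfold Gr.K
        have := g.sp_insert_of (σ := σ) (e := f) (A := R.erase f) (g.le_sp σ _ hl)
        rw [hins] at this
        rw [this]
      have := ih (R.erase f) hcard σ d (fun A hA hAc => hd A (hsub A hA) hAc) _ hj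
      rw [hcard] at this
      omega
    · have hnc : nc (σ ⊔ g.pe f) + 1 = nc σ := nc_sup_pr hl
      by_cases hc : (g.sp σ (R.erase f) ⊔ g.ab) (g.u f) (g.v f)
      · -- generic
        rw [(hGE g σ R f hf hl hc).1, AddMonoidAlgebra.coeff_add, Finsupp.add_apply] at hj
        have hK1 : g.K σ R = g.K σ (R.erase f) := by
          unfold Gr.K
          have h1 := g.sp_insert σ f (R.erase f)
          rw [hins] at h1
          rw [h1, sup_assoc, sup_comm (g.pe f), ← sup_assoc]
          exact congrArg nc (sup_pr_of _ hc)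
        by_cases hj1 : (g.be σ (R.erase f)).coeff j = 0
        · rw [hj1, zero_add] at hj
          have := ih (R.erase f) hcard (σ ⊔ g.pe f) (d - 1) (fun A hA hAc => by
            rw [← g.sp_insert' σ f A]
            refine hd (insert f A) ?_ ?_
            · rw [← hins]
              exact Finset.insert_subset_insert f hA
            · have := Finset.card_insert_le f A
              omega) j hj
          rw [hcard] at this
          omega
        · have := ih (R.erase f) hcard σ d (fun A hA hAc => hd A (hsub A hA) hAc) j hj1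
          rw [hcard] at this
          omega
      · -- coloop
        rw [(hCL g σ R f hf hc).1, SB_shift] at hj
        have := ih (R.erase f) hcard (σ ⊔ g.pe f) d (fun A hA hAc h =>
          hd A (hsub A hA) hAc ((SB_col g σ hc hA).1 h)) _ hj
        rw [hcard] at this
        omega

end Pool.ALT
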