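import Pool.Agent.ALT.Tu.StR

/-! # ALT, block Tu: [SQ] an edge with the full potential difference joins `a` and `b` -/

set_option autoImplicit false

namespace Pool.ALT

variable {V E : Type}

/-- the term of the flow identity for `Pi.single y 1` -/
theorem SQ_term [DecidableEq V] (g : Gr V E) (ph : V → ℝ) (y : V) (e : E) :
    g.d ph e * g.d (Pi.single y 1) e
      = (if g.v e = y then ph y - ph (g.u e) else 0) + (if g.u e = y then ph y - ph (g.v e) else 0) := by
  unfold Gr.d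
  by_cases h1 : g.v e = y <;> by_cases h2 : g.u e = y
  · rw [if_pos h1, if_pos h2, h1, h2]
    ring
  · rw [if_pos h1, if_neg h2, h1, Pi.single_eq_same, Pi.single_eq_of_ne h2]
    ring
  · rw [if_neg h1, if_pos h2, h2, Pi.single_eq_same, Pi.single_eq_of_ne h1]
    ring
  · rw [if_neg h1, if_neg h2, Pi.single_eq_of_ne h1, Pi.single_eq_of_ne h2]
    ring

theorem SQ_top [DecidableEq V] (g : Gr V E) (R : Finset E) (ph : V → ℝ) (r : ℝ) (hr : 0 < r)
    (ha : ph g.a = 0) (hfl : ∀ h : V → ℝ, ∑ e ∈ R, g.d ph e * g.d h e = h g.b - h g.a)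
    (hle : ∀ x, ph x ≤ r) {e : E} (he : e ∈ R) {x y : V}
    (hxy : (g.u e = x ∧ g.v e = y) ∨ (g.u e = y ∧ g.v e = x)) (hx : ph x = 0) (hy : ph y = r) :
    y = g.b := by
  by_contra hyb
  have hya : y ≠ g.a := by
    rintro rfl
    linarith
  have h1 := hfl (Pi.single y 1)
  rw [Pi.single_eq_of_ne (Ne.symm hyb), Pi.single_eq_of_ne (Ne.symm hya), sub_zero] at h1
  have h2 : ∀ e' ∈ R, 0 ≤ g.d ph e' * g.d (Pi.single y 1) e' := by
    intro e' _
    rw [SQ_term]
    have := hle (g.u e')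
    have := hle (g.v e')
    refine add_nonneg ?_ ?_
    · split_ifs
      · linarith
      · exact le_rfl
    · split_ifs
      · linarith
      · exact le_rfl
  have h3 := (Finset.sum_eq_zero_iff_of_nonneg h2).1 h1 e he
  have hne : x ≠ y := by
    rintro rfl
    linarith
  rw [SQ_term] at h3
  rcases hxy with ⟨hu, hv⟩ | ⟨hu, hv⟩
  · rw [hu, hv, if_pos rfl, if_neg hne] at h3
    linarith
  · rw [hu, hv, if_pos rfl, if_neg hne] at h3
    linarith

theorem SQ_bot [DecidableEq V] (g : Gr V E) (R : Finset E) (ph : V → ℝ) (r : ℝ) (hr : 0 < r)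
    (hb : ph g.b = r) (hfl : ∀ h : V → ℝ, ∑ e ∈ R, g.d ph e * g.d h e = h g.b - h g.a)
    (hge : ∀ x, 0 ≤ ph x) {e : E} (he : e ∈ R) {x y : V}
    (hxy : (g.u e = x ∧ g.v e = y) ∨ (g.u e = y ∧ g.v e = x)) (hx : ph x = 0) (hy : ph y = r) :
    x = g.a := by
  by_contra hxa
  have hxb : x ≠ g.b := by
    rintro rfl
    linarith
  have h1 := hfl (Pi.single x 1)
  rw [Pi.single_eq_of_ne (Ne.symm hxa), Pi.single_eq_of_ne (Ne.symm hxb), sub_zero] at h1
  have h2 : ∀ e' ∈ R, g.d ph e' * g.d (Pi.single x 1) e' ≤ 0 := by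
    intro e' _
    rw [SQ_term]
    have := hge (g.u e')
    have := hge (g.v e')
    refine add_nonpos ?_ ?_
    · split_ifs
      · linarith
      · exact le_rfl
    · split_ifs
      · linarith
      · exact le_rfl
  have h3 := (Finset.sum_eq_zero_iff_of_nonpos h2).1 h1 e he
  have hne : y ≠ x := by
    rintro rfl
    linarith
  rw [SQ_term] at h3
  rcases hxy with ⟨hu, hv⟩ | ⟨hu, hv⟩
  · rw [hu, hv, if_pos rfl, if_neg hne] at h3
    linarith
  · rw [hu, hv, if_pos rfl, if_neg hne] at h3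
    linarith

theorem thm_SQ (hFL : St_FL) (_hKS : St_KS) : St_SQ := by
  intro V E _ _ _ g R G e hab hG he hfull
  obtain ⟨h0, hr, hfl, hrg⟩ := hFL g R G hab hG
  have hge := fun x => (hrg x).1
  have hle := fun x => (hrg x).2
  have hpe : g.sp ⊥ {e} (g.u e) (g.v e) :=
    g.pe_le_sp ⊥ (Finset.mem_singleton_self e) (pr_rel _ _)
  unfold Gr.d at hfull
  rcases le_total 0 (G g.b (g.v e) - G g.b (g.u e)) with h1 | h1
  · rw [abs_of_nonneg h1] at hfull
    have hu : G g.b (g.u e) = 0 := le_antisymm (by linarith [hle (g.v e)]) (hge _)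
    have hv : G g.b (g.v e) = G g.b g.b := le_antisymm (hle _) (by linarith)
    have e1 := SQ_top g R (G g.b) (G g.b g.b) hr h0 hfl hle he (Or.inl ⟨rfl, rfl⟩) hu hv
    have e2 := SQ_bot g R (G g.b) (G g.b g.b) hr rfl hfl hge he (Or.inl ⟨rfl, rfl⟩) hu hv
    rw [← e1, ← e2]
    exact hpe
  · rw [abs_of_nonpos h1] at hfull
    have hv : G g.b (g.v e) = 0 := le_antisymm (by linarith [hle (g.u e)]) (hge _)
    have hu : G g.b (g.u e) = G g.b g.b := le_antisymm (hle _) (by linarith)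
    have e1 := SQ_top g R (G g.b) (G g.b g.b) hr h0 hfl hle he (Or.inr ⟨rfl, rfl⟩) hv hu
    have e2 := SQ_bot g R (G g.b) (G g.b g.b) hr rfl hfl hge he (Or.inr ⟨rfl, rfl⟩) hv hu
    rw [← e1, ← e2]
    exact (g.sp ⊥ {e}).symm' hpe

end Pool.ALT
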