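import Pool.Agent.ALT.Tu.LP
import Pool.Agent.ALT.Tu.CL
import Pool.Agent.ALT.Tu.GE
import Pool.Agent.ALT.Tu.EM
import Pool.Agent.ALT.Tu.NN
import Pool.Agent.ALT.Tu.SB
import Pool.Agent.ALT.Tu.SA
import Pool.Agent.ALT.Tu.AV
import Pool.Agent.ALT.Tu.AT
import Pool.Agent.ALT.Tu.MO
import Pool.Agent.ALT.Tu.M0
import Pool.Agent.ALT.Tu.M1
import Pool.Agent.ALT.Tu.PO
import Pool.Agent.ALT.Tu.CU
import Pool.Agent.ALT.Tu.JE
import Pool.Agent.ALT.Tu.JL
import Pool.Agent.ALT.Tu.RT
import Pool.Agent.ALT.Tu.RN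
import Pool.Agent.ALT.Tu.RB
import Pool.Agent.ALT.Tu.DR
import Pool.Agent.ALT.Tu.DB
import Pool.Agent.ALT.Tu.MT
import Pool.Agent.ALT.Tu.N1
import Pool.Agent.ALT.Tu.PQ
import Pool.Agent.ALT.Tu.PP
import Pool.Agent.ALT.Tu.KE
import Pool.Agent.ALT.Tu.KS
import Pool.Agent.ALT.Tu.KI
import Pool.Agent.ALT.Tu.K1
import Pool.Agent.ALT.Tu.K2
import Pool.Agent.ALT.Tu.KR
import Pool.Agent.ALT.Tu.KF
import Pool.Agent.ALT.Tu.FL
import Pool.Agent.ALT.Tu.SQ
import Pool.Agent.ALT.Tu.BH
import Pool.Agent.ALT.Tu.RL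
import Pool.Agent.ALT.Tu.QG
import Pool.Agent.ALT.Tu.PD
import Pool.Agent.ALT.Tu.RA
import Pool.Agent.ALT.Tu.DS
import Pool.Agent.ALT.Tu.DN
import Pool.Agent.ALT.Tu.DM
import Pool.Agent.ALT.Tu.DI
import Pool.Agent.ALT.Tu.FN

/-! # ALT, block Tu: all theorems without hypotheses -/

set_option autoImplicit false

namespace Pool.ALT

theorem all_LP : St_LP := thm_LP
theorem all_CL : St_CL := thm_CL
theorem all_GE : St_GE := thm_GE
theorem all_EM : St_EM := thm_EM
theorem all_NN : St_NN := thm_NN all_LP all_CL all_GE all_EM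
theorem all_SB : St_SB := thm_SB all_LP all_CL all_GE all_EM
theorem all_SA : St_SA := thm_SA all_LP all_CL all_GE all_EM
theorem all_AV : St_AV := thm_AV all_LP all_CL all_GE all_EM all_NN
theorem all_AT : St_AT := thm_AT
theorem all_MO : St_MO := thm_MO
theorem all_M0 : St_M0 := thm_M0 all_MO
theorem all_M1 : St_M1 := thm_M1 all_MO
theorem all_PO : St_PO := thm_PO
theorem all_CU : St_CU := thm_CU
theorem all_JE : St_JE := thm_JE
theorem all_JL : St_JL := thm_JL all_NN all_SB all_SA all_M0 all_PO all_CU all_JE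

theorem all_RT : St_RT := thm_RT
theorem all_RN : St_RN := thm_RN all_RT
theorem all_RB : St_RB := thm_RB all_RT
theorem all_DR : St_DR := thm_DR
theorem all_DB : St_DB := thm_DB
theorem all_MT : St_MT := thm_MT all_RN all_RB all_DR all_DB
theorem all_N1 : St_N1 := thm_N1 all_RT all_RN
theorem all_PQ : St_PQ := thm_PQ all_RT
theorem all_PP : St_PP := thm_PP all_RT
theorem all_KE : St_KE := thm_KE all_MT
theorem all_KS : St_KS := thm_KS
theorem all_KI : St_KI := thm_KI all_MT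
theorem all_K1 : St_K1 := thm_K1 all_MT all_KI
theorem all_K2 : St_K2 := thm_K2 all_MT all_KI all_KS
theorem all_KR : St_KR := thm_KR all_KS
theorem all_KF : St_KF := thm_KF all_N1 all_K1 all_KR all_KS
theorem all_FL : St_FL := thm_FL all_KS
theorem all_SQ : St_SQ := thm_SQ all_FL all_KS
theorem all_BH : St_BH := thm_BH all_KF all_KR all_KS all_K1 all_FL
theorem all_RL : St_RL := thm_RL all_K1 all_KR all_KS
theorem all_QG : St_QG := thm_QG
theorem all_PD : St_PD := thm_PD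
theorem all_RA : St_RA := thm_RA all_RT all_MT all_KE all_K2 all_KS all_KR all_RL all_QG all_PD
theorem all_DS : St_DS := thm_DS
theorem all_DN : St_DN := thm_DN all_RT all_DS
theorem all_DM : St_DM := thm_DM all_RT all_DS all_M1
theorem all_DI : St_DI := thm_DI all_DS
theorem all_FN : St_FN := thm_FN all_RT all_PQ all_PP all_KE all_KR all_KS all_FL all_SQ all_BH
  all_RL all_K2 all_DS all_DN all_DM all_M0 all_JE

end Pool.ALT
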