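import Pool.Agent.ALT.Tu.Part
import Pool.Agent.ARB.Jet

/-! # ALT: the activity pair `(be, al)` of a graph with two marked vertices, rooted counts, kernels: definitions

`g : Gr V E` is a multigraph with marked vertices `a`, `b` (the extra edge `e0 = ab` is not in `E`).
A minor of `g + e0` is given by a partition `σ` (contraction of `f` = join with `g.pe f`) and the set
`R` of the remaining edges. `s = T 1`, `x = s`, `y = 1/s`. -/

set_option autoImplicit false

namespace Pool.ALT

open LaurentPolynomial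

variable {V E : Type}

/-- number of classes of the partition spanned by everything, marked vertices joined -/
noncomputable def Gr.K (g : Gr V E) (σ : Setoid V) (R : Finset E) : ℕ := nc (g.sp σ R ⊔ g.ab)

/-- rank of the minor of `g + e0` -/
noncomputable def Gr.rk (g : Gr V E) (σ : Setoid V) (R : Finset E) : ℕ := nc σ - g.K σ R

/-- nullity of `A` -/
noncomputable def Gr.nul (g : Gr V E) (σ : Setoid V) (A : Finset E) : ℕ :=
  A.card + nc (g.sp σ A) - nc σ

/-- `x - 1 = s - 1` -/
noncomputable def uu : LaurentPolynomial ℤ := T 1 - 1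

/-- `y - 1 = 1/s - 1` -/
noncomputable def vv : LaurentPolynomial ℤ := T (-1) - 1

open Classical in
/-- state sum over the `A` which join the marked vertices; = sum over the trees without `e0` -/
noncomputable def Gr.be (g : Gr V E) (σ : Setoid V) (R : Finset E) : LaurentPolynomial ℤ :=
  ∑ A ∈ R.powerset with g.sp σ A g.a g.b, uu ^ (nc (g.sp σ A) - g.K σ R) * vv ^ g.nul σ A

open Classical in
/-- state sum over the `A` which separate the marked vertices; = sum over the trees with `e0` -/
noncomputable def Gr.al (g : Gr V E) (σ : Setoid V) (R : Finset E) : LaurentPolynomial ℤ :=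
  ∑ A ∈ R.powerset with ¬ g.sp σ A g.a g.b, uu ^ (nc (g.sp σ A) - g.K σ R - 1) * vv ^ g.nul σ A

/-- sum of the coefficients of degree `≥ k` -/
noncomputable def tl (P : LaurentPolynomial ℤ) (k : ℤ) : ℤ :=
  ∑ j ∈ P.coeff.support with k ≤ j, P.coeff j

/-- the moments of the coefficient sequence -/
noncomputable def mo (r : ℕ) (P : LaurentPolynomial ℤ) : ℤ := ∑ j ∈ P.coeff.support, j ^ r * P.coeff j

/-- all coefficients are `≥ 0` -/
def NN (P : LaurentPolynomial ℤ) : Prop := ∀ j, 0 ≤ P.coeff j

open Classical in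
/-- number of spanning trees of the minor without `e0` -/
noncomputable def Gr.p (g : Gr V E) (σ : Setoid V) (R : Finset E) : ℕ :=
  (R.powerset.filter fun A => nc (g.sp σ A) = g.K σ R ∧ A.card + nc (g.sp σ A) = nc σ).card

open Classical in
/-- number of spanning trees of the minor which contain `e0` -/
noncomputable def Gr.q (g : Gr V E) (σ : Setoid V) (R : Finset E) : ℕ :=
  (R.powerset.filter fun A => nc (g.sp σ A) = g.K σ R + 1 ∧ ¬ g.sp σ A g.a g.b ∧
    A.card + nc (g.sp σ A) = nc σ).card

/-- the 2-jet of the pair `(e^{h/2} P(e^{-h}), Q(e^{-h}))` in the form used for arborescent tangles -/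
noncomputable def jetOf (P Q : LaurentPolynomial ℤ) : Pool.Agent.ARB.Jet :=
  let c0 : ℚ := mo 0 P
  let c1 : ℚ := mo 0 P / 2 - mo 1 P
  let c2 : ℚ := mo 0 P / 8 - mo 1 P / 2 + mo 2 P / 2
  let d0 : ℚ := mo 0 Q
  let d1 : ℚ := -mo 1 Q
  let d2 : ℚ := mo 2 Q / 2
  { p := c0
    q := d0
    w := c1 * d0 - c0 * d1
    G := c1 ^ 2 - 2 * c0 * c2
    F := c1 * d1 - c0 * d2 - c2 * d0
    H := d1 ^ 2 - 2 * d0 * d2 }

/-! ### rooted counts -/

/-- the partition that identifies all vertices of `W` -/
def rt (W : Finset V) : Setoid V where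
  r x y := x = y ∨ (x ∈ W ∧ y ∈ W)
  iseqv := by
    constructor
    · intro x
      exact Or.inl rfl
    · rintro x y (h | ⟨h1, h2⟩)
      · exact Or.inl h.symm
      · exact Or.inr ⟨h2, h1⟩
    · rintro x y z (h | ⟨h1, h2⟩) (h' | ⟨h1', h2'⟩)
      · exact Or.inl (h.trans h')
      · rw [h]
        exact Or.inr ⟨h1', h2'⟩
      · rw [← h']
        exact Or.inr ⟨h1, h2⟩
      · exact Or.inr ⟨h1, h2'⟩

open Classical in
/-- number of forests in `R` in which every tree contains exactly one root -/
noncomputable def Gr.NF [Fintype V] (g : Gr V E) (R : Finset E) (W : Finset V) : ℕ :=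
  (R.powerset.filter fun A => A.card + W.card = Fintype.card V ∧ nc (g.sp (rt W) A) = 1).card

open Classical in
/-- number of forests in `R` in which every tree contains exactly one root, except for one tree
without root -/
noncomputable def Gr.NF1 [Fintype V] (g : Gr V E) (R : Finset E) (W : Finset V) : ℕ :=
  (R.powerset.filter fun A => A.card + W.card + 1 = Fintype.card V ∧ nc (g.sp (rt W) A) = 2).card

/-- difference along an edge -/
def Gr.d (g : Gr V E) (f : V → ℝ) (e : E) : ℝ := f (g.v e) - f (g.u e)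

/-- the Laplace matrix of the edges in `R` -/
def Gr.Lp [DecidableEq V] (g : Gr V E) (R : Finset E) : Matrix V V ℝ :=
  fun x y => ∑ e ∈ R, g.d (Pi.single x 1) e * g.d (Pi.single y 1) e

/-- the Laplace matrix with unit rows and columns for the roots -/
def Gr.LW [DecidableEq V] (g : Gr V E) (R : Finset E) (W : Finset V) : Matrix V V ℝ :=
  fun x y => if x ∈ W ∨ y ∈ W then (if x = y then 1 else 0) else g.Lp R x y

/-- `G` is the reproducing kernel of the energy form of `R` on the functions which vanish on `W` -/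
structure Gr.Ker (g : Gr V E) (R : Finset E) (W : Finset V) (G : V → V → ℝ) : Prop where
  out : ∀ x ∈ W, ∀ y, G x y = 0
  van : ∀ x, ∀ y ∈ W, G x y = 0
  rep : ∀ x, ∀ f : V → ℝ, (∀ y ∈ W, f y = 0) → x ∉ W → ∑ e ∈ R, g.d (G x) e * g.d f e = f x

/-- `G(δ_u - δ_v)`, effective resistance between the ends of `e` -/
def Gr.rs (g : Gr V E) (G : V → V → ℝ) (e : E) : ℝ :=
  G (g.u e) (g.u e) + G (g.v e) (g.v e) - 2 * G (g.u e) (g.v e)

/-- a pair of dual graphs: `g` with marked vertices `a`, `b` (edge `e0`), `h` with marked vertices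
`c`, `d` (edge `e0*`) -/
structure Du {W : Type} [Fintype V] [Fintype W] [Fintype E] [DecidableEq E]
    (g : Gr V E) (h : Gr W E) : Prop where
  ab : g.a ≠ g.b
  cd : h.a ≠ h.b
  con : nc (g.sp ⊥ Finset.univ) = 1
  con' : nc (h.sp ⊥ Finset.univ) = 1
  du : ∀ A : Finset E, nc (h.sp ⊥ (Finset.univ \ A) ⊔ h.ab) + Fintype.card V
    = nc (g.sp ⊥ A) + A.card + 1
  sep : ∀ A : Finset E, g.sp ⊥ A g.a g.b ↔ ¬ h.sp ⊥ (Finset.univ \ A) h.a h.b

end Pool.ALT
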