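import Pool.Agent.ALT.Tu.Defs
import Pool.Agent.ALT.Mo.Defs
import Pool.Agent.ALT.Ind.PJ

/-! # ALT Tu HJ: the 2-jet of the bracket pair `(T m * be(s), T (m + 2) * al(s))`, `s = -A ^ 4` -/

set_option autoImplicit false

namespace Pool.ALT

open LaurentPolynomial PowerSeries Pool.Agent.ARB

/-- relation between the pair `(g, b)` and the jet `J`: the conclusion of `pair_jet` -/
def HJr (P : EvPt) (g b : LaurentPolynomial ℤ) (J : Jet) : Prop :=
  ∃ k g0 g1 g2 b0 b1 b2 : ℂ, k ^ 8 = 1 ∧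
    coeff 0 (P.ev g) = -Complex.I * k * g0 ∧ coeff 1 (P.ev g) = -Complex.I * k * g1 ∧
    coeff 2 (P.ev g) = -Complex.I * k * g2 ∧
    coeff 0 (P.ev b) = k * b0 ∧ coeff 1 (P.ev b) = k * b1 ∧
    coeff 2 (P.ev b) = k * b2 ∧
    (J.p : ℂ) = g0 ∧ (J.q : ℂ) = b0 ∧ (J.w : ℂ) = g1 * b0 - g0 * b1 ∧
    (J.G : ℂ) = -(2 * g0 * g2 - g1 ^ 2) ∧ (J.F : ℂ) = -(g2 * b0 - g1 * b1 + g0 * b2) ∧
    (J.H : ℂ) = -(2 * b0 * b2 - b1 ^ 2)

/-- 2-jet of a unit power series of exponential type -/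
theorem HJ_zpow {a : (PowerSeries ℂ)ˣ} {c x : ℂ} (hc : c ≠ 0)
    (h0 : coeff 0 (a : PowerSeries ℂ) = c) (h1 : coeff 1 (a : PowerSeries ℂ) = c * x)
    (h2 : coeff 2 (a : PowerSeries ℂ) = c * x ^ 2 / 2) (n : ℤ) :
    coeff 0 ((a ^ n : (PowerSeries ℂ)ˣ) : PowerSeries ℂ) = c ^ n ∧
    coeff 1 ((a ^ n : (PowerSeries ℂ)ˣ) : PowerSeries ℂ) = c ^ n * (n * x) ∧
    coeff 2 ((a ^ n : (PowerSeries ℂ)ˣ) : PowerSeries ℂ) = c ^ n * (n * x) ^ 2 / 2 := by
  have key : ∀ m : ℕ, coeff 0 ((a ^ m : (PowerSeries ℂ)ˣ) : PowerSeries ℂ) = c ^ m ∧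
      coeff 1 ((a ^ m : (PowerSeries ℂ)ˣ) : PowerSeries ℂ) = c ^ m * (m * x) ∧
      coeff 2 ((a ^ m : (PowerSeries ℂ)ˣ) : PowerSeries ℂ) = c ^ m * (m * x) ^ 2 / 2 := by
    intro m
    induction m with
    | zero => simp [PowerSeries.coeff_one]
    | succ m ih =>
      obtain ⟨i0, i1, i2⟩ := ih
      rw [pow_succ, Units.val_mul, bc0, bc1, bc2, i0, i1, i2, h0, h1, h2, pow_succ]
      push_cast
      refine ⟨rfl, by ring, by ring⟩
  rcases Int.eq_nat_or_neg n with ⟨m, rfl | rfl⟩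
  · have := key m
    simpa using this
  · obtain ⟨i0, i1, i2⟩ := key m
    have hu : ((a ^ m : (PowerSeries ℂ)ˣ) : PowerSeries ℂ) *
        ((a ^ (-(m : ℤ)) : (PowerSeries ℂ)ˣ) : PowerSeries ℂ) = 1 := by
      rw [← Units.val_mul, ← zpow_natCast, ← zpow_add, add_neg_cancel, zpow_zero, Units.val_one]
    have e0 := congrArg (coeff 0) hu
    have e1 := congrArg (coeff 1) hu
    have e2 := congrArg (coeff 2) hu
    rw [bc0, i0] at e0
    rw [bc1, i0, i1] at e1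
    rw [bc2, i0, i1, i2] at e2
    have o0 : coeff 0 (1 : PowerSeries ℂ) = 1 := by simp
    have o1 : coeff 1 (1 : PowerSeries ℂ) = 0 := by simp [PowerSeries.coeff_one]
    have o2 : coeff 2 (1 : PowerSeries ℂ) = 0 := by simp [PowerSeries.coeff_one]
    rw [o0] at e0
    rw [o1] at e1
    rw [o2] at e2
    have hcm : c ^ m ≠ 0 := pow_ne_zero _ hc
    set X := ((a ^ (-(m : ℤ)) : (PowerSeries ℂ)ˣ) : PowerSeries ℂ) with hX
    have r0 : coeff 0 X = (c ^ m)⁻¹ := eq_inv_of_mul_eq_one_right e0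
    have r1 : coeff 1 X = (c ^ m)⁻¹ * (-(m * x)) := by
      rw [r0] at e1
      have : c ^ m * (coeff 1 X - (c ^ m)⁻¹ * (-(m * x))) = 0 := by
        have h3 : c ^ m * (c ^ m)⁻¹ = 1 := mul_inv_cancel₀ hcm
        linear_combination e1
      rcases mul_eq_zero.1 this with h | h
      · exact absurd h hcm
      · exact sub_eq_zero.1 h
    have r2 : coeff 2 X = (c ^ m)⁻¹ * (-(m * x)) ^ 2 / 2 := by
      rw [r0, r1] at e2
      have : c ^ m * (coeff 2 X - (c ^ m)⁻¹ * (-(m * x)) ^ 2 / 2) = 0 := by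
        linear_combination e2
      rcases mul_eq_zero.1 this with h | h
      · exact absurd h hcm
      · exact sub_eq_zero.1 h
    refine ⟨?_, ?_, ?_⟩
    · rw [r0, zpow_neg, zpow_natCast]
    · rw [r1, zpow_neg, zpow_natCast]
      push_cast
      ring
    · rw [r2, zpow_neg, zpow_natCast]
      push_cast
      ring

theorem HJ_T (P : EvPt) (n : ℤ) :
    coeff 0 (P.ev (T n)) = P.z ^ n ∧ coeff 1 (P.ev (T n)) = P.z ^ n * (n * (-1 / 4)) ∧
    coeff 2 (P.ev (T n)) = P.z ^ n * (n * (-1 / 4)) ^ 2 / 2 := by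
  rw [P.ev_T]
  exact HJ_zpow P.z0 P.a0 (by rw [P.a1]; ring) (by rw [P.a2]; ring) n

/-- the 2-jet of `X(-A ^ (4 e))`, `e = 1` or `e = -1` -/
theorem HJ_phi (P : EvPt) (ε : Bool) (X : LaurentPolynomial ℤ) :
    coeff 0 (P.ev (phi ε X)) = mo 0 X ∧ coeff 1 (P.ev (phi ε X)) = -sg ε * mo 1 X ∧
    coeff 2 (P.ev (phi ε X)) = mo 2 X / 2 := by
  obtain ⟨e, hee⟩ : ∃ e, e = sg ε := ⟨_, rfl⟩
  have he : e = 1 ∨ e = -1 := by
    rw [hee]
    cases ε
    · exact Or.inr rfl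
    · exact Or.inl rfl
  rw [← hee]
  have hadd : ∀ r (A B : LaurentPolynomial ℤ), mo r (A + B) = mo r A + mo r B := by
    intro r A B
    unfold mo
    have h := Finsupp.sum_add_index' (f := A.coeff) (g := B.coeff)
      (h := fun (j : ℤ) (c : ℤ) => j ^ r * c) (fun j => by simp) (fun j c d => by ring)
    exact h
  have hCT : ∀ r (c n : ℤ), mo r (LaurentPolynomial.C c * T n) = n ^ r * c := by
    intro r c n
    unfold mo
    rw [← single_eq_C_mul_T]
    have h := Finsupp.sum_single_index (a := n) (b := c)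
      (h := fun (j : ℤ) (c : ℤ) => j ^ r * c) (by simp)
    exact h
  have hz4 := P.z4
  have hu : ∀ n : ℤ, coeff 0 (P.ev (phi ε (T n))) = 1 ∧
      coeff 1 (P.ev (phi ε (T n))) = n * (-e) ∧
      coeff 2 (P.ev (phi ε (T n))) = (n * (-e)) ^ 2 / 2 := by
    intro n
    have h1 : P.ev (phi ε (T n))
        = (((Units.map P.ev.toMonoidHom (u4 ε)) ^ n : (PowerSeries ℂ)ˣ) :
            PowerSeries ℂ) := by
      unfold phi
      rw [eval₂_T, ← map_zpow]
      rfl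
    have h2 : ((Units.map P.ev.toMonoidHom (u4 ε) : (PowerSeries ℂ)ˣ) :
        PowerSeries ℂ) = -P.ev (T (4 * e)) := by
      rw [hee]
      change P.ev (-T (4 * sg ε)) = _
      rw [map_neg]
    have hz : P.z ^ (4 * e) = -1 := by
      rcases he with rfl | rfl
      · rw [mul_one]
        exact_mod_cast hz4
      · rw [mul_neg_one, zpow_neg]
        have : P.z ^ (4 : ℤ) = -1 := by exact_mod_cast hz4
        rw [this]
        norm_num
    obtain ⟨t0, t1, t2⟩ := HJ_T P (4 * e)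
    rw [hz] at t0 t1 t2
    have key := HJ_zpow (a := Units.map P.ev.toMonoidHom (u4 ε)) (c := 1) (x := -e)
      one_ne_zero (by rw [h2, map_neg, t0]; ring) (by rw [h2, map_neg, t1]; push_cast; ring)
      (by rw [h2, map_neg, t2]; push_cast; ring) n
    rw [one_zpow, one_mul, one_mul] at key
    rw [h1]
    exact key
  induction X using LaurentPolynomial.induction_on' with
  | add A B ihA ihB =>
    obtain ⟨a0, a1, a2⟩ := ihA
    obtain ⟨b0, b1, b2⟩ := ihB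
    rw [hadd, hadd, hadd, map_add, map_add, map_add, map_add, map_add, a0, a1, a2, b0, b1, b2]
    push_cast
    refine ⟨rfl, by ring, by ring⟩
  | C_mul_T n c =>
    obtain ⟨u0, u1, u2⟩ := hu n
    have hC : P.ev (phi ε (LaurentPolynomial.C c)) = ((c : ℤ) : PowerSeries ℂ) := by
      have h1 : (LaurentPolynomial.C c : LaurentPolynomial ℤ) = ((c : ℤ) : LaurentPolynomial ℤ) := by
        simp
      rw [h1, map_intCast, map_intCast]
    have hc : ((c : ℤ) : PowerSeries ℂ) = PowerSeries.C (c : ℂ) := by simp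
    have k0 : coeff 0 (P.ev (phi ε (LaurentPolynomial.C c * T n))) = c := by
      rw [map_mul, map_mul, hC, hc, PowerSeries.coeff_C_mul, u0, mul_one]
    have k1 : coeff 1 (P.ev (phi ε (LaurentPolynomial.C c * T n))) = c * (n * (-e)) := by
      rw [map_mul, map_mul, hC, hc, PowerSeries.coeff_C_mul, u1]
    have k2 : coeff 2 (P.ev (phi ε (LaurentPolynomial.C c * T n))) = c * ((n * (-e)) ^ 2 / 2) := by
      rw [map_mul, map_mul, hC, hc, PowerSeries.coeff_C_mul, u2]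
    rw [k0, k1, k2, hCT, hCT, hCT]
    have he2 : (e : ℂ) ^ 2 = 1 := by
      rcases he with rfl | rfl <;> norm_num
    push_cast
    refine ⟨by ring, by ring, ?_⟩
    linear_combination c * n ^ 2 / 2 * he2

/-- the main theorem: the jet of the pair of a state sum -/
theorem HJ_main (P : EvPt) (ε : Bool) (m : ℤ) (X Y : LaurentPolynomial ℤ) (J : Jet)
    (hJ : J = if ε then jetOf X Y else ⟨-(jetOf X Y).p, (jetOf X Y).q, (jetOf X Y).w,
      (jetOf X Y).G, -(jetOf X Y).F, (jetOf X Y).H⟩) :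
    HJr P (T (sg ε * m) * phi ε X) (T (sg ε * (m + 2)) * phi ε Y) J := by
  obtain ⟨x0, x1, x2⟩ := HJ_phi P ε X
  obtain ⟨y0, y1, y2⟩ := HJ_phi P ε Y
  obtain ⟨t0, t1, t2⟩ := HJ_T P (sg ε * m)
  obtain ⟨u0, u1, u2⟩ := HJ_T P (sg ε * (m + 2))
  have hI := Complex.I_sq
  have hz0 := P.z0
  have hz8 : P.z ^ (8 : ℕ) = 1 := by
    have : P.z ^ (8 : ℕ) = (P.z ^ 4) ^ 2 := by ring
    rw [this, P.z4]
    norm_num
  have hz8' : ∀ n : ℤ, (P.z ^ n) ^ (8 : ℕ) = 1 := by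
    intro n
    rw [← zpow_natCast, ← zpow_mul, mul_comm, zpow_mul, zpow_natCast, hz8, one_zpow]
  cases ε with
  | true =>
    have hs : sg true = 1 := rfl
    rw [hs] at x1 y1 t0 t1 t2 u0 u1 u2
    rw [hs]
    rw [if_pos rfl] at hJ
    rw [one_mul] at t0 t1 t2 u0 u1 u2
    rw [one_mul, one_mul]
    have hz : P.z ^ (m + 2) = Complex.I * P.z ^ m := by
      rw [zpow_add₀ hz0]
      have : P.z ^ (2 : ℤ) = Complex.I := by exact_mod_cast P.hz
      rw [this, mul_comm]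
    rw [hz] at u0 u1 u2
    refine ⟨Complex.I * P.z ^ m, mo 0 X, -mo 1 X - m / 4 * mo 0 X,
      mo 2 X / 2 + m / 4 * mo 1 X + m ^ 2 / 32 * mo 0 X,
      mo 0 Y, -mo 1 Y - (m + 2) / 4 * mo 0 Y,
      mo 2 Y / 2 + (m + 2) / 4 * mo 1 Y + (m + 2) ^ 2 / 32 * mo 0 Y,
      ?_, ?_, ?_, ?_, ?_, ?_, ?_, ?_, ?_, ?_, ?_, ?_, ?_⟩
    · rw [mul_pow, hz8' m]
      have : Complex.I ^ 8 = (Complex.I ^ 2) ^ 4 := by ring
      rw [this, hI]
      norm_num
    · rw [map_mul, bc0, t0, x0]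
      linear_combination (P.z ^ m * mo 0 X) * hI
    · rw [map_mul, bc1, t0, t1, x0, x1]
      push_cast
      linear_combination -(P.z ^ m * (mo 1 X + m / 4 * mo 0 X)) * hI
    · rw [map_mul, bc2, t0, t1, t2, x0, x1, x2]
      push_cast
      linear_combination (P.z ^ m * (mo 2 X / 2 + m / 4 * mo 1 X + m ^ 2 / 32 * mo 0 X)) * hI
    · rw [map_mul, bc0, u0, y0]
    · rw [map_mul, bc1, u0, u1, y0, y1]
      push_cast
      ring
    · rw [map_mul, bc2, u0, u1, u2, y0, y1, y2]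
      push_cast
      ring
    all_goals
      rw [hJ]
      simp only [jetOf]
      push_cast
      ring
  | false =>
    have hs : sg false = -1 := rfl
    rw [hs] at x1 y1 t0 t1 t2 u0 u1 u2
    rw [hs]
    rw [if_neg (by simp)] at hJ
    rw [neg_one_mul] at t0 t1 t2 u0 u1 u2
    rw [neg_one_mul, neg_one_mul]
    have hz : P.z ^ (-m) = Complex.I * P.z ^ (-(m + 2)) := by
      have h1 : (-m : ℤ) = -(m + 2) + 2 := by ring
      rw [h1, zpow_add₀ hz0]
      have : P.z ^ (2 : ℤ) = Complex.I := by exact_mod_cast P.hz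
      rw [this, mul_comm]
    rw [hz] at t0 t1 t2
    refine ⟨P.z ^ (-(m + 2)), -mo 0 X, -mo 1 X - m / 4 * mo 0 X,
      -(mo 2 X / 2) - m / 4 * mo 1 X - m ^ 2 / 32 * mo 0 X,
      mo 0 Y, mo 1 Y + (m + 2) / 4 * mo 0 Y,
      mo 2 Y / 2 + (m + 2) / 4 * mo 1 Y + (m + 2) ^ 2 / 32 * mo 0 Y,
      ?_, ?_, ?_, ?_, ?_, ?_, ?_, ?_, ?_, ?_, ?_, ?_, ?_⟩
    · exact hz8' _
    · rw [map_mul, bc0, t0, x0]
      ring
    · rw [map_mul, bc1, t0, t1, x0, x1]
      push_cast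
      ring
    · rw [map_mul, bc2, t0, t1, t2, x0, x1, x2]
      push_cast
      ring
    · rw [map_mul, bc0, u0, y0]
    · rw [map_mul, bc1, u0, u1, y0, y1]
      push_cast
      ring
    · rw [map_mul, bc2, u0, u1, u2, y0, y1, y2]
      push_cast
      ring
    all_goals
      rw [hJ]
      simp only [jetOf]
      push_cast
      ring

/-- [HJ] the pair of the state sums `X`, `Y` has the jet `jetOf X Y` or its mirror image -/
theorem thm_HJ (ε : Bool) (m : ℤ) (X Y : LaurentPolynomial ℤ) :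
    Pool.Agent.ALT.PJ (T (sg ε * m) * phi ε X, T (sg ε * (m + 2)) * phi ε Y)
      (if ε then jetOf X Y else ⟨-(jetOf X Y).p, (jetOf X Y).q, (jetOf X Y).w,
        (jetOf X Y).G, -(jetOf X Y).F, (jetOf X Y).H⟩) :=
  fun P => HJ_main P ε m X Y _ rfl

end Pool.ALT
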