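import Pool.Agent.ALT.Tu.StP

/-! # ALT, block Tu: [LP] an edge with joined ends is a factor `1/s` -/

set_option autoImplicit false

namespace Pool.ALT

open LaurentPolynomial

theorem LP_vv : (1 : LaurentPolynomial ℤ) + vv = T (-1) := by
  unfold vv
  ring

theorem LP_split {E : Type} [DecidableEq E] (R : Finset E) (f : E) (hf : f ∈ R)
    (F : Finset E → LaurentPolynomial ℤ)
    (hF : ∀ A ⊆ R.erase f, F (insert f A) = vv * F A) :
    ∑ A ∈ R.powerset, F A = T (-1) * ∑ A ∈ (R.erase f).powerset, F A := by
  have h1 : ∑ A ∈ R.powerset, F A = ∑ A ∈ (insert f (R.erase f)).powerset, F A := by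
    rw [Finset.insert_erase hf]
  rw [h1, Finset.sum_powerset_insert (Finset.notMem_erase f R), ← LP_vv, add_mul, one_mul,
    Finset.mul_sum]
  congr 1
  exact Finset.sum_congr rfl fun A hA => hF A (Finset.mem_powerset.1 hA)

theorem thm_LP : St_LP := by
  classical
  intro V E _ _ g σ R f hf hj
  have hins : ∀ A : Finset E, g.sp σ (insert f A) = g.sp σ A := fun A =>
    Gr.sp_insert_of g (g.le_sp σ A hj)
  have hK : g.K σ R = g.K σ (R.erase f) := by
    have h1 : g.sp σ R = g.sp σ (R.erase f) := by
      rw [← hins (R.erase f), Finset.insert_erase hf]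
    unfold Gr.K
    rw [h1]
  have hnul : ∀ A ⊆ R.erase f, g.nul σ (insert f A) = g.nul σ A + 1 := by
    intro A hA
    have hfA : f ∉ A := fun h => Finset.notMem_erase f R (hA h)
    have h2 := Gr.nc_le_add_card g σ A
    unfold Gr.nul
    rw [hins, Finset.card_insert_of_notMem hfA]
    omega
  constructor
  · unfold Gr.be
    rw [Finset.sum_filter, Finset.sum_filter, ← hK]
    apply LP_split R f hf
    intro A hA
    rw [hins, hnul A hA]
    split_ifs
    · ring
    · ring
  · unfold Gr.al
    rw [Finset.sum_filter, Finset.sum_filter, ← hK]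
    apply LP_split R f hf
    intro A hA
    rw [hins, hnul A hA]
    split_ifs
    · ring
    · ring

end Pool.ALT
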