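import Mathlib

/-! # ALT: partitions spanned by edge sets of a multigraph with two marked vertices -/

set_option autoImplicit false

namespace Pool.ALT

variable {V E : Type}

/-- the partition that joins `x` and `y` only -/
def pr (x y : V) : Setoid V where
  r p q := p = q ∨ (p = x ∧ q = y) ∨ (p = y ∧ q = x)
  iseqv := by
    constructor
    · intro p
      exact Or.inl rfl
    · rintro p q (h | ⟨h1, h2⟩ | ⟨h1, h2⟩)
      · exact Or.inl h.symm
      · exact Or.inr (Or.inr ⟨h2, h1⟩)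
      · exact Or.inr (Or.inl ⟨h2, h1⟩)
    · rintro p q r (h | ⟨h1, h2⟩ | ⟨h1, h2⟩) (h' | ⟨h1', h2'⟩ | ⟨h1', h2'⟩)
      · exact Or.inl (h.trans h')
      · exact Or.inr (Or.inl ⟨h.trans h1', h2'⟩)
      · exact Or.inr (Or.inr ⟨h.trans h1', h2'⟩)
      · exact Or.inr (Or.inl ⟨h1, h'.symm.trans h2⟩)
      · exact Or.inr (Or.inl ⟨h1, h2'⟩)
      · exact Or.inl (h1.trans h2'.symm)
      · exact Or.inr (Or.inr ⟨h1, h'.symm.trans h2⟩)
      · exact Or.inl (h1.trans h2'.symm)
      · exact Or.inr (Or.inr ⟨h1, h2'⟩)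

/-- number of classes -/
noncomputable def nc (σ : Setoid V) : ℕ := Nat.card (Quotient σ)

/-- a multigraph with two marked vertices -/
structure Gr (V E : Type) where
  u : E → V
  v : E → V
  a : V
  b : V

/-- the partition of one edge -/
def Gr.pe (g : Gr V E) (e : E) : Setoid V := pr (g.u e) (g.v e)

/-- the partition that joins the two marked vertices -/
def Gr.ab (g : Gr V E) : Setoid V := pr g.a g.b

/-- the partition spanned by `σ` and the edges in `A` -/
def Gr.sp (g : Gr V E) (σ : Setoid V) (A : Finset E) : Setoid V := σ ⊔ A.sup g.pe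

theorem pr_rel (x y : V) : pr x y x y := Or.inr (Or.inl ⟨rfl, rfl⟩)

theorem pr_le_iff (x y : V) (σ : Setoid V) : pr x y ≤ σ ↔ σ x y := by
  constructor
  · intro h
    exact h (pr_rel x y)
  · intro h
    rw [Setoid.le_def]
    rintro p q (h1 | ⟨h1, h2⟩ | ⟨h1, h2⟩)
    · subst h1
      exact σ.refl' p
    · subst h1 h2
      exact h
    · subst h1 h2
      exact σ.symm' h

theorem pr_comm (x y : V) : pr x y = pr y x := by
  apply le_antisymm
  · exact (pr_le_iff _ _ _).2 ((pr y x).symm' (pr_rel y x))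
  · exact (pr_le_iff _ _ _).2 ((pr x y).symm' (pr_rel x y))

/-- description of the join with one more pair -/
def jn (σ : Setoid V) (x y : V) : Setoid V where
  r p q := σ p q ∨ (σ p x ∧ σ y q) ∨ (σ p y ∧ σ x q)
  iseqv := by
    constructor
    · intro p
      exact Or.inl (σ.refl' p)
    · rintro p q (h | ⟨h1, h2⟩ | ⟨h1, h2⟩)
      · exact Or.inl (σ.symm' h)
      · exact Or.inr (Or.inr ⟨σ.symm' h2, σ.symm' h1⟩)
      · exact Or.inr (Or.inl ⟨σ.symm' h2, σ.symm' h1⟩)
    · rintro p q r (h | ⟨h1, h2⟩ | ⟨h1, h2⟩) (h' | ⟨h1', h2'⟩ | ⟨h1', h2'⟩)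
      · exact Or.inl (σ.trans' h h')
      · exact Or.inr (Or.inl ⟨σ.trans' h h1', h2'⟩)
      · exact Or.inr (Or.inr ⟨σ.trans' h h1', h2'⟩)
      · exact Or.inr (Or.inl ⟨h1, σ.trans' h2 h'⟩)
      · exact Or.inr (Or.inl ⟨h1, h2'⟩)
      · exact Or.inl (σ.trans' h1 h2')
      · exact Or.inr (Or.inr ⟨h1, σ.trans' h2 h'⟩)
      · exact Or.inl (σ.trans' h1 h2')
      · exact Or.inr (Or.inr ⟨h1, h2'⟩)

theorem sup_pr (σ : Setoid V) (x y : V) : σ ⊔ pr x y = jn σ x y := by
  apply le_antisymm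
  · apply sup_le
    · rw [Setoid.le_def]
      intro p q h
      exact Or.inl h
    · rw [pr_le_iff]
      exact Or.inr (Or.inl ⟨σ.refl' x, σ.refl' y⟩)
  · rw [Setoid.le_def]
    have h1 : ∀ {p q : V}, σ p q → (σ ⊔ pr x y) p q := fun h => (le_sup_left : σ ≤ σ ⊔ pr x y) h
    have h2 : (σ ⊔ pr x y) x y := (le_sup_right : pr x y ≤ σ ⊔ pr x y) (pr_rel x y)
    rintro p q (h | ⟨h, h'⟩ | ⟨h, h'⟩)
    · exact h1 h
    · exact (σ ⊔ pr x y).trans' (h1 h) ((σ ⊔ pr x y).trans' h2 (h1 h'))
    · exact (σ ⊔ pr x y).trans' (h1 h) ((σ ⊔ pr x y).trans' ((σ ⊔ pr x y).symm' h2) (h1 h'))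

theorem sup_pr_iff (σ : Setoid V) (x y p q : V) :
    (σ ⊔ pr x y) p q ↔ σ p q ∨ (σ p x ∧ σ y q) ∨ (σ p y ∧ σ x q) := by
  rw [sup_pr]
  exact Iff.rfl

theorem sup_pr_of (σ : Setoid V) {x y : V} (h : σ x y) : σ ⊔ pr x y = σ :=
  sup_eq_left.2 ((pr_le_iff _ _ _).2 h)

variable [Finite V]

theorem nc_anti {σ τ : Setoid V} (h : σ ≤ τ) : nc τ ≤ nc σ := by
  unfold nc
  have : Finite (Quotient σ) := Quotient.finite σ
  apply Nat.card_le_card_of_surjective (Setoid.map_of_le h)
  intro c
  induction c using Quotient.inductionOn with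
  | h x => exact ⟨Quotient.mk'' x, rfl⟩

theorem nc_pos [Nonempty V] (σ : Setoid V) : 0 < nc σ := by
  unfold nc
  have : Finite (Quotient σ) := Quotient.finite σ
  have : Nonempty (Quotient σ) := Nonempty.map (Quotient.mk σ) inferInstance
  exact Nat.card_pos

omit [Finite V] in
theorem nc_bot : nc (⊥ : Setoid V) = Nat.card V := Nat.card_congr Setoid.quotientBotEquiv

theorem nc_sup_pr {σ : Setoid V} {x y : V} (h : ¬ σ x y) : nc (σ ⊔ pr x y) + 1 = nc σ := by
  unfold nc
  have : Finite (Quotient σ) := Quotient.finite σ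
  have : Finite (Quotient (σ ⊔ pr x y)) := Quotient.finite _
  classical
  let f : {c : Quotient σ // c ≠ Quotient.mk σ y} → Quotient (σ ⊔ pr x y) :=
    fun c => Setoid.map_of_le (le_sup_left : σ ≤ σ ⊔ pr x y) c.1
  have hf : Function.Bijective f := by
    constructor
    · rintro ⟨c, hc⟩ ⟨d, hd⟩ hcd
      induction c using Quotient.inductionOn with
      | h p =>
        induction d using Quotient.inductionOn with
        | h q =>
          have h1 : (σ ⊔ pr x y) p q := Quotient.exact hcd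
          rw [sup_pr_iff] at h1
          rcases h1 with h1 | ⟨_, h2⟩ | ⟨h2, _⟩
          · exact Subtype.ext (Quotient.sound h1)
          · exact absurd (Quotient.sound (σ.symm' h2)) hd
          · exact absurd (Quotient.sound h2) hc
    · intro c
      induction c using Quotient.inductionOn with
      | h p =>
        by_cases hp : σ p y
        · refine ⟨⟨Quotient.mk σ x, ?_⟩, ?_⟩
          · intro he
            exact h (Quotient.exact he)
          · apply Quotient.sound
            change (σ ⊔ pr x y) x p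
            rw [sup_pr_iff]
            exact Or.inr (Or.inl ⟨σ.refl' x, σ.symm' hp⟩)
        · refine ⟨⟨Quotient.mk σ p, ?_⟩, rfl⟩
          intro he
          exact hp (Quotient.exact he)
  rw [← Nat.card_congr (Equiv.ofBijective f hf)]
  have h2 : Nat.card {c : Quotient σ // c ≠ Quotient.mk σ y} + 1 = Nat.card (Quotient σ) := by
    have := Fintype.ofFinite (Quotient σ)
    rw [Nat.card_eq_fintype_card, Nat.card_eq_fintype_card, Fintype.card_subtype_compl,
      Fintype.card_subtype_eq]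
    have : 0 < Fintype.card (Quotient σ) := Fintype.card_pos_iff.2 ⟨Quotient.mk σ y⟩
    omega
  exact h2

theorem nc_sup_pr_le (σ : Setoid V) (x y : V) : nc σ ≤ nc (σ ⊔ pr x y) + 1 := by
  by_cases h : σ x y
  · rw [sup_pr_of σ h]
    omega
  · rw [nc_sup_pr h]

/-- equality of partitions from equality of the numbers of classes -/
theorem eq_of_le_of_nc {σ τ : Setoid V} (h : σ ≤ τ) (h' : nc σ ≤ nc τ) : σ = τ := by
  apply le_antisymm h
  rw [Setoid.le_def]
  intro x y hxy
  by_contra hn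
  have h1 := nc_sup_pr hn
  have h2 : σ ⊔ pr x y ≤ τ := sup_le h ((pr_le_iff _ _ _).2 hxy)
  have h3 := nc_anti h2
  omega

namespace Gr
variable (g : Gr V E)
omit [Finite V]

theorem sp_empty (σ : Setoid V) : g.sp σ ∅ = σ := by
  unfold sp
  rw [Finset.sup_empty, sup_bot_eq]

theorem sp_insert [DecidableEq E] (σ : Setoid V) (e : E) (A : Finset E) :
    g.sp σ (insert e A) = g.sp σ A ⊔ g.pe e := by
  unfold sp
  rw [Finset.sup_insert, sup_assoc, sup_comm (g.pe e)]

theorem sp_insert' [DecidableEq E] (σ : Setoid V) (e : E) (A : Finset E) :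
    g.sp σ (insert e A) = g.sp (σ ⊔ g.pe e) A := by
  unfold sp
  rw [Finset.sup_insert, sup_assoc]

theorem sp_sup (σ τ : Setoid V) (A : Finset E) : g.sp (σ ⊔ τ) A = g.sp σ A ⊔ τ := by
  unfold sp
  rw [sup_assoc, sup_assoc, sup_comm τ]

theorem sp_union [DecidableEq E] (σ : Setoid V) (A B : Finset E) :
    g.sp σ (A ∪ B) = g.sp (g.sp σ A) B := by
  unfold sp
  rw [Finset.sup_union, sup_assoc]

theorem sp_mono {σ τ : Setoid V} {A B : Finset E} (h : σ ≤ τ) (h' : A ⊆ B) :
    g.sp σ A ≤ g.sp τ B :=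
  sup_le_sup h (Finset.sup_mono h')

theorem le_sp (σ : Setoid V) (A : Finset E) : σ ≤ g.sp σ A := le_sup_left

theorem pe_le_sp (σ : Setoid V) {A : Finset E} {e : E} (h : e ∈ A) : g.pe e ≤ g.sp σ A :=
  (Finset.le_sup h).trans le_sup_right

theorem sp_le {σ τ : Setoid V} {A : Finset E} (h : σ ≤ τ) (h' : ∀ e ∈ A, τ (g.u e) (g.v e)) :
    g.sp σ A ≤ τ :=
  sup_le h (Finset.sup_le fun e he => (pr_le_iff _ _ _).2 (h' e he))

/-- an edge whose ends are already joined does not change the partition -/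
theorem sp_insert_of [DecidableEq E] {σ : Setoid V} {e : E} {A : Finset E}
    (h : g.sp σ A (g.u e) (g.v e)) : g.sp σ (insert e A) = g.sp σ A := by
  rw [sp_insert]
  exact sup_pr_of _ h

theorem nc_sp_insert [Finite V] [DecidableEq E] {σ : Setoid V} {e : E} {A : Finset E}
    (h : ¬ g.sp σ A (g.u e) (g.v e)) : nc (g.sp σ (insert e A)) + 1 = nc (g.sp σ A) := by
  rw [sp_insert]
  exact nc_sup_pr h

/-- the nullity is not negative -/
theorem nc_le_add_card [Finite V] (σ : Setoid V) (A : Finset E) : nc σ ≤ nc (g.sp σ A) + A.card := by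
  classical
  induction A using Finset.induction_on with
  | empty => rw [sp_empty]; simp
  | insert e A he ih =>
    rw [Finset.card_insert_of_notMem he]
    by_cases h : g.sp σ A (g.u e) (g.v e)
    · rw [sp_insert_of g h]
      omega
    · have := nc_sp_insert g h
      omega

theorem nc_sp_le [Finite V] (σ : Setoid V) (A : Finset E) : nc (g.sp σ A) ≤ nc σ :=
  nc_anti (g.le_sp σ A)

end Gr

end Pool.ALT
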