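import Mathlib
import Pool.Agent.ALT.Tu.StR

/-! # ALT, block Tu: [RL] resistances (helper25) -/

set_option autoImplicit false

namespace Pool.ALT

/-- [RL] -/
theorem thm_RL (hK1 : St_K1) (hKR : St_KR) (hKS : St_KS) : St_RL := by
  intro V E _ _ _ g R G H hab hG hH
  have hb : g.b ∉ ({g.a} : Finset V) := by
    rw [Finset.mem_singleton]
    exact Ne.symm hab
  have hp : insert g.b ({g.a} : Finset V) = {g.a, g.b} := Finset.pair_comm _ _
  have h1 := hK1 g R {g.a} G g.b (Finset.singleton_nonempty _) hG hb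
  rw [hp] at h1
  refine ⟨h1, fun e => ?_⟩
  have h2 := hKR g R {g.a} G g.b hG hb
  rw [hp] at h2
  have h3 := (hKS g R _ H hH).2.2 _ h2
  obtain ⟨h4, h5, -⟩ := hKS g R _ G hG
  have h6 := (h5 g.b hb).ne'
  unfold Gr.rs Gr.d
  rw [h3]
  simp only
  rw [h4 (g.u e) g.b, h4 (g.v e) g.b]
  field_simp
  ring

end Pool.ALT
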