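import Pool.Agent.ALT.Tu.StR

/-! ALT, block Tu: recursion for the rooted counts (proof by helper89 of `St_RN` of helper58). -/

set_option autoImplicit false

namespace Pool.ALT

theorem RN_card {E : Type} [DecidableEq E] (R : Finset E) (e : E) (he : e ∈ R)
    (P Q : Finset E → Prop) [DecidablePred P] [DecidablePred Q]
    (h : ∀ A, e ∉ A → (P (insert e A) ↔ Q A)) :
    (R.powerset.filter P).card =
      ((R.erase e).powerset.filter P).card + ((R.erase e).powerset.filter Q).card := by
  have h1 := Finset.card_filter_add_card_filter_not (s := R.powerset.filter P)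
    (fun A : Finset E => e ∈ A)
  have h2 : ((R.powerset.filter P).filter fun A => ¬ e ∈ A) = (R.erase e).powerset.filter P := by
    ext A
    rw [Finset.mem_filter, Finset.mem_filter, Finset.mem_filter, Finset.mem_powerset,
      Finset.mem_powerset]
    constructor
    · rintro ⟨⟨hA, hP⟩, heA⟩
      exact ⟨fun t ht => Finset.mem_erase.2 ⟨fun h => heA (h ▸ ht), hA ht⟩, hP⟩
    · rintro ⟨hA, hP⟩
      exact ⟨⟨fun t ht => Finset.mem_of_mem_erase (hA ht), hP⟩,
        fun h => (Finset.mem_erase.1 (hA h)).1 rfl⟩
  have h3 : ((R.powerset.filter P).filter fun A => e ∈ A).card =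
      ((R.erase e).powerset.filter Q).card := by
    apply Finset.card_nbij' (fun A => A.erase e) (fun A => insert e A)
    · intro A hA
      rw [Finset.mem_coe, Finset.mem_filter, Finset.mem_filter, Finset.mem_powerset] at hA
      obtain ⟨⟨hA, hP⟩, heA⟩ := hA
      rw [Finset.mem_coe, Finset.mem_filter, Finset.mem_powerset]
      refine ⟨Finset.erase_subset_erase e hA, ?_⟩
      rw [← h _ (Finset.notMem_erase e A), Finset.insert_erase heA]
      exact hP
    · intro A hA
      rw [Finset.mem_coe, Finset.mem_filter, Finset.mem_powerset] at hA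
      obtain ⟨hA, hQ⟩ := hA
      have heA : e ∉ A := fun h => (Finset.mem_erase.1 (hA h)).1 rfl
      rw [Finset.mem_coe, Finset.mem_filter, Finset.mem_filter, Finset.mem_powerset]
      refine ⟨⟨?_, (h A heA).2 hQ⟩, Finset.mem_insert_self e A⟩
      intro t ht
      rcases Finset.mem_insert.1 ht with ht | ht
      · rw [ht]
        exact he
      · exact Finset.mem_of_mem_erase (hA ht)
    · intro A hA
      rw [Finset.mem_coe, Finset.mem_filter] at hA
      exact Finset.insert_erase hA.2
    · intro A hA
      rw [Finset.mem_coe, Finset.mem_filter, Finset.mem_powerset] at hA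
      exact Finset.erase_insert fun h => (Finset.mem_erase.1 (hA.1 h)).1 rfl
  rw [h2, h3] at h1
  omega

theorem thm_RN (hRT : St_RT) : St_RN := by
  intro V E _ _ _ g R W e w x he hw hx hux
  obtain ⟨-, -, hr, -⟩ := hRT (V := V)
  obtain ⟨r1, r2⟩ := hr W x w hw
  have h1 : rt W ⊔ g.pe e = rt (insert x W) := by
    unfold Gr.pe
    rcases hux with ⟨hu, hv⟩ | ⟨hu, hv⟩
    · rw [hu, hv]
      exact r2
    · rw [hu, hv]
      exact r1
  unfold Gr.NF
  apply RN_card R e he
  intro A heA
  rw [Finset.card_insert_of_notMem heA, Finset.card_insert_of_notMem hx, Gr.sp_insert', h1]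
  constructor
  · rintro ⟨h2, h3⟩
    exact ⟨by omega, h3⟩
  · rintro ⟨h2, h3⟩
    exact ⟨by omega, h3⟩

end Pool.ALT
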